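import Pool.Agent.H.MP_6c077c_gt.Ix.CutA

/-! The cut of a body in a window, for an abstract function: near the point `p` the function is the
model of index one truncated above `p`; nothing is assumed elsewhere. -/

set_option autoImplicit false

namespace Pool.Schoen

open Filter Set
open scoped Topology RealInnerProductSpace ContDiff

variable {V : Type*} [NormedAddCommGroup V] [InnerProductSpace ℝ V]

/-- Near `p` the function `g` is the model of index one truncated at the height `ε` above `p`, and the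
slab `|y₁| ≤ 2 η` of the truncated model is in the ball of radius `r / 2`. -/
structure GSlab (g : V → ℝ) (e u p : V) (B : V →L[ℝ] V →L[ℝ] ℝ) (μ a r η ε : ℝ) : Prop where
  good : Good g
  bdd : Bornology.IsBounded {x | g x ≤ 0}
  mod : Mod1 (mdl1 B μ a e u p) e u p B μ a r
  form : ∀ x, ‖x - p‖ < r → g x = max (mdl1 B μ a e u p x) (⟪e, x - p⟫ - ε)
  hη : 0 < η
  hε : 0 < ε
  hηr : η < r / 8
  hεr : ε < r / 8
  small : ∀ x, mdl1 B μ a e u p x ≤ 0 → ⟪e, x - p⟫ ≤ ε → |⟪u, x - p⟫| ≤ 2 * η → ‖x - p‖ < r / 2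

/-- The sizes: for every small `s` one can take `η = ε = s`. -/
theorem gslab_small [FiniteDimensional ℝ V] {f : V → ℝ} {e u p : V} {B : V →L[ℝ] V →L[ℝ] ℝ}
    {μ a r : ℝ} (hm : Mod1 f e u p B μ a r) :
    ∀ᶠ s : ℝ in 𝓝[>] 0, 0 < s ∧ s < r / 8 ∧
      ∀ x, mdl1 B μ a e u p x ≤ 0 → ⟪e, x - p⟫ ≤ s → |⟪u, x - p⟫| ≤ 2 * s → ‖x - p‖ < r / 2 := by
  obtain ⟨β, hβ, hβB⟩ := pos_form_wc B hm.hB
  have hr'0 := hm.hr
  have hcont : Continuous (fun s : ℝ => (s + 2 * a * s ^ 2 / μ) ^ 2 + 4 * s ^ 2 +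
      2 * (μ * s + 2 * a * s ^ 2) / β) := by
    fun_prop
  have hev : ∀ᶠ s : ℝ in 𝓝 0, (s + 2 * a * s ^ 2 / μ) ^ 2 + 4 * s ^ 2 +
      2 * (μ * s + 2 * a * s ^ 2) / β < (r / 2) ^ 2 := by
    apply hcont.continuousAt.eventually_lt_const
    have : (0 : ℝ) < (r / 2) ^ 2 := by positivity
    simpa using this
  have h2 : ∀ᶠ s : ℝ in 𝓝[>] 0, s ∈ Ioo 0 (r / 8) := Ioo_mem_nhdsGT (by linarith)
  filter_upwards [hev.filter_mono nhdsWithin_le_nhds, h2] with s hs1 hs2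
  refine ⟨hs2.1, hs2.2, ?_⟩
  have hs0 := hs2.1
  intro x hx hz hy
  have hμ := hm.hμ
  have ha := hm.ha
  obtain ⟨hw1, hw2⟩ := inner_wc hm.he hm.hu hm.heu (x - p)
  have hBw := hβB _ hw1 hw2
  have hn := norm_sq_wc hm.he hm.hu hm.heu (x - p)
  unfold mdl1 at hx
  set z := ⟪e, x - p⟫ with hzdef
  set y := ⟪u, x - p⟫ with hydef
  set w := wc e u (x - p) with hwdef
  have hy2 : y ^ 2 ≤ 4 * s ^ 2 := by
    have h1 := abs_le.1 hy
    nlinarith
  have hw0 : 0 ≤ ‖w‖ ^ 2 := by positivity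
  have hBw0 : 0 ≤ B w w := le_trans (by positivity) hBw
  have h1 : B w w ≤ 2 * (μ * z) + a * y ^ 2 := by linarith
  have h2 : a * y ^ 2 ≤ 4 * a * s ^ 2 := by nlinarith
  have h3 : μ * z ≤ μ * s := mul_le_mul_of_nonneg_left hz hμ.le
  have h4 : ‖w‖ ^ 2 ≤ 2 * (μ * s + 2 * a * s ^ 2) / β := by
    rw [le_div_iff₀ hβ]
    linarith
  have h5 : -(2 * a * s ^ 2 / μ) ≤ z := by
    rw [neg_le, div_eq_mul_inv, ← neg_le_neg_iff, neg_neg]
    have h6 : -(2 * a * s ^ 2) ≤ μ * z := by linarith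
    have h7 : -(2 * a * s ^ 2 * μ⁻¹) = μ⁻¹ * (-(2 * a * s ^ 2)) := by ring
    rw [h7]
    calc μ⁻¹ * (-(2 * a * s ^ 2)) ≤ μ⁻¹ * (μ * z) :=
          mul_le_mul_of_nonneg_left h6 (inv_nonneg.2 hμ.le)
      _ = z := by field_simp
  have h8 : 0 ≤ 2 * a * s ^ 2 / μ := by positivity
  have h9 : z ^ 2 ≤ (s + 2 * a * s ^ 2 / μ) ^ 2 := by
    apply sq_le_sq'
    · linarith
    · linarith
  have h10 : ‖x - p‖ ^ 2 < (r / 2) ^ 2 := by
    rw [hn]
    linarith
  exact lt_of_pow_lt_pow_left₀ 2 (by positivity) h10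

/-- From the model near `p`: `g` is near `p` the truncation of `f`. -/
theorem GSlab.of_mod {f g : V → ℝ} {e u p : V} {B : V →L[ℝ] V →L[ℝ] ℝ} {μ a r s : ℝ}
    (hm : Mod1 f e u p B μ a r) (hg : Good g) (hb : Bornology.IsBounded {x | g x ≤ 0})
    (hf : ∀ x, ‖x - p‖ < r → g x = max (f x) (⟪e, x - p⟫ - s)) (hs : 0 < s) (hsr : s < r / 8)
    (hsm : ∀ x, mdl1 B μ a e u p x ≤ 0 → ⟪e, x - p⟫ ≤ s → |⟪u, x - p⟫| ≤ 2 * s →
      ‖x - p‖ < r / 2) : GSlab g e u p B μ a r s s :=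
  ⟨hg, hb, ⟨hm.he, hm.hu, hm.heu, hm.hμ, hm.ha, hm.hr, hm.hB, fun _ _ => rfl⟩,
    fun x hx => by rw [hf x hx, hm.hf x hx], hs, hs, hsr, hsr, hsm⟩

/-- The function of the cut body. -/
noncomputable def gcut (g : V → ℝ) (u p : V) (η r : ℝ) (x : V) : ℝ := max (g x) (lam u p η r x)

/-- The slab. -/
def gslabS (g : V → ℝ) (u p : V) (η r : ℝ) : Set V := {x | g x ≤ 0 ∧ 0 ≤ lam u p η r x}

/-- The wall at the level `c = ±η` of `y₁`. -/
def gwallS (g : V → ℝ) (u p : V) (η r c : ℝ) : Set V :=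
  {x | g x ≤ 0 ∧ lam u p η r x = 0 ∧ ⟪u, x - p⟫ = c}

variable {g : V → ℝ} {e u p : V} {B : V →L[ℝ] V →L[ℝ] ℝ} {μ a r η ε : ℝ}

/-- In the body and in the slab one is within the ball of radius `r / 2`. -/
theorem GSlab.near (h : GSlab g e u p B μ a r η ε) {x : V} (hx : g x ≤ 0)
    (hl : 0 ≤ lam u p η r x) : ‖x - p‖ < r / 2 ∧ |⟪u, x - p⟫| ≤ η := by
  unfold lam at hl
  rw [le_min_iff] at hl
  have hη := h.hη
  have hr := h.mod.hr
  have h1 : |⟪u, x - p⟫| ≤ η := by linarith [hl.1]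
  have h2 : ‖x - p‖ < r := by linarith [hl.2]
  rw [h.form x h2, max_le_iff] at hx
  exact ⟨h.small x hx.1 (by linarith [hx.2]) (by linarith), h1⟩

/-- There `lam` is `η - |y₁|`: as `3 r / 4 - ‖x - p‖ > r / 4 > η ≥ η - |y₁|` near `x`. -/
theorem GSlab.lam_near (h : GSlab g e u p B μ a r η ε) {x : V} (hx : ‖x - p‖ < r / 2) :
    ∀ᶠ y in 𝓝 x, lam u p η r y = η - |⟪u, y - p⟫| := by
  have hc : Continuous (fun y : V => ‖y - p‖) := by fun_prop
  filter_upwards [hc.continuousAt.eventually_lt_const hx] with y hy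
  unfold lam
  apply min_eq_left
  have h1 := h.hηr
  have h2 := abs_nonneg (⟪u, y - p⟫ : ℝ)
  have h3 : ‖y - p‖ < r / 2 := hy
  have h4 := h.mod.hr
  linarith

private theorem GSlab_aff (w q : V) (c : ℝ) {x v : V} (h : ⟪w, v⟫ < 0) :
    Desc1 (fun y => ⟪w, y - q⟫ + c) x v := by
  have hd : HasFDerivAt (fun y : V => ⟪w, y - q⟫ + c) (innerSL ℝ w) x := by
    have h1 : HasFDerivAt (fun y : V => innerSL ℝ w (y - q) + c) (innerSL ℝ w) x := by
      have h2 : HasFDerivAt (fun y : V => y - q) (ContinuousLinearMap.id ℝ V) x :=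
        (hasFDerivAt_id x).sub_const q
      have h3 := ((innerSL ℝ w).hasFDerivAt (x := x - q)).comp x h2
      simpa using h3.add_const c
    exact h1
  apply desc1_smooth
  · apply ContDiff.contDiffAt
    exact (contDiff_const.inner ℝ (contDiff_id.sub contDiff_const)).add contDiff_const
  · rw [hd.fderiv]
    exact h

/-- Descent of `lam` at `x` in the ball of radius `r / 2`: directions `v` with
`0 < ⟪u, x - p⟫ * ⟪u, v⟫`. -/
theorem GSlab.lam_desc (h : GSlab g e u p B μ a r η ε) {x v : V} (hx : ‖x - p‖ < r / 2)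
    (hv : 0 < ⟪u, x - p⟫ * ⟪u, v⟫) : Desc1 (lam u p η r) x v := by
  have hc : Continuous (fun y : V => ⟪u, y - p⟫) := by fun_prop
  rcases mul_pos_iff.1 hv with ⟨h1, h2⟩ | ⟨h1, h2⟩
  · have h3 : Desc1 (fun y => ⟪-u, y - p⟫ + η) x v := by
      apply GSlab_aff
      rw [inner_neg_left]
      linarith
    refine h3.congr ?_
    have h4 : ∀ᶠ y in 𝓝 x, (0 : ℝ) < ⟪u, y - p⟫ := hc.continuousAt.eventually_const_lt h1
    filter_upwards [h.lam_near hx, h4] with y hy1 hy2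
    rw [hy1, abs_of_pos hy2, inner_neg_left]
    ring
  · have h3 : Desc1 (fun y => ⟪u, y - p⟫ + η) x v := GSlab_aff _ _ _ h2
    refine h3.congr ?_
    have h4 : ∀ᶠ y in 𝓝 x, ⟪u, y - p⟫ < (0 : ℝ) := hc.continuousAt.eventually_lt_const h1
    filter_upwards [h.lam_near hx, h4] with y hy1 hy2
    rw [hy1, abs_of_neg hy2]
    ring

/-- Descent of `g` (if it vanishes) at `x` in the ball of radius `r`: it is enough that
`mdl1' v < 0` if `mdl1 x = 0`, and `⟪e, v⟫ < 0` if `⟪e, x - p⟫ = ε` (`dz1_max`). -/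
theorem GSlab.fs_dz1 (h : GSlab g e u p B μ a r η ε) {x v : V} (hx : ‖x - p‖ < r)
    (h1 : mdl1 B μ a e u p x = 0 → fderiv ℝ (mdl1 B μ a e u p) x v < 0)
    (h2 : ⟪e, x - p⟫ = ε → ⟪e, v⟫ < 0) : DZ1 g x v := by
  have hg : Continuous (fun y : V => ⟪e, y - p⟫ + (-ε)) := by fun_prop
  have hmc : Continuous (mdl1 B μ a e u p) := (mdl1_contDiff B μ a e u p).continuous
  have hev : (fun y => max (mdl1 B μ a e u p y) (⟪e, y - p⟫ + (-ε))) =ᶠ[𝓝 x] g := by
    have hc : Continuous (fun y : V => ‖y - p‖) := by fun_prop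
    filter_upwards [hc.continuousAt.eventually_lt_const hx] with y hy
    rw [h.form y hy]
    rfl
  have key : DZ1 (fun y => max (mdl1 B μ a e u p y) (⟪e, y - p⟫ + (-ε))) x v := by
    apply dz1_max hmc hg
    · intro h0
      exact desc1_smooth (((mdl1_contDiff B μ a e u p).of_le (by simp)).contDiffAt) (h1 h0)
    · intro h0
      change ⟪e, x - p⟫ + (-ε) = 0 at h0
      exact GSlab_aff _ _ _ (h2 (by linarith))
  intro h0
  refine (key ?_).congr hev
  rw [← h0]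
  exact hev.self_of_nhds

/-- The direction at the walls. -/
theorem GSlab.wall_dir (h : GSlab g e u p B μ a r η ε) {x : V} (hx : |⟪u, x - p⟫| = η) :
    ∃ v : V, fderiv ℝ (mdl1 B μ a e u p) x v < 0 ∧ ⟪e, v⟫ < 0 ∧ 0 < ⟪u, x - p⟫ * ⟪u, v⟫ := by
  have he := h.mod.he
  have hu := h.mod.hu
  have heu := h.mod.heu
  have hμ := h.mod.hμ
  have ha := h.mod.ha
  have hη := h.hη
  obtain ⟨hw1, hw2⟩ := inner_wc he hu heu (x - p)
  obtain ⟨w, hw⟩ : ∃ w, w = wc e u (x - p) := ⟨_, rfl⟩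
  rw [← hw] at hw1 hw2
  have hwn1 : ⟪e, -w⟫ = 0 := by rw [inner_neg_right, hw1, neg_zero]
  have hwn2 : ⟪u, -w⟫ = 0 := by rw [inner_neg_right, hw2, neg_zero]
  obtain ⟨δ, hδ⟩ : ∃ δ, δ = a ^ 2 * η ^ 2 / (2 * μ) := ⟨_, rfl⟩
  have hδ0 : 0 < δ := by rw [hδ]; positivity
  have hδ1 : μ * δ = a ^ 2 * η ^ 2 / 2 := by
    rw [hδ]
    field_simp
  have hy : ⟪u, x - p⟫ ^ 2 = η ^ 2 := by rw [← hx, sq_abs]
  obtain ⟨c1, c2, c3⟩ := comp_of he hu heu hwn1 hwn2 (-δ) (a * ⟪u, x - p⟫)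
  refine ⟨(-δ) • e + (a * ⟪u, x - p⟫) • u + -w, ?_, ?_, ?_⟩
  · rw [mdl1_fderiv, c1, c2, c3, ← hw]
    have hBw : 0 ≤ B w w := by
      by_cases hw0 : w = 0
      · rw [hw0]
        simp
      · exact (h.mod.hB w hw1 hw2 hw0).le
    have e2 : B w (-w) = -(B w w) := map_neg _ _
    have e3 : B (-w) w = -(B w w) := by rw [map_neg]; rfl
    rw [e2, e3]
    have h3 : a * ⟪u, x - p⟫ * (a * ⟪u, x - p⟫) = a ^ 2 * η ^ 2 := by
      rw [← hy]
      ring
    rw [h3]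
    have h4 : 0 < a ^ 2 * η ^ 2 := by positivity
    linarith
  · rw [c1]
    linarith
  · rw [c2]
    have h3 : ⟪u, x - p⟫ * (a * ⟪u, x - p⟫) = a * η ^ 2 := by
      rw [← hy]
      ring
    rw [h3]
    positivity

theorem gcut_near (h : GSlab g e u p B μ a r η ε) {x : V} (hx : lam u p η r x < g x) :
    g =ᶠ[𝓝 x] gcut g u p η r := by
  have h1 := (lam_continuous u p η r).continuousAt.eventually_lt
    h.good.cont.continuousAt hx
  filter_upwards [h1] with y hy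
  unfold gcut
  rw [max_eq_left hy.le]

/-- The zeros of the cut function: germwise a zero of `g` other than `p`, or a point of the ball of
radius `r / 2` where there is a direction of descent going down. -/
theorem gcut_zero (h : GSlab g e u p B μ a r η ε) {x : V} (hx : gcut g u p η r x = 0) :
    (g x = 0 ∧ x ≠ p ∧ g =ᶠ[𝓝 x] gcut g u p η r) ∨
      (‖x - p‖ < r / 2 ∧ ∃ v, Desc1 (gcut g u p η r) x v ∧ ⟪e, v⟫ < 0) := by
  have hη := h.hη
  have hr := h.mod.hr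
  have h0 : max (g x) (lam u p η r x) = 0 := hx
  have hxp : x ≠ p := by
    intro hxp
    have h1 : lam u p η r x = min η (3 * r / 4) := by
      unfold lam
      rw [hxp, sub_self, inner_zero_right, abs_zero, norm_zero, sub_zero, sub_zero]
    have h2 : 0 < lam u p η r x := by
      rw [h1]
      exact lt_min hη (by linarith)
    have h3 := le_max_right (g x) (lam u p η r x)
    linarith
  have h3 : lam u p η r x ≤ 0 := h0 ▸ le_max_right _ _
  have h4 : g x ≤ 0 := h0 ▸ le_max_left _ _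
  rcases lt_or_eq_of_le h3 with h5 | h5
  · have h6 : g x = 0 := by
      rcases max_choice (g x) (lam u p η r x) with h7 | h7
      · rw [← h7, h0]
      · rw [h0] at h7
        linarith
    exact Or.inl ⟨h6, hxp, gcut_near h (by rw [h6]; exact h5)⟩
  · right
    obtain ⟨h6, h7⟩ := h.near h4 h5.ge
    have h8 := (h.lam_near h6).self_of_nhds
    rw [h5] at h8
    have h9 : |⟪u, x - p⟫| = η := by linarith
    obtain ⟨v, hv1, hv2, hv3⟩ := h.wall_dir h9
    have d1 : DZ1 g x v := h.fs_dz1 (by linarith) (fun _ => hv1) (fun _ => hv2)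
    have d2 : DZ1 (lam u p η r) x v := fun _ => h.lam_desc h6 hv3
    exact ⟨h6, v, dz1_max h.good.cont (lam_continuous u p η r) d1 d2 hx, hv2⟩

theorem gcut_good (h : GSlab g e u p B μ a r η ε) : Good (gcut g u p η r) := by
  refine ⟨h.good.cont.max (lam_continuous u p η r), ?_, ?_⟩
  · refine h.bdd.subset fun x hx => ?_
    exact (le_max_left (g x) (lam u p η r x)).trans (le_of_eq hx)
  · intro x hx
    rcases gcut_zero h hx with ⟨h1, _, h2⟩ | ⟨_, v, hv, _⟩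
    · obtain ⟨v, hv⟩ := h.good.desc x h1
      exact ⟨v, hv.congr h2⟩
    · exact ⟨v, hv⟩

theorem gcut_bdd (h : GSlab g e u p B μ a r η ε) :
    Bornology.IsBounded {x | gcut g u p η r x ≤ 0} :=
  h.bdd.subset fun x hx => (le_max_left (g x) (lam u p η r x)).trans hx

end Pool.Schoen
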