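import Pool.Agent.H.MP_6c077c_gt.Wn.Main
import Pool.Agent.H.MP_6c077c_gt.PP.MainK

/-! The body is a ball if no point of index one is joined, between the two heights, to a higher point
of index at least two. -/

set_option autoImplicit false

namespace Pool.Schoen

open Filter Set
open scoped Topology RealInnerProductSpace ContDiff

variable {V : Type*} [NormedAddCommGroup V] [InnerProductSpace ℝ V] [FiniteDimensional ℝ V]

/-- The theorem for a closed neighbourhood `Z` of the body. -/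
theorem zball (n : ℕ) (hn3 : 3 ≤ n) (hn : Module.finrank ℝ V = n + 1) {F : V → ℝ}
    (hF : ContDiff ℝ ∞ F) (hb : Bornology.IsBounded {x | F x ≤ 0})
    (hreg : ∀ x, F x = 0 → gradient F x ≠ 0) (hs : PSides F) {e : V} (he : ‖e‖ = 1)
    (hnd : ∀ x, Inward F e x → ∃ k, Idx F e x k ∧ (k ≤ 1 ∨ n - 1 ≤ k)) {Z : Set V}
    (hZ0 : ∀ x, F x ≤ 0 → x ∈ Z) (hZ : ∀ x, F x = 0 → Z ∈ 𝓝 x) (hsep : ZSep F e Z) :
    IsBall F := by
  classical
  have hdim : 3 ≤ Module.finrank ℝ V := by omega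
  have hbz : Bornology.IsBounded {x | F x = 0} := hb.subset fun x hx => le_of_eq hx
  have hnd' : ∀ x, Inward F e x → ∃ k, Idx F e x k := fun x hx => by
    obtain ⟨k, hk, -⟩ := hnd x hx
    exact ⟨k, hk⟩
  have hfin : {x | Inward F e x}.Finite := inward_finite hF hbz hreg he hnd'
  have hgood : Good F := by
    refine good_of_regular hF hbz fun x hx h0 => ?_
    apply hreg x hx
    rw [gradient, h0, map_zero]
  have hcls : ZCls F e Z F := by
    refine ⟨hgood, hb, hZ0, fun x hx => ?_⟩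
    by_cases hI : Inward F e x
    · exact Or.inr ⟨hI, EventuallyEq.rfl⟩
    · exact Or.inl (free_of_not_inward F hF e he x hx (hreg x hx) hI)
  refine zind hdim hF he hnd' hfin hZ hsep ?_ hcls hs
  intro g hg hgs hg1
  have hDfin : {x | Inward F e x ∧ g =ᶠ[𝓝 x] F}.Finite := hfin.subset fun x hx => hx.1
  obtain ⟨G, hG, hgG, hGi⟩ := smooth_rel (e := e) hF hg.good hDfin.isClosed
    (fun x _ hx => hx.2) (fun x hx0 hxD => by
      rcases hg.zero x hx0 with h1 | h1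
      · exact h1
      · exact absurd h1 hxD)
  have hGs := hgs.hom hdim hgG
  have hGb : Bornology.IsBounded {x | G x ≤ 0} := hgG.bdd hg.bdd
  have hGreg : ∀ x, G x = 0 → gradient G x ≠ 0 := by
    intro x hx h0
    refine hgG.good_right.regular hG x hx ?_
    rwa [gradient, LinearIsometryEquiv.map_eq_zero_iff] at h0
  refine hgG.trans (ix_T3S n hn3 hn G hG hGb hGreg hGs.conn hGs.out hGs.olift e he ?_)
  intro x hx
  obtain ⟨h1, h2, h3, h4⟩ := hGi x hx
  have hI : Inward F e x := hx.congr' h2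
  obtain ⟨k, hk, hk'⟩ := hnd x hI
  refine ⟨k, hk.congr' h2.symm, ?_⟩
  have hk1 : k ≠ 1 := fun h5 => hg1 x hI h3 (h5 ▸ hk)
  omega

omit [FiniteDimensional ℝ V] in
/-- A separation persists in a neighbourhood of a compact set. -/
theorem nbhd_cover {F : V → ℝ} (hF : Continuous F) {B : Set V} (hB : IsCompact B) {O : Set V}
    (hO : IsOpen O) (h : ∀ x ∈ B, F x ≤ 0 → x ∈ O) :
    ∀ᶠ δ : ℝ in 𝓝[>] 0, ∀ x ∈ B, F x ≤ δ → x ∈ O := by
  rcases (B \ O).eq_empty_or_nonempty with hE | hne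
  · refine Eventually.of_forall fun δ x hx _ => ?_
    by_contra hcon
    have : x ∈ B \ O := ⟨hx, hcon⟩
    rw [hE] at this
    exact this
  · obtain ⟨m, hm, hmin⟩ := (hB.diff hO).exists_isMinOn hne hF.continuousOn
    have hm0 : 0 < F m := by
      by_contra hcon
      exact hm.2 (h m hm.1 (not_lt.1 hcon))
    filter_upwards [Ioo_mem_nhdsGT hm0] with δ hδ x hx hxδ
    by_contra hcon
    have h1 : F m ≤ F x := hmin ⟨hx, hcon⟩
    linarith [hδ.2]

/-- **Nondegenerate direction.** If no point of index one is joined, between the two heights, to a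
higher point of index at least two, then the body is a ball. -/
theorem zball' (n : ℕ) (hn3 : 3 ≤ n) (hn : Module.finrank ℝ V = n + 1) {F : V → ℝ}
    (hF : ContDiff ℝ ∞ F) (hb : Bornology.IsBounded {x | F x ≤ 0})
    (hreg : ∀ x, F x = 0 → gradient F x ≠ 0) (hs : PSides F) {e : V} (he : ‖e‖ = 1)
    (hnd : ∀ x, Inward F e x → ∃ k, Idx F e x k ∧ (k ≤ 1 ∨ n - 1 ≤ k))
    (hbad : ∀ x y, Inward F e x → Inward F e y → Idx F e x 1 → (∃ k, 2 ≤ k ∧ Idx F e y k) →
      ⟪e, x⟫ ≤ ⟪e, y⟫ → ∀ C : Set V, IsPreconnected C →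
        C ⊆ {z | F z ≤ 0 ∧ ⟪e, x⟫ ≤ ⟪e, z⟫ ∧ ⟪e, z⟫ ≤ ⟪e, y⟫} → x ∈ C → y ∉ C) :
    IsBall F := by
  classical
  have hprop : ProperSpace V := FiniteDimensional.proper ℝ V
  have hbz : Bornology.IsBounded {x | F x = 0} := hb.subset fun x hx => le_of_eq hx
  have hnd' : ∀ x, Inward F e x → ∃ k, Idx F e x k := fun x hx => by
    obtain ⟨k, hk, -⟩ := hnd x hx
    exact ⟨k, hk⟩
  have hfin : {x | Inward F e x}.Finite := inward_finite hF hbz hreg he hnd'
  obtain ⟨R₀, hR₀⟩ := hb.exists_norm_le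
  obtain ⟨R, hR⟩ : ∃ R : ℝ, R = |R₀| + 1 := ⟨_, rfl⟩
  have hRlt : ∀ x, F x ≤ 0 → ‖x‖ < R := by
    intro x hx
    have h1 := hR₀ x hx
    have h2 := le_abs_self R₀
    linarith
  have hBc : IsCompact (Metric.closedBall (0 : V) R) := isCompact_closedBall _ _
  have hcont : Continuous fun z : V => (⟪e, z⟫ : ℝ) := by fun_prop
  -- for every bad pair a size of the neighbourhood
  have hpair : ∀ x y, Inward F e x → Inward F e y → Idx F e x 1 → (∃ k, 2 ≤ k ∧ Idx F e y k) →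
      ⟪e, x⟫ ≤ ⟪e, y⟫ → ∀ᶠ δ : ℝ in 𝓝[>] 0, y ∉ connectedComponentIn
        (({z | F z ≤ δ} ∩ Metric.closedBall (0 : V) R) ∩
          {z | ⟪e, x⟫ ≤ ⟪e, z⟫ ∧ ⟪e, z⟫ ≤ ⟪e, y⟫}) x := by
    intro x y hx hy hx1 hy2 hxy
    have hSc : IsCompact (Metric.closedBall (0 : V) R ∩ {z | ⟪e, x⟫ ≤ ⟪e, z⟫ ∧ ⟪e, z⟫ ≤ ⟪e, y⟫}) :=
      hBc.inter_right ((isClosed_le continuous_const hcont).inter
        (isClosed_le hcont continuous_const))
    have hK : IsCompact {z | F z ≤ 0 ∧ ⟪e, x⟫ ≤ ⟪e, z⟫ ∧ ⟪e, z⟫ ≤ ⟪e, y⟫} := by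
      have hA : IsCompact {z | F z ≤ 0} :=
        Metric.isCompact_of_isClosed_isBounded (isClosed_le hF.continuous continuous_const) hb
      exact hA.inter_right ((isClosed_le continuous_const hcont).inter
        (isClosed_le hcont continuous_const))
    obtain ⟨U, U', hU, hU', hd, hcov, hxU, hyU⟩ := exists_sep_of_comp hK
      (x := x) (y := y) ⟨hx.1.le, le_rfl, hxy⟩ ⟨hy.1.le, hxy, le_rfl⟩
      (hbad x y hx hy hx1 hy2 hxy)
    filter_upwards [nbhd_cover hF.continuous hSc (hU.union hU')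
      (fun z hz hz0 => hcov ⟨hz0, hz.2⟩)] with δ hδ hyC
    by_cases hxm : x ∈ ({z | F z ≤ δ} ∩ Metric.closedBall (0 : V) R) ∩
        {z | ⟪e, x⟫ ≤ ⟪e, z⟫ ∧ ⟪e, z⟫ ≤ ⟪e, y⟫}
    · obtain ⟨z, -, hzU, hzU'⟩ := isPreconnected_connectedComponentIn U U' hU hU'
        (fun z hz => by
          have h1 := connectedComponentIn_subset _ _ hz
          exact hδ z ⟨h1.1.2, h1.2⟩ h1.1.1)
        ⟨x, mem_connectedComponentIn hxm, hxU⟩ ⟨y, hyC, hyU⟩
      exact Set.disjoint_left.1 hd hzU hzU'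
    · rw [connectedComponentIn_eq_empty hxm] at hyC
      exact hyC
  -- a common size
  have hall : ∀ᶠ δ : ℝ in 𝓝[>] 0, ∀ q ∈ hfin.toFinset ×ˢ hfin.toFinset,
      Idx F e q.1 1 → (∃ k, 2 ≤ k ∧ Idx F e q.2 k) → ⟪e, q.1⟫ ≤ ⟪e, q.2⟫ →
        q.2 ∉ connectedComponentIn (({z | F z ≤ δ} ∩ Metric.closedBall (0 : V) R) ∩
          {z | ⟪e, q.1⟫ ≤ ⟪e, z⟫ ∧ ⟪e, z⟫ ≤ ⟪e, q.2⟫}) q.1 := by
    rw [Filter.eventually_all_finset]
    intro q hq
    rw [Finset.mem_product, Set.Finite.mem_toFinset, Set.Finite.mem_toFinset] at hq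
    by_cases h1 : Idx F e q.1 1
    · by_cases h2 : ∃ k, 2 ≤ k ∧ Idx F e q.2 k
      · by_cases h3 : ⟪e, q.1⟫ ≤ ⟪e, q.2⟫
        · filter_upwards [hpair q.1 q.2 hq.1 hq.2 h1 h2 h3] with δ hδ _ _ _
          exact hδ
        · exact Eventually.of_forall fun δ _ _ h => absurd h h3
      · exact Eventually.of_forall fun δ _ h => absurd h h2
    · exact Eventually.of_forall fun δ h => absurd h h1
  obtain ⟨δ, hδ, hδ0⟩ := (hall.and self_mem_nhdsWithin).exists
  have hδ0' : (0 : ℝ) < δ := hδ0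
  refine zball n hn3 hn hF hb hreg hs he hnd (Z := {z | F z ≤ δ} ∩ Metric.closedBall (0 : V) R)
    (fun x hx => ⟨hx.trans hδ0'.le, ?_⟩) (fun x hx => Filter.inter_mem ?_ ?_)
    fun x y hx hx1 hy hy2 hxy => ?_
  · rw [mem_closedBall_zero_iff]
    exact (hRlt x hx).le
  · filter_upwards [(isOpen_lt hF.continuous continuous_const).mem_nhds
      (show F x < δ by rw [hx]; exact hδ0')] with y hy
    exact le_of_lt hy
  · filter_upwards [Metric.isOpen_ball.mem_nhds (show x ∈ Metric.ball (0 : V) R by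
      rw [mem_ball_zero_iff]
      exact hRlt x hx.le)] with y hy
    exact Metric.ball_subset_closedBall hy
  · exact hδ (x, y) (Finset.mem_product.2 ⟨hfin.mem_toFinset.2 hx, hfin.mem_toFinset.2 hy⟩)
      hx1 hy2 hxy

end Pool.Schoen
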