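import Pool.Agent.H.MP_6c077c_gt.Wn.Up

/-! Separations of compact sets. -/

set_option autoImplicit false

namespace Pool.Schoen

open Filter Set
open scoped Topology

variable {X : Type*} [TopologicalSpace X] [T2Space X]

/-- A separation of `Y` into two closed parts. -/
structure Spl (Y A B : Set X) : Prop where
  clA : IsClosed A
  clB : IsClosed B
  dis : Disjoint A B
  cov : A ∪ B = Y

theorem sep_of_comp {K : Set X} (hK : IsCompact K) {p q : X} (hp : p ∈ K) (hq : q ∈ K)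
    (h : q ∉ connectedComponentIn K p) : ∃ A B : Set X, Spl K A B ∧ p ∈ A ∧ q ∈ B := by
  have : CompactSpace K := isCompact_iff_compactSpace.1 hK
  have hcl : Topology.IsClosedEmbedding (Subtype.val : K → X) := hK.isClosed.isClosedEmbedding_subtypeVal
  rw [connectedComponentIn_eq_image hp] at h
  have h1 : (⟨q, hq⟩ : K) ∉ connectedComponent (⟨p, hp⟩ : K) := fun h2 => h ⟨_, h2, rfl⟩
  rw [connectedComponent_eq_iInter_isClopen] at h1
  simp only [mem_iInter, not_forall] at h1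
  obtain ⟨⟨Z, hZ, hpZ⟩, hqZ⟩ := h1
  refine ⟨Subtype.val '' Z, Subtype.val '' Zᶜ, ⟨hcl.isClosedMap _ hZ.isClosed,
    hcl.isClosedMap _ hZ.compl.isClosed, ?_, ?_⟩, ⟨_, hpZ, rfl⟩, ⟨_, hqZ, rfl⟩⟩
  · exact (disjoint_compl_right).image Subtype.val_injective.injOn (subset_univ _) (subset_univ _)
  · rw [← image_union, union_compl_self, image_univ, Subtype.range_coe]

omit [T2Space X] in
theorem spl_finset {Y : Set X} (hY : IsClosed Y) {p : X} (hpY : p ∈ Y) (Q : Finset X)
    (h : ∀ q ∈ Q, ∃ A B : Set X, Spl Y A B ∧ p ∈ A ∧ q ∈ B) :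
    ∃ A B : Set X, Spl Y A B ∧ p ∈ A ∧ ∀ q ∈ Q, q ∈ B := by
  classical
  induction Q using Finset.induction_on with
  | empty =>
    exact ⟨Y, ∅, ⟨hY, isClosed_empty, disjoint_empty _, union_empty _⟩, hpY, by simp⟩
  | insert a Q _ ih =>
    obtain ⟨A, B, hS, hp, hQ⟩ := ih fun q hq => h q (Finset.mem_insert_of_mem hq)
    obtain ⟨A', B', hS', hp', ha⟩ := h a (Finset.mem_insert_self _ _)
    refine ⟨A ∩ A', B ∪ B', ⟨hS.clA.inter hS'.clA, hS.clB.union hS'.clB, ?_, ?_⟩, ⟨hp, hp'⟩, ?_⟩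
    · rw [Set.disjoint_left]
      rintro x ⟨h1, h2⟩ (h3 | h3)
      · exact Set.disjoint_left.1 hS.dis h1 h3
      · exact Set.disjoint_left.1 hS'.dis h2 h3
    · ext x
      constructor
      · rintro (⟨h1, -⟩ | h1 | h1)
        · exact hS.cov ▸ Or.inl h1
        · exact hS.cov ▸ Or.inr h1
        · exact hS'.cov ▸ Or.inr h1
      · intro h1
        have h2 : x ∈ A ∪ B := hS.cov ▸ h1
        have h3 : x ∈ A' ∪ B' := hS'.cov ▸ h1
        rcases h2 with h2 | h2
        · rcases h3 with h3 | h3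
          · exact Or.inl ⟨h2, h3⟩
          · exact Or.inr (Or.inr h3)
        · exact Or.inr (Or.inl h2)
    · intro q hq
      rcases Finset.mem_insert.1 hq with h1 | h1
      · rw [h1]
        exact Or.inr ha
      · exact Or.inl (hQ q h1)

/-- Extension of a separation slightly downwards. -/
theorem spl_down {K : Set X} (hK : IsCompact K) {h : X → ℝ} (hc : Continuous h) {s c₀ : ℝ}
    (hcs : c₀ < s) {A B : Set X} (hS : Spl (K ∩ {x | s ≤ h x}) A B) :
    ∃ c : ℝ, c₀ < c ∧ c < s ∧ ∃ A' B' : Set X, Spl (K ∩ {x | c ≤ h x}) A' B' ∧ A ⊆ A' ∧ B ⊆ B' := by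
  have hAK : A ⊆ K ∩ {x | s ≤ h x} := hS.cov ▸ subset_union_left
  have hBK : B ⊆ K ∩ {x | s ≤ h x} := hS.cov ▸ subset_union_right
  have hAc : IsCompact A := hK.of_isClosed_subset hS.clA fun x hx => (hAK hx).1
  have hBc : IsCompact B := hK.of_isClosed_subset hS.clB fun x hx => (hBK hx).1
  obtain ⟨U, W, hU, hW, hAU, hBW, hUW⟩ := SeparatedNhds.of_isCompact_isCompact hAc hBc hS.dis
  have hRc : IsCompact (K \ (U ∪ W)) := hK.diff (hU.union hW)
  obtain ⟨c, hc0, hcs', hcov⟩ : ∃ c : ℝ, c₀ < c ∧ c < s ∧ ∀ x ∈ K, c ≤ h x → x ∈ U ∪ W := by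
    rcases (K \ (U ∪ W)).eq_empty_or_nonempty with hE | hne
    · refine ⟨(c₀ + s) / 2, by linarith, by linarith, fun x hx _ => ?_⟩
      by_contra hcon
      have : x ∈ K \ (U ∪ W) := ⟨hx, hcon⟩
      rw [hE] at this
      exact this
    · obtain ⟨r, hr, hmax⟩ := hRc.exists_isMaxOn hne hc.continuousOn
      have hrs : h r < s := by
        by_contra hcon
        push Not at hcon
        have h1 : r ∈ A ∪ B := hS.cov ▸ ⟨hr.1, hcon⟩
        rcases h1 with h1 | h1
        · exact hr.2 (Or.inl (hAU h1))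
        · exact hr.2 (Or.inr (hBW h1))
      refine ⟨(max c₀ (h r) + s) / 2, ?_, ?_, fun x hx hxc => ?_⟩
      · have := le_max_left c₀ (h r)
        linarith
      · have := max_lt hcs hrs
        linarith
      · by_contra hcon
        have h1 : h x ≤ h r := hmax ⟨hx, hcon⟩
        have h2 := le_max_right c₀ (h r)
        linarith [max_lt hcs hrs]
  have hcl : IsClosed (K ∩ {x | c ≤ h x}) := hK.isClosed.inter (isClosed_le continuous_const hc)
  refine ⟨c, hc0, hcs', (K ∩ {x | c ≤ h x}) \ W, (K ∩ {x | c ≤ h x}) \ U,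
    ⟨hcl.sdiff hW, hcl.sdiff hU, ?_, ?_⟩, ?_, ?_⟩
  · rw [Set.disjoint_left]
    rintro x ⟨h1, h2⟩ ⟨-, h3⟩
    rcases hcov x h1.1 h1.2 with h4 | h4
    · exact h3 h4
    · exact h2 h4
  · ext x
    constructor
    · rintro (h1 | h1)
      · exact h1.1
      · exact h1.1
    · intro h1
      rcases hcov x h1.1 h1.2 with h4 | h4
      · exact Or.inl ⟨h1, fun h5 => Set.disjoint_left.1 hUW h4 h5⟩
      · exact Or.inr ⟨h1, fun h5 => Set.disjoint_left.1 hUW h5 h4⟩
  · intro x hx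
    have h1 := hAK hx
    exact ⟨⟨h1.1, hcs'.le.trans h1.2⟩, fun h5 => Set.disjoint_left.1 hUW (hAU hx) h5⟩
  · intro x hx
    have h1 := hBK hx
    exact ⟨⟨h1.1, hcs'.le.trans h1.2⟩, fun h5 => Set.disjoint_left.1 hUW h5 (hBW hx)⟩

end Pool.Schoen
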