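import Pool.Agent.H.MP_6c077c_gt.Wn.LocalB
import Pool.Agent.H.MP_6c077c_gt.Wn.Sep
import Pool.Agent.H.MP_6c077c_gt.PP.Open

/-! The class relative to `F` and the window at the highest point of index one. -/

set_option autoImplicit false

namespace Pool.Schoen

open Filter Set
open scoped Topology RealInnerProductSpace ContDiff

variable {V : Type*} [NormedAddCommGroup V] [InnerProductSpace ℝ V] [FiniteDimensional ℝ V]

/-- The class relative to `F`: the body is in `Z`, and every zero is free or an inward point of `F`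
where `f` has the germ of `F`. -/
structure ZCls (F : V → ℝ) (e : V) (Z : Set V) (f : V → ℝ) : Prop where
  good : Good f
  bdd : Bornology.IsBounded {x | f x ≤ 0}
  sub : ∀ x, f x ≤ 0 → x ∈ Z
  zero : ∀ x, f x = 0 → FreeAt f e x ∨ (Inward F e x ∧ f =ᶠ[𝓝 x] F)

theorem inward_fderiv {F : V → ℝ} {e x : V} (h : Inward F e x) :
    ∃ μ : ℝ, 0 < μ ∧ ∀ v, fderiv ℝ F x v = -(μ * ⟪e, v⟫) := by
  obtain ⟨-, l, hl, hg⟩ := h
  exact ⟨l, hl, fun v => by rw [cgLocal_grad hg, real_inner_comm]⟩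

/-- An inward point where `f` has the germ of `F` is not free. -/
theorem not_free_of_inward {F f : V → ℝ} (hF : ContDiff ℝ ∞ F) {e x : V} (h : Inward F e x)
    (hf : f =ᶠ[𝓝 x] F) : ¬ FreeAt f e x := by
  rintro ⟨v, hv, hev⟩
  obtain ⟨μ, hμ, hg⟩ := inward_fderiv h
  have h1 : fderiv ℝ F x v < 0 :=
    fderiv_neg_of_desc1 (hF.differentiable (by simp) x) (hv.congr hf)
  rw [hg] at h1
  have := mul_neg_of_pos_of_neg hμ hev
  linarith

theorem inward_crit {F : V → ℝ} {e x : V} (h : Inward F e x) : Crit F e x := by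
  obtain ⟨μ, -, hg⟩ := inward_fderiv h
  refine ⟨h.1, fun v hv => ?_⟩
  rw [hg, real_inner_comm, hv, mul_zero, neg_zero]

theorem twoNeg_of_idx {F : V → ℝ} {e x : V} (h : Inward F e x) {k : ℕ} (hk : 2 ≤ k)
    (hi : Idx F e x k) : TwoNeg F x := (m2_of_idx (inward_crit h) hk hi).2

/-- The local property at the points other than the inward points of index one. -/
theorem ZCls.locUp {F f : V → ℝ} {e : V} {Z : Set V} (hF : ContDiff ℝ ∞ F) (he : ‖e‖ = 1)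
    (hnd : ∀ x, Inward F e x → ∃ k, Idx F e x k) (h : ZCls F e Z f) {r : V} (hr : f r ≤ 0)
    (h1 : Inward F e r → f =ᶠ[𝓝 r] F → ¬ Idx F e r 1) :
    LocUp {x | f x ≤ 0} (fun x => ⟪e, x⟫) r := by
  rcases hr.lt_or_eq with hr | hr
  · exact locUp_int h.good.cont he hr
  rcases h.zero r hr with h2 | ⟨h2, h3⟩
  · exact locUp_free h.good.cont he hr h2
  obtain ⟨μ, hμ, hg⟩ := inward_fderiv h2
  have hsm : ContDiffAt ℝ 2 f r :=
    ((contDiff_infty.1 hF 2).contDiffAt).congr_of_eventuallyEq h3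
  have hg' : ∀ v, fderiv ℝ f r v = -(μ * ⟪e, v⟫) := by
    intro v
    rw [h3.fderiv_eq]
    exact hg v
  have h2d : fderiv ℝ (fderiv ℝ f) r = fderiv ℝ (fderiv ℝ F) r := h3.fderiv.fderiv_eq
  obtain ⟨k, hk⟩ := hnd r h2
  rcases Nat.lt_or_ge k 2 with hk2 | hk2
  · interval_cases k
    · left
      obtain ⟨N, P, hS, hN⟩ := hk
      refine locUp_birth he hsm hr hμ hg' fun w hw hw0 => ?_
      obtain ⟨a, ha, b, hb, hab⟩ := hS.span w (by rw [real_inner_comm]; exact hw)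
      have hN0 : N = ⊥ := Submodule.finrank_eq_zero.1 hN
      rw [hN0, Submodule.mem_bot] at ha
      rw [ha, zero_add] at hab
      rw [h2d, hab]
      exact hS.pos b hb (by rwa [← hab])
    · exact absurd hk (h1 h2 h3)
  · have htn : TwoNeg f r := by
      obtain ⟨U, hU, hU'⟩ := twoNeg_of_idx h2 hk2 hk
      refine ⟨U, hU, fun u hu hu0 => ?_⟩
      rw [h2d, h3.fderiv_eq]
      exact hU' u hu hu0
    exact locUp_plane h.good.cont he hsm hr hμ hg' htn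

/-- No point of index one is joined, between its height and the height of the other point, to a
higher point of index at least two. -/
def ZSep (F : V → ℝ) (e : V) (Z : Set V) : Prop :=
  ∀ x y, Inward F e x → Idx F e x 1 → Inward F e y → (∃ k, 2 ≤ k ∧ Idx F e y k) →
    ⟪e, x⟫ ≤ ⟪e, y⟫ →
      y ∉ connectedComponentIn (Z ∩ {z | ⟪e, x⟫ ≤ ⟪e, z⟫ ∧ ⟪e, z⟫ ≤ ⟪e, y⟫}) x

/-- **The window** at the highest inward point of index one. -/
theorem ZCls.window {F f : V → ℝ} {e : V} {Z : Set V} (hF : ContDiff ℝ ∞ F) (he : ‖e‖ = 1)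
    (hnd : ∀ x, Inward F e x → ∃ k, Idx F e x k) (hfin : {x | Inward F e x}.Finite)
    (hsep : ZSep F e Z) (h : ZCls F e Z f) {p : V} (hp : Inward F e p)
    (hpf : f =ᶠ[𝓝 p] F) (hp1 : Idx F e p 1)
    (htop : ∀ x, Inward F e x → f =ᶠ[𝓝 x] F → Idx F e x 1 → ⟪e, x⟫ ≤ ⟪e, p⟫) :
    ∃ c : ℝ, c < ⟪e, p⟫ ∧ ∃ E₁ E₂ : Set V, Spl ({x | f x ≤ 0} ∩ {x | c ≤ ⟪e, x⟫}) E₁ E₂ ∧
      p ∈ E₁ ∧ ∀ x ∈ E₁, f x = 0 → FreeAt f e x ∨
        (Inward F e x ∧ f =ᶠ[𝓝 x] F ∧ Idx F e x 1 ∧ ⟪e, x⟫ = ⟪e, p⟫) := by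
  classical
  have hprop : ProperSpace V := FiniteDimensional.proper ℝ V
  have hc : Continuous fun x : V => (⟪e, x⟫ : ℝ) := by fun_prop
  have hK : IsCompact {x | f x ≤ 0} := Metric.isCompact_of_isClosed_isBounded
    (isClosed_le h.good.cont continuous_const) h.bdd
  have hp0 : f p = 0 := by rw [hpf.self_of_nhds]; exact hp.1
  have hpK : p ∈ {x | f x ≤ 0} := hp0.le
  have hKs : IsClosed ({x | f x ≤ 0} ∩ {x | ⟪e, p⟫ ≤ ⟪e, x⟫}) :=
    hK.isClosed.inter (isClosed_le continuous_const hc)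
  -- the points of other index
  obtain ⟨Q, hQ⟩ : ∃ Q : Finset V, ∀ q, q ∈ Q ↔ (Inward F e q ∧ f =ᶠ[𝓝 q] F ∧
      ⟪e, p⟫ ≤ ⟪e, q⟫ ∧ ¬ Idx F e q 1) := by
    refine ⟨hfin.toFinset.filter fun q => f =ᶠ[𝓝 q] F ∧ ⟪e, p⟫ ≤ ⟪e, q⟫ ∧ ¬ Idx F e q 1,
      fun q => ?_⟩
    rw [Finset.mem_filter, Set.Finite.mem_toFinset]
    exact Iff.rfl
  obtain ⟨A, B, hS, hpA, hQB⟩ := spl_finset hKs ⟨hpK, (le_refl _ : ⟪e, p⟫ ≤ ⟪e, p⟫)⟩ Q (by
    intro q hq
    obtain ⟨hqI, hqf, hqh, hq1⟩ := (hQ q).1 hq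
    have hq0 : f q = 0 := by rw [hqf.self_of_nhds]; exact hqI.1
    have hloc : ∀ r ∈ {x | f x ≤ 0}, ⟪e, q⟫ < ⟪e, r⟫ →
        LocUp {x | f x ≤ 0} (fun x => ⟪e, x⟫) r := by
      intro r hr hqr
      refine h.locUp hF he hnd hr fun h2 h3 h4 => ?_
      have := htop r h2 h3 h4
      linarith
    obtain ⟨A₀, B₀, hS₀, hpA₀, hqB₀⟩ : ∃ A₀ B₀ : Set V,
        Sep {x | f x ≤ 0} (fun x => ⟪e, x⟫) ⟪e, p⟫ ⟪e, q⟫ A₀ B₀ ∧ p ∈ A₀ ∧ q ∈ B₀ := by
      obtain ⟨k, hk⟩ := hnd q hqI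
      have hkc : IsClosed (kbt {x | f x ≤ 0} (fun x => ⟪e, x⟫) ⟪e, p⟫ ⟪e, q⟫) :=
        kbt_closed hK.isClosed hc _ _
      have hpk : p ∈ kbt {x | f x ≤ 0} (fun x => ⟪e, x⟫) ⟪e, p⟫ ⟪e, q⟫ := ⟨hpK, le_rfl, hqh⟩
      have hqk : q ∈ kbt {x | f x ≤ 0} (fun x => ⟪e, x⟫) ⟪e, p⟫ ⟪e, q⟫ := ⟨hq0.le, hqh, le_rfl⟩
      rcases Nat.lt_or_ge k 2 with hk2 | hk2
      · have hk0 : k = 0 := by
          interval_cases k
          · rfl
          · exact absurd hk hq1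
        subst hk0
        have hqp : q ≠ p := fun h0 => hq1 (h0 ▸ hp1)
        obtain ⟨N', P', hSp, hN'⟩ := hk
        obtain ⟨μ, hμ, hg⟩ := inward_fderiv hqI
        obtain ⟨N, hN, hNs⟩ := locUp_birth (f := F) he
          ((contDiff_infty.1 hF 2).contDiffAt) hqI.1 hμ hg fun w hw hw0 => by
          obtain ⟨a, ha, b, hb, hab⟩ := hSp.span w (by rw [real_inner_comm]; exact hw)
          have hN0 : N' = ⊥ := Submodule.finrank_eq_zero.1 hN'
          rw [hN0, Submodule.mem_bot] at ha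
          rw [ha, zero_add] at hab
          rw [hab]
          exact hSp.pos b hb (by rwa [← hab])
        obtain ⟨O, hOs, hOo, hqO⟩ := mem_nhds_iff.1 (Filter.inter_mem hN hqf)
        have hO1 : ∀ x ∈ O, x ∈ kbt {x | f x ≤ 0} (fun x => ⟪e, x⟫) ⟪e, p⟫ ⟪e, q⟫ → x = q := by
          intro x hx hxk
          have h2 := hOs hx
          have h3 : f x = F x := h2.2
          have h4 : x ∈ ({q} : Set V) := hNs ⟨h2.1, by
            show F x ≤ 0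
            rw [← h3]
            exact hxk.1, hxk.2.2⟩
          exact h4
        refine ⟨kbt {x | f x ≤ 0} (fun x => ⟪e, x⟫) ⟪e, p⟫ ⟪e, q⟫ \ O, {q},
          ⟨hkc.sdiff hOo, isClosed_singleton, ?_, ?_⟩, ⟨hpk, fun h2 => hqp (hO1 p h2 hpk).symm⟩,
          rfl⟩
        · rw [Set.disjoint_singleton_right]
          exact fun h2 => h2.2 hqO
        · ext x
          constructor
          · rintro (h2 | h2)
            · exact h2.1
            · rw [mem_singleton_iff] at h2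
              rw [h2]
              exact hqk
          · intro h2
            by_cases h3 : x ∈ O
            · exact Or.inr (hO1 x h3 h2)
            · exact Or.inl ⟨h2, h3⟩
      · have h2 := hsep p q hp hp1 hqI ⟨k, hk2, hk⟩ hqh
        have hsub : kbt {x | f x ≤ 0} (fun x => ⟪e, x⟫) ⟪e, p⟫ ⟪e, q⟫ ⊆
            Z ∩ {z | ⟪e, p⟫ ≤ ⟪e, z⟫ ∧ ⟪e, z⟫ ≤ ⟪e, q⟫} := fun x hx => ⟨h.sub x hx.1, hx.2⟩
        have hcomp : q ∉ connectedComponentIn
            (kbt {x | f x ≤ 0} (fun x => ⟪e, x⟫) ⟪e, p⟫ ⟪e, q⟫) p :=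
          fun h3 => h2 (connectedComponentIn_mono p hsub h3)
        obtain ⟨A₀, B₀, hS₀, ha, hb⟩ := sep_of_comp
          (hK.of_isClosed_subset hkc inter_subset_left) hpk hqk hcomp
        exact ⟨A₀, B₀, ⟨hS₀.clA, hS₀.clB, hS₀.dis, hS₀.cov⟩, ha, hb⟩
    obtain ⟨A', B', hA', hB', hd', hcov', hAA, hBB⟩ := sep_up hK hc hqh hloc hS₀
    exact ⟨A', B', ⟨hA', hB', hd', hcov'⟩, hAA hpA₀, hBB hqB₀⟩)
  -- the lower points
  obtain ⟨c₀, hc₀, hlow⟩ : ∃ c₀ : ℝ, c₀ < ⟪e, p⟫ ∧ ∀ q, Inward F e q → ⟪e, q⟫ < ⟪e, p⟫ →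
      ⟪e, q⟫ ≤ c₀ := by
    obtain ⟨T, hT⟩ : ∃ T : Finset V, ∀ q, q ∈ T ↔ (Inward F e q ∧ ⟪e, q⟫ < ⟪e, p⟫) := by
      refine ⟨hfin.toFinset.filter fun q => ⟪e, q⟫ < ⟪e, p⟫, fun q => ?_⟩
      rw [Finset.mem_filter, Set.Finite.mem_toFinset]
      exact Iff.rfl
    rcases T.eq_empty_or_nonempty with hE | hne
    · refine ⟨⟪e, p⟫ - 1, by linarith, fun q hq hqp => ?_⟩
      have h1 := (hT q).2 ⟨hq, hqp⟩
      rw [hE] at h1
      exact absurd h1 (Finset.notMem_empty _)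
    · obtain ⟨m, hm, hmax⟩ := Finset.exists_max_image T (fun x => ⟪e, x⟫) hne
      exact ⟨⟪e, m⟫, ((hT m).1 hm).2, fun q hq hqp => hmax q ((hT q).2 ⟨hq, hqp⟩)⟩
  obtain ⟨c, hc1, hc2, E₁, E₂, hE, hAE, hBE⟩ := spl_down hK hc hc₀ hS
  refine ⟨c, hc2, E₁, E₂, hE, hAE hpA, fun x hx hx0 => ?_⟩
  rcases h.zero x hx0 with h1 | ⟨h1, h2⟩
  · exact Or.inl h1
  · right
    have hxc : c ≤ ⟪e, x⟫ := by
      have h3 : x ∈ {x | f x ≤ 0} ∩ {x | c ≤ ⟪e, x⟫} := hE.cov ▸ Or.inl hx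
      exact h3.2
    have hxp : ⟪e, p⟫ ≤ ⟪e, x⟫ := by
      by_contra hcon
      push Not at hcon
      have := hlow x h1 hcon
      linarith
    by_cases h3 : Idx F e x 1
    · exact ⟨h1, h2, h3, le_antisymm (htop x h1 h2 h3) hxp⟩
    · exfalso
      have h4 : x ∈ B := hQB x ((hQ x).2 ⟨h1, h2, hxp, h3⟩)
      exact Set.disjoint_left.1 hE.dis hx (hBE h4)

end Pool.Schoen
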