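import Pool.Agent.H.MP_6c077c_gt.Wn.Ball

/-! Parallel pairs connected between the two tangent hyperplanes: definition and nearby directions. -/

set_option autoImplicit false

namespace Pool.Schoen

open Filter Set Metric
open scoped Topology RealInnerProductSpace ContDiff

variable {V : Type*} [NormedAddCommGroup V] [InnerProductSpace ℝ V] [FiniteDimensional ℝ V]

/-- There is no reversed parallel pair in the direction `e` which is connected inside the body between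
its two tangent hyperplanes: a limit point `x` of the set of points with exactly one negative (and
two positive) principal curvatures and a limit point `y` of the set of points with at least two
negative principal curvatures, both with outer normal `e` and `y` not higher than `x` in the
direction `e`, are never in one connected subset of the part of the body which is neither below `y`
nor above `x`. -/
def NoParW (F : V → ℝ) (e : V) : Prop :=
  ∀ x ∈ closure (M21 fun z => -F z), ∀ y ∈ closure (M2 F), nrm F x = e → nrm F y = e →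
    ⟪e, y⟫ ≤ ⟪e, x⟫ → ∀ C : Set V, IsPreconnected C →
      C ⊆ {z | F z ≤ 0 ∧ ⟪e, y⟫ ≤ ⟪e, z⟫ ∧ ⟪e, z⟫ ≤ ⟪e, x⟫} → x ∈ C → y ∉ C

theorem NoParK.noParW {F : V → ℝ} {e : V} (h : NoParK F e) : NoParW F e :=
  fun x hx y hy h1 h2 h3 C hC hCs => h x hx y hy h1 h2 h3 C hC fun _ hz =>
    ⟨(hCs hz).1, (hCs hz).2.1⟩

omit [FiniteDimensional ℝ V] in
/-- The part of a compact set between two levels is, for nearby directions and levels, covered by a
given open cover. -/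
theorem slab_cover {A : Set V} (hA : IsCompact A) {e : V} {t t' : ℝ} {O : Set V} (hO : IsOpen O)
    (hAO : ∀ z ∈ A, t ≤ ⟪e, z⟫ → ⟪e, z⟫ ≤ t' → z ∈ O) {ν : ℕ → V} {τ τ' : ℕ → ℝ}
    (hν : Tendsto ν atTop (𝓝 e)) (hτ : Tendsto τ atTop (𝓝 t)) (hτ' : Tendsto τ' atTop (𝓝 t')) :
    ∀ᶠ m in atTop, ∀ z ∈ A, τ m ≤ ⟪ν m, z⟫ → ⟪ν m, z⟫ ≤ τ' m → z ∈ O := by
  by_contra hcon
  rw [Filter.not_eventually] at hcon
  have hcon' : ∃ᶠ m in atTop, ∃ z ∈ A, τ m ≤ ⟪ν m, z⟫ ∧ ⟪ν m, z⟫ ≤ τ' m ∧ z ∉ O := by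
    refine hcon.mono fun m hm => ?_
    push Not at hm
    exact hm
  obtain ⟨φ, hφ, hφz⟩ := Filter.extraction_of_frequently_atTop hcon'
  choose z hzA h1 h2 hzO using hφz
  obtain ⟨a, ha, ψ, hψ, hlim⟩ := hA.tendsto_subseq hzA
  have hνψ : Tendsto (fun m => ν (φ (ψ m))) atTop (𝓝 e) :=
    hν.comp (hφ.tendsto_atTop.comp hψ.tendsto_atTop)
  have hτψ : Tendsto (fun m => τ (φ (ψ m))) atTop (𝓝 t) :=
    hτ.comp (hφ.tendsto_atTop.comp hψ.tendsto_atTop)
  have hτψ' : Tendsto (fun m => τ' (φ (ψ m))) atTop (𝓝 t') :=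
    hτ'.comp (hφ.tendsto_atTop.comp hψ.tendsto_atTop)
  have hin : Tendsto (fun m => ⟪ν (φ (ψ m)), z (ψ m)⟫) atTop (𝓝 ⟪e, a⟫) := hνψ.inner hlim
  have h3 : t ≤ ⟪e, a⟫ := le_of_tendsto_of_tendsto' hτψ hin fun m => h1 (ψ m)
  have h4 : ⟪e, a⟫ ≤ t' := le_of_tendsto_of_tendsto' hin hτψ' fun m => h2 (ψ m)
  have h5 : a ∈ O := hAO a ha h3 h4
  obtain ⟨m, hm⟩ := (hlim.eventually (hO.mem_nhds h5)).exists
  exact hzO (ψ m) hm

/-- The condition `NoParW` holds for all pairs with a common normal near `e`. -/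
theorem noParW_near (F : V → ℝ) (hF : ContDiff ℝ ∞ F) (hb : Bornology.IsBounded {x | F x ≤ 0})
    (hreg : ∀ x, F x = 0 → gradient F x ≠ 0) {e : V} (h : NoParW F e) :
    ∃ η : ℝ, 0 < η ∧ ∀ e' : V, ‖e' - e‖ < η → ∀ x ∈ M21 (fun z => -F z), ∀ y ∈ M2 F,
      nrm F x = e' → nrm F y = e' → ⟪e', y⟫ ≤ ⟪e', x⟫ → ∀ C : Set V, IsPreconnected C →
      C ⊆ {z | F z ≤ 0 ∧ ⟪e', y⟫ ≤ ⟪e', z⟫ ∧ ⟪e', z⟫ ≤ ⟪e', x⟫} → x ∈ C → y ∉ C := by
  have : ProperSpace V := FiniteDimensional.proper ℝ V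
  by_contra hcon
  push Not at hcon
  have hcon' : ∀ m : ℕ, ∃ e' : V, ‖e' - e‖ < 1 / ((m : ℝ) + 1) ∧ ∃ x ∈ M21 (fun z => -F z),
      ∃ y ∈ M2 F, nrm F x = e' ∧ nrm F y = e' ∧ ⟪e', y⟫ ≤ ⟪e', x⟫ ∧ ∃ C : Set V,
      IsPreconnected C ∧ C ⊆ {z | F z ≤ 0 ∧ ⟪e', y⟫ ≤ ⟪e', z⟫ ∧ ⟪e', z⟫ ≤ ⟪e', x⟫} ∧
      x ∈ C ∧ y ∈ C :=
    fun m => hcon _ Nat.one_div_pos_of_nat
  choose ν hν x hx y hy hnx hny hxy C hC hCs hxC hyC using hcon'
  have hZ : IsClosed {x | F x = 0} := isClosed_eq hF.continuous continuous_const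
  have hs1 : closure (M21 fun z => -F z) ⊆ {x | F x = 0} :=
    closure_minimal (fun x hx => neg_eq_zero.1 hx.1) hZ
  have hs2 : closure (M2 F) ⊆ {x | F x = 0} := closure_minimal (fun x hx => hx.1) hZ
  have hbz : Bornology.IsBounded {x | F x = 0} := hb.subset fun x hx => le_of_eq hx
  have hK1 : IsCompact (closure (M21 fun z => -F z)) :=
    isCompact_of_isClosed_isBounded isClosed_closure (hbz.subset hs1)
  have hK2 : IsCompact (closure (M2 F)) :=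
    isCompact_of_isClosed_isBounded isClosed_closure (hbz.subset hs2)
  obtain ⟨⟨a, b⟩, ⟨ha, hb'⟩, φ, hφ, hlim⟩ := (hK1.prod hK2).tendsto_subseq
    (x := fun m => (x m, y m)) fun m => ⟨subset_closure (hx m), subset_closure (hy m)⟩
  have hxa : Tendsto (fun m => x (φ m)) atTop (𝓝 a) := (continuous_fst.tendsto _).comp hlim
  have hyb : Tendsto (fun m => y (φ m)) atTop (𝓝 b) := (continuous_snd.tendsto _).comp hlim
  have hνe : Tendsto ν atTop (𝓝 e) := by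
    rw [tendsto_iff_norm_sub_tendsto_zero]
    exact squeeze_zero (fun m => norm_nonneg _) (fun m => (hν m).le)
      tendsto_one_div_add_atTop_nhds_zero_nat
  have hνφ : Tendsto (fun m => ν (φ m)) atTop (𝓝 e) := hνe.comp hφ.tendsto_atTop
  have hn := nrm_continuousOn hF hreg
  have hna : nrm F a = e := by
    have h1 : Tendsto (fun m => nrm F (x (φ m))) atTop (𝓝 (nrm F a)) :=
      (hn a (hs1 ha)).tendsto.comp (tendsto_nhdsWithin_iff.2
        ⟨hxa, Eventually.of_forall fun m => neg_eq_zero.1 (hx (φ m)).1⟩)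
    refine tendsto_nhds_unique h1 ?_
    simpa only [hnx] using hνφ
  have hnb : nrm F b = e := by
    have h1 : Tendsto (fun m => nrm F (y (φ m))) atTop (𝓝 (nrm F b)) :=
      (hn b (hs2 hb')).tendsto.comp (tendsto_nhdsWithin_iff.2
        ⟨hyb, Eventually.of_forall fun m => (hy (φ m)).1⟩)
    refine tendsto_nhds_unique h1 ?_
    simpa only [hny] using hνφ
  have hta : Tendsto (fun m => ⟪ν (φ m), x (φ m)⟫) atTop (𝓝 ⟪e, a⟫) := hνφ.inner hxa
  have htb : Tendsto (fun m => ⟪ν (φ m), y (φ m)⟫) atTop (𝓝 ⟪e, b⟫) := hνφ.inner hyb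
  have hab : ⟪e, b⟫ ≤ ⟪e, a⟫ := le_of_tendsto_of_tendsto' htb hta fun m => hxy (φ m)
  have hA : IsCompact {z | F z ≤ 0} :=
    isCompact_of_isClosed_isBounded (isClosed_le hF.continuous continuous_const) hb
  have hcl : IsClosed {z : V | ⟪e, b⟫ ≤ ⟪e, z⟫ ∧ ⟪e, z⟫ ≤ ⟪e, a⟫} := by
    have hcz : Continuous fun z : V => (⟪e, z⟫ : ℝ) := by fun_prop
    exact (isClosed_le continuous_const hcz).inter (isClosed_le hcz continuous_const)
  have hK : IsCompact {z | F z ≤ 0 ∧ ⟪e, b⟫ ≤ ⟪e, z⟫ ∧ ⟪e, z⟫ ≤ ⟪e, a⟫} := hA.inter_right hcl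
  obtain ⟨U, U', hU, hU', hd, hcov, haU, hbU⟩ := exists_sep_of_comp hK
    (x := a) (y := b) ⟨(hs1 ha).le, hab, le_rfl⟩ ⟨(hs2 hb').le, le_rfl, hab⟩
    (h a ha b hb' hna hnb hab)
  have h1 := slab_cover hA (hU.union hU') (fun z hz hzt hzt' => hcov ⟨hz, hzt, hzt'⟩) hνφ htb hta
  have h2 : ∀ᶠ m in atTop, x (φ m) ∈ U := hxa.eventually (hU.mem_nhds haU)
  have h3 : ∀ᶠ m in atTop, y (φ m) ∈ U' := hyb.eventually (hU'.mem_nhds hbU)
  obtain ⟨m, hm1, hm2, hm3⟩ := (h1.and (h2.and h3)).exists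
  obtain ⟨z, -, hzU, hzU'⟩ := hC (φ m) U U' hU hU'
    (fun z hz => hm1 z (hCs (φ m) hz).1 (hCs (φ m) hz).2.1 (hCs (φ m) hz).2.2)
    ⟨_, hxC (φ m), hm2⟩
    ⟨_, hyC (φ m), hm3⟩
  exact Set.disjoint_left.1 hd hzU hzU'

/-- The direction for `zball'` from the closure form. -/
theorem pp_levelW (hV : Module.finrank ℝ V = 4) {F : V → ℝ} (hF : ContDiff ℝ ∞ F)
    (hb : Bornology.IsBounded {x | F x ≤ 0}) (hreg : ∀ x, F x = 0 → gradient F x ≠ 0) {e : V}
    (he : ‖e‖ = 1) (h : NoParW F e) :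
    ∃ E : V, ‖E‖ = 1 ∧ (∀ x, Inward F E x → ∃ k, Idx F E x k) ∧
      ∀ x y, Inward F E x → Inward F E y → Idx F E x 1 → (∃ k, 2 ≤ k ∧ Idx F E y k) →
        ⟪E, x⟫ ≤ ⟪E, y⟫ → ∀ C : Set V, IsPreconnected C →
        C ⊆ {z | F z ≤ 0 ∧ ⟪E, x⟫ ≤ ⟪E, z⟫ ∧ ⟪E, z⟫ ≤ ⟪E, y⟫} → x ∈ C → y ∉ C := by
  have hbz : Bornology.IsBounded {x | F x = 0} := hb.subset fun x hx => le_of_eq hx
  obtain ⟨η, hη, hη'⟩ := noParW_near F hF hb hreg h
  have : ProperSpace V := FiniteDimensional.proper ℝ V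
  have hK : IsCompact {x | F x = 0} :=
    isCompact_of_isClosed_isBounded (isClosed_eq hF.continuous continuous_const) hbz
  obtain ⟨v, hv, hve, hvK⟩ := exists_regular_near 3 hV F hF hreg hK e he η hη
  have hne : ‖-v‖ = 1 := by rwa [norm_neg]
  have hnv : ∀ x, Inward F (-v) x → nrm F x = v := by
    intro x hx
    rw [plane_nrm_of_inward hne hx, neg_neg]
  have hcr := crit_iff hne hreg
  refine ⟨-v, hne, fun x hx => ?_, ?_⟩
  · exact ⟨_, idx_of_gaussK 3 hV F hF (-v) hne x hx (hvK x hx.1 (hnv x hx))⟩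
  · rintro x y hx hy hx1 ⟨k, hk, hyk⟩ hxy C hC hCs
    refine hη' v hve x (m21_neg_of_idx hV hne ((hcr x).2 (Or.inl hx)) hx1) y
      (m2_of_idx ((hcr y).2 (Or.inl hy)) hk hyk) (hnv x hx) (hnv y hy) ?_ C hC fun z hz => ?_
    · rw [inner_neg_left, inner_neg_left] at hxy
      linarith
    · obtain ⟨h1, h2, h3⟩ := hCs hz
      rw [inner_neg_left, inner_neg_left] at h2 h3
      exact ⟨h1, by linarith, by linarith⟩

/-- Parallel pairs connected between the tangent hyperplanes: the body is a ball. -/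
theorem ppW_isBall (hV : Module.finrank ℝ V = 4) {F : V → ℝ} (hF : ContDiff ℝ ∞ F)
    (hb : Bornology.IsBounded {x | F x ≤ 0}) (hreg : ∀ x, F x = 0 → gradient F x ≠ 0)
    (hMc : IsConnected {x | F x = 0}) (hMl : LiftS {x | F x = 0}) {e : V} (he : ‖e‖ = 1)
    (h : NoParW F e) : IsBall F := by
  obtain ⟨E, hE, hnd, hbad⟩ := pp_levelW hV hF hb hreg he h
  obtain ⟨hc1, hc2⟩ := sides_conn hF.continuous hMc
  obtain ⟨hl1, hl2⟩ := BaseN_liftS hF.continuous hMl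
  refine zball' 3 le_rfl hV hF hb hreg ⟨hc1, hl1, hc2, hl2⟩ hE (fun x hx => ?_) hbad
  obtain ⟨k, hk⟩ := hnd x hx
  exact ⟨k, hk, by omega⟩

/-- **Parallel pairs connected between the tangent hyperplanes.** -/
theorem ppW_carries (hV : Module.finrank ℝ V = 4) (F : V → ℝ) (hF : ContDiff ℝ ∞ F)
    (hb : Bornology.IsBounded {x | F x ≤ 0}) (hreg : ∀ x, F x = 0 → gradient F x ≠ 0)
    (hMc : IsConnected {x | F x = 0}) (hMl : LiftS {x | F x = 0}) (e : V) (he : ‖e‖ = 1)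
    (h : NoParW F e) : Carries {x : V | F x = 0} (Metric.sphere (0 : V) 1) := by
  have hnt : Nontrivial V := Module.nontrivial_of_finrank_pos (R := ℝ) (by omega)
  exact carries_of_isBall F hF (ppW_isBall hV hF hb hreg hMc hMl he h)

end Pool.Schoen
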