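import Pool.Agent.H.MP_6c077c_gt.PP.ConfK
import Pool.Agent.H.MP_6c077c_gt.Wn.Final

/-! Parallel pairs connected between the two tangent spheres, conformal form. -/

set_option autoImplicit false

namespace Pool.Schoen

open Filter Set
open scoped Topology RealInnerProductSpace ContDiff

variable {V : Type*} [NormedAddCommGroup V] [InnerProductSpace ℝ V] [FiniteDimensional ℝ V]

/-- There is no reversed parallel pair, connected inside the body between its two tangent spheres,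
for the pencil of spheres tangent at `w` to the hyperplane orthogonal to `a`. -/
def NoParWC (F : V → ℝ) (w a : V) : Prop :=
  ∀ x ∈ closure (C21 (fun z => -F z) w), ∀ y ∈ closure (C2 F w), cNrm F w x = a →
    cNrm F w y = a → cHt w a y ≤ cHt w a x → ∀ C : Set V, IsPreconnected C →
      C ⊆ {z | F z ≤ 0 ∧ cHt w a y ≤ cHt w a z ∧ cHt w a z ≤ cHt w a x} → x ∈ C → y ∉ C

/-- A small ball between two hyperplanes, without its center. -/
theorem slab_ball_preconn (hdim : 3 ≤ Module.finrank ℝ V) {a w : V} (ha : ‖a‖ = 1) {α β r₀ : ℝ}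
    (h1 : α ≤ ⟪a, w⟫) (h2 : ⟪a, w⟫ ≤ β) (hr₀ : 0 < r₀) : ∃ r : ℝ, 0 < r ∧ r ≤ r₀ ∧
      IsPreconnected ((Metric.ball w r ∩ {z | α ≤ ⟪a, z⟫ ∧ ⟪a, z⟫ ≤ β}) \ {w}) := by
  have hrank : 1 < Module.rank ℝ V := by
    have h1 := Module.lt_rank_of_lt_finrank (R := ℝ) (M := V) (n := 1) (by omega)
    exact_mod_cast h1
  have ha0 : a ≠ 0 := by
    intro h0
    rw [h0, norm_zero] at ha
    exact zero_ne_one ha
  have habs : ∀ z r, z ∈ Metric.ball w r → |⟪a, z⟫ - ⟪a, w⟫| < r := by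
    intro z r hz
    rw [Metric.mem_ball, dist_eq_norm] at hz
    have h3 := abs_real_inner_le_norm a (z - w)
    rw [ha, one_mul, inner_sub_right] at h3
    exact h3.trans_lt hz
  rcases h1.lt_or_eq with h1 | h1
  · rcases h2.lt_or_eq with h2 | h2
    · refine ⟨min r₀ (min (⟪a, w⟫ - α) (β - ⟪a, w⟫)), lt_min hr₀ (lt_min (by linarith)
        (by linarith)), min_le_left _ _, ?_⟩
      have h4 : Metric.ball w (min r₀ (min (⟪a, w⟫ - α) (β - ⟪a, w⟫))) ∩
          {z | α ≤ ⟪a, z⟫ ∧ ⟪a, z⟫ ≤ β} =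
          Metric.ball w (min r₀ (min (⟪a, w⟫ - α) (β - ⟪a, w⟫))) := by
        refine inter_eq_left.2 fun z hz => ?_
        have h5 := abs_lt.1 (habs z _ hz)
        have h6 := min_le_right r₀ (min (⟪a, w⟫ - α) (β - ⟪a, w⟫))
        have h7 := min_le_left (⟪a, w⟫ - α) (β - ⟪a, w⟫)
        have h8 := min_le_right (⟪a, w⟫ - α) (β - ⟪a, w⟫)
        exact ⟨by linarith [h5.1], by linarith [h5.2]⟩
      rw [h4]
      exact ball_diff_preconn hrank w (lt_min hr₀ (lt_min (by linarith) (by linarith)))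
    · -- the upper hyperplane passes through `w`
      refine ⟨min r₀ (⟪a, w⟫ - α), lt_min hr₀ (by linarith), min_le_left _ _, ?_⟩
      have h4 : Metric.ball w (min r₀ (⟪a, w⟫ - α)) ∩ {z | α ≤ ⟪a, z⟫ ∧ ⟪a, z⟫ ≤ β} =
          Metric.ball w (min r₀ (⟪a, w⟫ - α)) ∩ {z | ⟪-a, w⟫ ≤ ⟪-a, z⟫} := by
        ext z
        simp only [mem_inter_iff, mem_setOf_eq, inner_neg_left]
        constructor
        · rintro ⟨h5, h6, h7⟩
          exact ⟨h5, by linarith⟩
        · rintro ⟨h5, h6⟩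
          have h7 := abs_lt.1 (habs z _ h5)
          have h8 := min_le_right r₀ (⟪a, w⟫ - α)
          exact ⟨h5, by linarith [h7.1], by linarith⟩
      rw [h4]
      exact half_ball_preconn (-a) w (neg_ne_zero.2 ha0) _
  · rcases h2.lt_or_eq with h2 | h2
    · refine ⟨min r₀ (β - ⟪a, w⟫), lt_min hr₀ (by linarith), min_le_left _ _, ?_⟩
      have h4 : Metric.ball w (min r₀ (β - ⟪a, w⟫)) ∩ {z | α ≤ ⟪a, z⟫ ∧ ⟪a, z⟫ ≤ β} =
          Metric.ball w (min r₀ (β - ⟪a, w⟫)) ∩ {z | ⟪a, w⟫ ≤ ⟪a, z⟫} := by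
        ext z
        simp only [mem_inter_iff, mem_setOf_eq]
        constructor
        · rintro ⟨h5, h6, h7⟩
          exact ⟨h5, by linarith⟩
        · rintro ⟨h5, h6⟩
          have h7 := abs_lt.1 (habs z _ h5)
          have h8 := min_le_right r₀ (β - ⟪a, w⟫)
          exact ⟨h5, by linarith, by linarith [h7.2]⟩
      rw [h4]
      exact half_ball_preconn a w ha0 _
    · -- a hyperplane
      refine ⟨r₀, hr₀, le_rfl, ?_⟩
      have hfr : Module.finrank ℝ (ℝ ∙ a)ᗮ = Module.finrank ℝ V - 1 := by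
        have h3 := Submodule.finrank_add_finrank_orthogonal (ℝ ∙ a)
        rw [finrank_span_singleton ha0] at h3
        omega
      have hrank' : 1 < Module.rank ℝ (ℝ ∙ a)ᗮ := by
        have h3 := Module.lt_rank_of_lt_finrank (R := ℝ) (M := (ℝ ∙ a)ᗮ) (n := 1) (by omega)
        exact_mod_cast h3
      have h4 : (Metric.ball w r₀ ∩ {z | α ≤ ⟪a, z⟫ ∧ ⟪a, z⟫ ≤ β}) \ {w} =
          (fun u : (ℝ ∙ a)ᗮ => w + (u : V)) '' (Metric.ball 0 r₀ \ {0}) := by
        ext z
        constructor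
        · rintro ⟨⟨h5, h6, h7⟩, h8⟩
          have h9 : ⟪a, z - w⟫ = 0 := by
            rw [inner_sub_right]
            linarith
          refine ⟨⟨z - w, Submodule.mem_orthogonal_singleton_iff_inner_right.2 h9⟩, ⟨?_, ?_⟩, ?_⟩
          · rw [mem_ball_zero_iff]
            rwa [Metric.mem_ball, dist_eq_norm] at h5
          · intro h10
            have h11 : z - w = 0 := congrArg Subtype.val h10
            exact h8 (sub_eq_zero.1 h11)
          · show w + (z - w) = z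
            abel
        · rintro ⟨u, ⟨h5, h6⟩, rfl⟩
          have h9 : ⟪a, (u : V)⟫ = 0 :=
            Submodule.mem_orthogonal_singleton_iff_inner_right.1 u.2
          refine ⟨⟨?_, ?_, ?_⟩, ?_⟩
          · rw [Metric.mem_ball, dist_eq_norm, add_sub_cancel_left]
            rwa [mem_ball_zero_iff] at h5
          · show α ≤ ⟪a, w + (u : V)⟫
            rw [inner_add_right, h9]
            linarith
          · show ⟪a, w + (u : V)⟫ ≤ β
            rw [inner_add_right, h9]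
            linarith
          · intro h10
            have h11 : w + (u : V) = w := h10
            have h12 : (u : V) = 0 := by simpa using h11
            exact h6 (Subtype.ext h12)
      rw [h4]
      exact (ball_diff_preconn hrank' 0 hr₀).image _ (by fun_prop)

/-- The condition with connectivity for the pencil of spheres becomes the one for parallel
hyperplanes. -/
theorem noParW_of_conf (hdim : 3 ≤ Module.finrank ℝ V) {F G : V → ℝ} (hF : ContDiff ℝ ∞ F)
    (hG : ContDiff ℝ ∞ G) {w : V}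
    (hz : ∀ y, G y = 0 → y ≠ w ∧ F (inv1 w y) = 0 ∧ G =ᶠ[𝓝 y] fun z => F (inv1 w z))
    (hGw : G w ≠ 0) (hs : ∀ y, y ≠ w → G y ≤ 0 → F (inv1 w y) ≤ 0) {a : V} (ha : ‖a‖ = 1)
    (h : NoParWC F w a) : NoParW G a := by
  have hcl1 : ∀ y ∈ closure (M21 fun z => -G z), G y = 0 := fun y hy =>
    closure_minimal (fun x hx => neg_eq_zero.1 hx.1) (isClosed_eq hG.continuous continuous_const) hy
  have hcl2 : ∀ y ∈ closure (M2 G), G y = 0 := fun y hy =>
    closure_minimal (fun x hx => hx.1) (isClosed_eq hG.continuous continuous_const) hy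
  have hmem1 : ∀ y ∈ closure (M21 fun z => -G z), inv1 w y ∈ closure (C21 (fun z => -F z) w) := by
    intro y hy
    have h1 := (hz y (hcl1 y hy)).1
    have h2 : ContinuousWithinAt (inv1 w) (M21 fun z => -G z) y :=
      (inv1_contDiffAt h1).continuousAt.continuousWithinAt
    refine closure_mono ?_ (h2.mem_closure_image hy)
    rintro _ ⟨z, ⟨hz1, hz2, hz3⟩, rfl⟩
    obtain ⟨e1, e2, e3⟩ := hz z (neg_eq_zero.1 hz1)
    have e4 : (fun z => -G z) =ᶠ[𝓝 z] fun y => (fun x => -F x) (inv1 w y) := by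
      filter_upwards [e3] with u hu
      rw [hu]
    exact ⟨neg_eq_zero.2 e2, twoLess_of_twoNeg hF.neg hG.neg e1 e4 hz2,
      oneMore_of_onePos hF.neg hG.neg e1 e4 hz3⟩
  have hmem2 : ∀ y ∈ closure (M2 G), inv1 w y ∈ closure (C2 F w) := by
    intro y hy
    have h1 := (hz y (hcl2 y hy)).1
    have h2 : ContinuousWithinAt (inv1 w) (M2 G) y :=
      (inv1_contDiffAt h1).continuousAt.continuousWithinAt
    refine closure_mono ?_ (h2.mem_closure_image hy)
    rintro _ ⟨z, ⟨hz1, hz2⟩, rfl⟩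
    obtain ⟨e1, e2, e3⟩ := hz z hz1
    exact ⟨e2, twoLess_of_twoNeg hF hG e1 e3 hz2⟩
  intro x hx y hy hnx hny hxy C hC hCs hxC hyC
  obtain ⟨e1, e2, e3⟩ := hz x (hcl1 x hx)
  obtain ⟨f1, f2, f3⟩ := hz y (hcl2 y hy)
  -- a connected set which avoids `w`
  obtain ⟨D, hD, hDs, hxD, hyD, hDw⟩ : ∃ D : Set V, IsPreconnected D ∧
      D ⊆ {z | G z ≤ 0 ∧ ⟪a, y⟫ ≤ ⟪a, z⟫ ∧ ⟪a, z⟫ ≤ ⟪a, x⟫} ∧ x ∈ D ∧ y ∈ D ∧ w ∉ D := by
    by_cases hwC : w ∈ C
    · obtain ⟨hw1, hw2, hw2'⟩ := hCs hwC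
      have hw3 : G w < 0 := lt_of_le_of_ne hw1 hGw
      obtain ⟨r0, hr0, hball⟩ := Metric.isOpen_iff.1 (isOpen_lt hG.continuous continuous_const) w hw3
      obtain ⟨r, hr, hrN, hrP⟩ := slab_ball_preconn hdim ha hw2 hw2' hr0
      refine ⟨(C ∪ (Metric.ball w r ∩ {z | ⟪a, y⟫ ≤ ⟪a, z⟫ ∧ ⟪a, z⟫ ≤ ⟪a, x⟫})) \ {w},
        glue_preconn hC hwC hrP Metric.isOpen_ball (Metric.mem_ball_self hr)
          (fun z hz => ⟨hz.2, (hCs hz.1).2⟩), ?_, ⟨Or.inl hxC, e1⟩, ⟨Or.inl hyC, f1⟩,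
        fun h => h.2 rfl⟩
      rintro z ⟨hz | hz, -⟩
      · exact hCs hz
      · have h1 : G z < 0 := hball (Metric.ball_subset_ball hrN hz.1)
        exact ⟨h1.le, hz.2⟩
    · exact ⟨C, hC, hCs, hxC, hyC, hwC⟩
  have hDw' : ∀ z ∈ D, z ≠ w := fun z hz h0 => hDw (h0 ▸ hz)
  rw [cHt_inv1 e1, cHt_inv1 f1] at hxy
  refine h _ (hmem1 x hx) _ (hmem2 y hy) (by rw [← conf_nrm hF hG e1 e3, hnx])
    (by rw [← conf_nrm hF hG f1 f3, hny]) (by linarith) (inv1 w '' D)
    (hD.image _ fun z hz => (inv1_contDiffAt (hDw' z hz)).continuousAt.continuousWithinAt) ?_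
    (mem_image_of_mem _ hxD) (mem_image_of_mem _ hyD)
  rintro _ ⟨z, hz', rfl⟩
  obtain ⟨h1, h2, h3⟩ := hDs hz'
  rw [cHt_inv1 f1, cHt_inv1 (hDw' z hz')] at h2
  rw [cHt_inv1 e1, cHt_inv1 (hDw' z hz')] at h3
  exact ⟨hs z (hDw' z hz') h1, by linarith, by linarith⟩

/-- Transport of the planar theorem to pencils of spheres. -/
theorem pp_confW_of (hV : Module.finrank ℝ V = 4)
    (planar : ∀ (G : V → ℝ) (e : V), ContDiff ℝ ∞ G → Bornology.IsBounded {x | G x ≤ 0} →
      (∀ x, G x = 0 → gradient G x ≠ 0) → IsConnected {x | G x = 0} → LiftS {x | G x = 0} →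
      ‖e‖ = 1 → NoParW G e → Carries {x : V | G x = 0} (Metric.sphere (0 : V) 1))
    (F : V → ℝ) (hF : ContDiff ℝ ∞ F)
    (hb : Bornology.IsBounded {x | F x ≤ 0}) (hreg : ∀ x, F x = 0 → gradient F x ≠ 0)
    (hMc : IsConnected {x | F x = 0}) (hMl : LiftS {x | F x = 0}) (w a : V) (ha : ‖a‖ = 1)
    (h : (0 < F w ∧ NoParWC F w a) ∨ (F w < 0 ∧ NoParWC (fun x => -F x) w a)) : IsBall F := by
  have hw : F w ≠ 0 := by
    rcases h with h | h
    · exact h.1.ne'
    · exact h.1.ne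
  obtain ⟨G, hG, hGb1, hGb2, hGim, hGz, hGw, hGs⟩ := conf_exists_sign hF hb hw
  have ha0 : a ≠ 0 := by
    intro h0
    rw [h0, norm_zero] at ha
    exact zero_ne_one ha
  have hGreg : ∀ y, G y = 0 → gradient G y ≠ 0 := by
    intro y hy
    obtain ⟨h1, h2, h3⟩ := hGz y hy
    rw [conf_gradient hF hG h1 h3]
    exact invD_ne (sub_ne_zero.2 h1) (hreg _ h2)
  have hinv : ∀ x, F x = 0 → ContinuousWithinAt (inv1 w) {x | F x = 0} x := by
    intro x hx
    refine (inv1_contDiffAt ?_).continuousAt.continuousWithinAt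
    rintro rfl
    exact hw hx
  have hinvG : ∀ y, G y = 0 → ContinuousWithinAt (inv1 w) {y | G y = 0} y := fun y hy =>
    (inv1_contDiffAt (hGz y hy).1).continuousAt.continuousWithinAt
  have hGc : IsConnected {y | G y = 0} := by
    rw [hGim]
    exact hMc.image _ fun x hx => hinv x hx
  have hGl : LiftS {y | G y = 0} := by
    intro u hu hu1
    have hmaps : ∀ x ∈ {x | F x = 0}, inv1 w x ∈ {y | G y = 0} := fun x hx => by
      rw [hGim]
      exact mem_image_of_mem _ hx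
    obtain ⟨v, hv, hv1⟩ := hMl (fun x => u (inv1 w x))
      (hu.comp (fun x hx => hinv x hx) hmaps) (fun x hx => hu1 _ (hmaps x hx))
    refine ⟨fun y => v (inv1 w y), hv.comp (fun y hy => hinvG y hy)
      (fun y hy => (hGz y hy).2.1), fun y hy => ?_⟩
    have := hv1 _ (hGz y hy).2.1
    rwa [inv1_inv1] at this
  have hset : {x | -G x = 0} = {x | G x = 0} := by
    ext x
    exact neg_eq_zero (a := G x)
  have hRd : Carries {y | G y = 0} (Metric.sphere (0 : V) 1) := by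
    rcases h with ⟨hpos, h⟩ | ⟨hneg, h⟩
    · exact planar G a hG (hGb1 hpos) hGreg hGc hGl ha
        (noParW_of_conf (by omega) hF hG hGz hGw (fun y hy => (hGs y hy).1) ha h)
    · have h1 : NoParW (fun x => -G x) a := by
        refine noParW_of_conf (by omega) hF.neg hG.neg (fun y hy => ?_) (neg_ne_zero.2 hGw)
          (fun y hy => (hGs y hy).2) ha h
        obtain ⟨e1, e2, e3⟩ := hGz y (neg_eq_zero.1 hy)
        refine ⟨e1, neg_eq_zero.2 e2, ?_⟩
        filter_upwards [e3] with z hz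
        rw [hz]
      have h2 := planar (fun x => -G x) a hG.neg (hGb2 hneg) (fun x hx h0 => by
        refine hGreg x (neg_eq_zero.1 hx) ?_
        rw [gradient_neg_fun, neg_eq_zero] at h0
        exact h0) (by rw [hset]; exact hGc) (by rw [hset]; exact hGl) ha h1
      rwa [hset] at h2
  rw [hGim] at hRd
  exact isBall_of_inv1 hF hb hreg ⟨a, ha0⟩ hw hRd

/-- **Parallel pairs connected between the tangent spheres, conformal form.** -/
theorem pp_confW_isBall (hV : Module.finrank ℝ V = 4) (F : V → ℝ) (hF : ContDiff ℝ ∞ F)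
    (hb : Bornology.IsBounded {x | F x ≤ 0}) (hreg : ∀ x, F x = 0 → gradient F x ≠ 0)
    (hMc : IsConnected {x | F x = 0}) (hMl : LiftS {x | F x = 0}) (w a : V) (ha : ‖a‖ = 1)
    (h : (0 < F w ∧ NoParWC F w a) ∨ (F w < 0 ∧ NoParWC (fun x => -F x) w a)) : IsBall F :=
  pp_confW_of hV (fun G e h1 h2 h3 h4 h5 h6 h7 => ppW_carries hV G h1 h2 h3 h4 h5 e h6 h7)
    F hF hb hreg hMc hMl w a ha h

/-- **Parallel pairs connected between the tangent spheres, conformal form.** -/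
theorem pp_confW_carries (hV : Module.finrank ℝ V = 4) (F : V → ℝ) (hF : ContDiff ℝ ∞ F)
    (hb : Bornology.IsBounded {x | F x ≤ 0}) (hreg : ∀ x, F x = 0 → gradient F x ≠ 0)
    (hMc : IsConnected {x | F x = 0}) (hMl : LiftS {x | F x = 0}) (w a : V) (ha : ‖a‖ = 1)
    (h : (0 < F w ∧ NoParWC F w a) ∨ (F w < 0 ∧ NoParWC (fun x => -F x) w a)) :
    Carries {x : V | F x = 0} (Metric.sphere (0 : V) 1) :=
  carries_of_isBall F hF (pp_confW_isBall hV F hF hb hreg hMc hMl w a ha h)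

end Pool.Schoen
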