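import Pool.Agent.H.MP_6c077c_gt.Ix.ModC

/-! Passing to the model near an inward point, without any class: nothing is assumed or changed
outside of a given ball. -/

set_option autoImplicit false

namespace Pool.Schoen

open Filter Set
open scoped Topology RealInnerProductSpace ContDiff

variable {V : Type*} [NormedAddCommGroup V] [InnerProductSpace ℝ V] [FiniteDimensional ℝ V]

/-- As `model_cases`, with the form in the first case. -/
theorem model_cases' {f g : V → ℝ} {e p : V} (he : ‖e‖ = 1) (h : Inw f e p) {μ r : ℝ} (hμ0 : 0 < μ)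
    (hr : 0 < r) (hg : ∀ x, ‖x - p‖ < r → g x = mdl0 (fderiv ℝ (fderiv ℝ f) p) μ e p x) :
    Mod0 g e p (fderiv ℝ (fderiv ℝ f) p) μ r ∨ ∃ u B a, Mod1 g e u p B μ a r := by
  rcases h.index with h1 | ⟨u, hu, heu, huu, huw, hww⟩
  · left
    exact ⟨he, hμ0, hr, h1, hg⟩
  · right
    refine ⟨u, fderiv ℝ (fderiv ℝ f) p, -(hess f p u u), he, hu, heu, hμ0, neg_pos.2 huu, hr,
      hww, fun x hx => ?_⟩
    rw [hg x hx]
    obtain ⟨hw1, hw2⟩ := inner_wc he hu heu (x - p)
    have hdec : orth e (x - p) = ⟪u, x - p⟫ • u + wc e u (x - p) := by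
      unfold orth wc
      abel
    have e1 := huw _ hw1 hw2
    have e2 := hess_symm h.smooth (wc e u (x - p)) u
    rw [e1] at e2
    unfold hess at e1 e2
    unfold mdl0 mdl1 hess
    rw [hdec]
    simp only [map_add, map_smul, _root_.add_apply, _root_.smul_apply, smul_eq_mul]
    rw [e1, e2]
    ring

/-- **Local model.** Let `f` be good with an inward point `p` of index at most one. For every radius
`r₁` there are a radius `R ≤ r₁` and a function `g`, homotopic to `f` and with the germs of `f` outside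
of the ball of radius `R` around `p`, which is a model in a smaller ball; the zeros of `g` in the ball
of radius `R`, other than `p`, are free. -/
theorem model_loc {f : V → ℝ} {e p : V} (he : ‖e‖ = 1) (hg : Good f)
    (hb : Bornology.IsBounded {x | f x ≤ 0}) (hin : Inw f e p)
    {r₁ : ℝ} (hr₁ : 0 < r₁) :
    ∃ (g : V → ℝ) (μ R r : ℝ), 0 < R ∧ R ≤ r₁ ∧ r ≤ R ∧ Hom f g ∧ Inw g e p ∧
      (∀ x, g x ≤ 0 → f x ≤ 0 ∨ ‖x - p‖ < R) ∧ (∀ x, R ≤ ‖x - p‖ → f =ᶠ[𝓝 x] g) ∧
      (∀ x, g x = 0 → x ≠ p → ‖x - p‖ < R → FreeAt g e x) ∧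
      (Mod0 g e p (fderiv ℝ (fderiv ℝ f) p) μ r ∨
        ∃ (u : V) (B : V →L[ℝ] V →L[ℝ] ℝ) (a : ℝ), Mod1 g e u p B μ a r) := by
  classical
  obtain ⟨μ, hμ0, hμ⟩ := hin.grad
  obtain ⟨C, hC, hcut⟩ := cutoff_exists V p
  obtain ⟨r0, hr0, hzero⟩ := model_zero he hin hμ0 hμ C hC
  obtain ⟨r, hr, hrr0, hrr₁⟩ : ∃ r : ℝ, 0 < r ∧ r < r0 ∧ r ≤ r₁ :=
    ⟨min (r0 / 2) r₁, by positivity, (min_le_left _ _).trans_lt (by linarith), min_le_right _ _⟩
  obtain ⟨hsm, hz⟩ := hzero r hr hrr0
  obtain ⟨χ, hχ, hχ01, hχ1, hχ0, hχd⟩ := hcut r hr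
  have hz' := hz χ hχ hχ01 hχd
  have hmi : ∀ t : ℝ, Inw (fun x => f x + t * (χ x * (mdl0 (fderiv ℝ (fderiv ℝ f) p) μ e p x - f x)))
      e p := by
    intro t
    refine model_inw he hin hμ0 hμ ?_ t
    filter_upwards [Metric.ball_mem_nhds p (show 0 < r / 4 by positivity)] with x hx
    apply hχ1
    rw [← dist_eq_norm]
    exact (Metric.mem_ball.1 hx).le
  have hcases := @model_cases' V _ _ _ f (fun x => f x + 1 * (χ x *
    (mdl0 (fderiv ℝ (fderiv ℝ f) p) μ e p x - f x))) e p he hin μ (r / 4) hμ0 (by positivity)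
    (fun x hx => by
      show f x + 1 * (χ x * (mdl0 (fderiv ℝ (fderiv ℝ f) p) μ e p x - f x)) = _
      rw [hχ1 x hx.le]
      ring)
  have hmC : ContDiff ℝ ∞ (mdl0 (fderiv ℝ (fderiv ℝ f) p) μ e p) := mdl0_contDiff _ _ _ _
  set m := mdl0 (fderiv ℝ (fderiv ℝ f) p) μ e p with hm
  have hfc : Continuous f := hg.cont
  -- outside of the ball
  have hout : ∀ x, r ≤ ‖x - p‖ → ∀ᶠ y in 𝓝 x, χ y = 0 := by
    intro x hx
    have hc : Continuous fun y : V => ‖y - p‖ := by fun_prop
    have h1 : ∀ᶠ y in 𝓝 x, r / 2 < ‖y - p‖ :=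
      hc.continuousAt.eventually (lt_mem_nhds (by linarith))
    filter_upwards [h1] with y hy
    exact hχ0 y hy.le
  have hout' : ∀ t x, r ≤ ‖x - p‖ → f =ᶠ[𝓝 x] fun y => f y + t * (χ y * (m y - f y)) := by
    intro t x hx
    filter_upwards [hout x hx] with y hy
    rw [hy]
    ring
  -- smoothness in the ball
  have hG : ∀ t x, ‖x - p‖ < r → ContDiffAt ℝ 1
      (fun q : ℝ × V => f q.2 + q.1 * (χ q.2 * (m q.2 - f q.2))) (t, x) := by
    intro t x hx
    have hfx : ContDiffAt ℝ 1 f x := (hsm x hx).of_le (by norm_num)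
    have h1 : ContDiffAt ℝ 1 (fun q : ℝ × V => f q.2) (t, x) :=
      ContDiffAt.comp (t, x) (f := fun q : ℝ × V => q.2) (g := f) hfx contDiffAt_snd
    have h2 : ContDiffAt ℝ 1 (fun q : ℝ × V => χ q.2) (t, x) :=
      ((hχ.of_le (by exact_mod_cast le_top)).comp contDiff_snd).contDiffAt
    have h3 : ContDiffAt ℝ 1 (fun q : ℝ × V => m q.2) (t, x) :=
      ((hmC.of_le (by exact_mod_cast le_top)).comp contDiff_snd).contDiffAt
    exact h1.add (contDiffAt_fst.mul (h2.mul (h3.sub h1)))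
  have hGs : ∀ t x, ‖x - p‖ < r → ContDiffAt ℝ 1 (fun y => f y + t * (χ y * (m y - f y))) x := by
    intro t x hx
    have h1 : ContDiffAt ℝ 1 (fun y : V => (t, y)) x := contDiffAt_const.prodMk contDiffAt_id
    exact ContDiffAt.comp x (f := fun y : V => (t, y))
      (g := fun q : ℝ × V => f q.2 + q.1 * (χ q.2 * (m q.2 - f q.2))) (hG t x hx) h1
  have hGd : ∀ t x v, ‖x - p‖ < r →
      fderiv ℝ (fun q : ℝ × V => f q.2 + q.1 * (χ q.2 * (m q.2 - f q.2))) (t, x) (0, v) =
        fderiv ℝ (fun y => f y + t * (χ y * (m y - f y))) x v := by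
    intro t x v hx
    have h1 := ((hG t x hx).differentiableAt (by simp)).hasFDerivAt
    have h2 : HasFDerivAt (fun y : V => (t, y)) (ContinuousLinearMap.inr ℝ ℝ V) x :=
      hasFDerivAt_prodMk_right t x
    have h3 := h1.comp x h2
    have h4 : fderiv ℝ (fun y => f y + t * (χ y * (m y - f y))) x = _ := h3.fderiv
    rw [h4]
    rfl
  have hdesc : ∀ t x v, ‖x - p‖ < r →
      fderiv ℝ (fun y => f y + t * (χ y * (m y - f y))) x v < 0 →
      Desc (fun s y => f y + s * (χ y * (m y - f y))) (𝓝 t) x v := by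
    intro t x v hx hv
    have h1 := desc_smooth (hG t x hx) (v := v) (by rw [hGd t x v hx]; exact hv)
    exact h1
  have hbd : ∀ t x, f x + t * (χ x * (m x - f x)) ≤ 0 → x ∈ {x | f x ≤ 0} ∪ Metric.ball p r := by
    intro t x hx
    by_cases hxr : ‖x - p‖ < r
    · right
      rw [Metric.mem_ball, dist_eq_norm]
      exact hxr
    · left
      rw [hχ0 x (by linarith [not_lt.1 hxr])] at hx
      have : f x ≤ 0 := by linarith
      exact this
  have hbdd : Bornology.IsBounded ({x | f x ≤ 0} ∪ Metric.ball p r) :=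
    hb.union Metric.isBounded_ball
  have hHom : Hom f (fun x => f x + 1 * (χ x * (m x - f x))) := by
    refine ⟨fun t x => f x + t * (χ x * (m x - f x)), ?_, ?_, rfl, ?_, ?_⟩
    · have hχc : Continuous χ := hχ.continuous
      have hmc : Continuous m := hmC.continuous
      fun_prop
    · funext x
      ring
    · obtain ⟨R, hR⟩ := hbdd.exists_norm_le
      exact ⟨R, fun t _ x hx => hR x (hbd t x hx.le)⟩
    · intro t ht x hx
      by_cases hxr : ‖x - p‖ < r
      · by_cases hxp : x = p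
        · obtain ⟨μ', hμ', hgr⟩ := (hmi t).grad
          refine ⟨e, (hdesc t x e hxr ?_).mono nhdsWithin_le_nhds⟩
          rw [hxp, hgr e, real_inner_self_eq_norm_sq, he]
          linarith
        · obtain ⟨v, _, hv⟩ := hz' t ht x hxp hxr hx
          exact ⟨v, (hdesc t x v hxr hv).mono nhdsWithin_le_nhds⟩
      · have hxr' := not_lt.1 hxr
        have hfx : f x = 0 := by
          have hx' : f x + t * (χ x * (m x - f x)) = 0 := hx
          rw [hχ0 x (by linarith)] at hx'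
          linarith
        obtain ⟨v, hv⟩ := hg.desc x hfx
        refine ⟨v, Desc.congr (hv.const (𝓝[Icc 0 1] t)) ?_⟩
        have h1 : ∀ᶠ q : ℝ × V in 𝓝[Icc 0 1] t ×ˢ 𝓝 x, χ q.2 = 0 :=
          tendsto_snd.eventually (hout x hxr')
        filter_upwards [h1] with q hq
        rw [hq]
        ring
  refine ⟨fun x => f x + 1 * (χ x * (m x - f x)), μ, r, r / 4, hr, hrr₁, by linarith, hHom, hmi 1,
    ?_, ?_, ?_, hcases⟩
  · intro x hx
    rcases hbd 1 x hx with h1 | h1
    · exact Or.inl h1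
    · rw [Metric.mem_ball, dist_eq_norm] at h1
      exact Or.inr h1
  · intro x hx
    exact hout' 1 x hx
  · intro x hx hxp hxr
    obtain ⟨v, hv1, hv2⟩ := hz' 1 ⟨zero_le_one, le_rfl⟩ x hxp hxr hx
    exact ⟨v, desc1_smooth (hGs 1 x hxr) hv2, hv1⟩

end Pool.Schoen
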