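import Pool.Agent.H.MP_6c077c_gt.Wn.Up
import Pool.Agent.H.MP_6c077c_gt.Gd.Defs
import Pool.Agent.H.MP_6c077c_gt.Ix.ModC

/-! The local property from below: interior points, free zeros, births, zeros with a plane of
negative curvature. -/

set_option autoImplicit false

namespace Pool.Schoen

open Filter Set
open scoped Topology RealInnerProductSpace ContDiff

variable {V : Type*} [NormedAddCommGroup V] [InnerProductSpace ℝ V]

/-- The local property from paths which end in a connected set. -/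
theorem locUp_of_fan {K : Set V} {h : V → ℝ} {r : V}
    (H : ∀ U ∈ 𝓝 r, ∃ N ∈ 𝓝 r, ∃ R : Set V, IsPreconnected R ∧ R ⊆ U ∩ (K ∩ {x | h x < h r}) ∧
      ∀ x ∈ N ∩ (K ∩ {x | h x ≤ h r}), ∃ γ : ℝ → V, Continuous γ ∧ γ 0 = x ∧
        (∀ s ∈ Ioc (0 : ℝ) 1, γ s ∈ U ∩ (K ∩ {x | h x < h r})) ∧ γ 1 ∈ R) : LocUp K h r := by
  right
  intro U hU
  obtain ⟨N, hN, R, hR, hRU, hpath⟩ := H U hU
  choose! γ hγc hγ0 hγ hγ1 using hpath
  refine ⟨N, hN, R ∪ ⋃ x ∈ N ∩ (K ∩ {x | h x ≤ h r}), γ x '' Ioc 0 1, ?_, ?_, ?_⟩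
  · rcases R.eq_empty_or_nonempty with hE | ⟨x₀, hx₀⟩
    · have h1 : N ∩ (K ∩ {x | h x ≤ h r}) = ∅ := by
        rw [Set.eq_empty_iff_forall_notMem]
        intro x hx
        have h2 := hγ1 x hx
        rw [hE] at h2
        exact h2
      rw [h1, hE]
      simpa using isPreconnected_empty
    · refine isPreconnected_of_forall x₀ fun y hy => ?_
      rcases hy with hy | hy
      · exact ⟨R, subset_union_left, hx₀, hy, hR⟩
      · simp only [mem_iUnion] at hy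
        obtain ⟨x, hx, hxy⟩ := hy
        refine ⟨R ∪ γ x '' Ioc 0 1, union_subset_union_right _ ?_, Or.inl hx₀, Or.inr hxy, ?_⟩
        · exact subset_biUnion_of_mem (u := fun x => γ x '' Ioc 0 1) hx
        · refine IsPreconnected.union (γ x 1) (hγ1 x hx) ⟨1, ⟨zero_lt_one, le_rfl⟩, rfl⟩ hR ?_
          exact isPreconnected_Ioc.image _ (hγc x hx).continuousOn
  · refine union_subset hRU ?_
    simp only [iUnion_subset_iff]
    rintro x hx y ⟨s, hs, rfl⟩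
    exact hγ x hx s hs
  · intro x hx
    have h1 : γ x 0 ∈ closure (γ x '' Ioc 0 1) := by
      refine image_closure_subset_closure_image (hγc x hx) ⟨0, ?_, rfl⟩
      rw [closure_Ioc zero_ne_one]
      exact ⟨le_rfl, zero_le_one⟩
    rw [hγ0 x hx] at h1
    refine closure_mono ?_ h1
    exact (subset_biUnion_of_mem (u := fun x => γ x '' Ioc 0 1) hx).trans subset_union_right

/-- Interior points. -/
theorem locUp_int {f : V → ℝ} (hf : Continuous f) {e : V} (he : ‖e‖ = 1) {r : V} (hr : f r < 0) :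
    LocUp {x | f x ≤ 0} (fun x => ⟪e, x⟫) r := by
  apply locUp_of_fan
  intro U hU
  obtain ⟨ρ, hρ, hρU⟩ := Metric.mem_nhds_iff.1
    (Filter.inter_mem hU ((isOpen_lt hf continuous_const).mem_nhds hr))
  have hee : ⟪e, e⟫ = (1 : ℝ) := by rw [real_inner_self_eq_norm_sq, he, one_pow]
  refine ⟨Metric.ball r ρ, Metric.ball_mem_nhds r hρ, Metric.ball r ρ ∩ {x | ⟪e, x⟫ < ⟪e, r⟫},
    ?_, ?_, ?_⟩
  · refine ((convex_ball r ρ).inter ?_).isPreconnected
    exact convex_halfSpace_lt (f := fun x : V => (⟪e, x⟫ : ℝ))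
      ⟨fun x y => inner_add_right _ _ _, fun c x => inner_smul_right _ _ _⟩ _
  · rintro x ⟨h1, h2⟩
    exact ⟨(hρU h1).1, le_of_lt (show f x < 0 from (hρU h1).2), h2⟩
  · rintro x ⟨h1, h2, h3⟩
    have h1' : ‖x - r‖ < ρ := by rwa [mem_ball_iff_norm] at h1
    obtain ⟨δ, hδ, hδρ⟩ : ∃ δ : ℝ, 0 < δ ∧ ‖x - r‖ + δ < ρ :=
      ⟨(ρ - ‖x - r‖) / 2, by linarith, by linarith⟩
    have key : ∀ s ∈ Ioc (0 : ℝ) 1, x - (s * δ) • e ∈
        Metric.ball r ρ ∩ {x | ⟪e, x⟫ < ⟪e, r⟫} := by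
      intro s hs
      have hs0 := hs.1
      have hsδ : 0 < s * δ := mul_pos hs0 hδ
      refine ⟨?_, ?_⟩
      · rw [mem_ball_iff_norm]
        calc ‖x - (s * δ) • e - r‖ = ‖(x - r) - (s * δ) • e‖ := by congr 1; abel
          _ ≤ ‖x - r‖ + ‖(s * δ) • e‖ := norm_sub_le _ _
          _ = ‖x - r‖ + s * δ := by rw [norm_smul, he, mul_one, Real.norm_of_nonneg hsδ.le]
          _ ≤ ‖x - r‖ + δ := by nlinarith [hs.2]
          _ < ρ := hδρ
      · show ⟪e, x - (s * δ) • e⟫ < ⟪e, r⟫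
        rw [inner_sub_right, inner_smul_right, hee]
        have : ⟪e, x⟫ ≤ ⟪e, r⟫ := h3
        linarith
    refine ⟨fun s => x - (s * δ) • e, by fun_prop, by simp, fun s hs => ?_, key 1 ⟨one_pos, le_rfl⟩⟩
    have h4 := key s hs
    exact ⟨(hρU h4.1).1, le_of_lt (show f _ < 0 from (hρU h4.1).2), h4.2⟩

/-- Free zeros. -/
theorem locUp_free {f : V → ℝ} (hf : Continuous f) {e : V} (he : ‖e‖ = 1) {r : V} (hr : f r = 0)
    (hfree : FreeAt f e r) : LocUp {x | f x ≤ 0} (fun x => ⟪e, x⟫) r := by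
  obtain ⟨v, hv, hev⟩ := hfree
  obtain ⟨c, hc, d, hd, hdrop⟩ := hv.unif
  apply locUp_of_fan
  intro U hU
  obtain ⟨ρ₀, hρ₀, hρU⟩ := Metric.mem_nhds_iff.1 hU
  -- the length of the paths
  obtain ⟨τ, hτ, hτd, hτρ⟩ : ∃ τ : ℝ, 0 < τ ∧ τ < d ∧ τ * ‖v‖ < ρ₀ / 2 := by
    refine ⟨min (d / 2) (ρ₀ / (4 * (‖v‖ + 1))), by positivity,
      (min_le_left _ _).trans_lt (by linarith), ?_⟩
    have h1 : min (d / 2) (ρ₀ / (4 * (‖v‖ + 1))) * ‖v‖ ≤ ρ₀ / (4 * (‖v‖ + 1)) * (‖v‖ + 1) :=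
      mul_le_mul (min_le_right _ _) (by linarith) (norm_nonneg _) (by positivity)
    have h2 : ρ₀ / (4 * (‖v‖ + 1)) * (‖v‖ + 1) = ρ₀ / 4 := by
      have : ‖v‖ + 1 ≠ 0 := by positivity
      field_simp
    linarith
  have hcτ : 0 < c * τ := mul_pos hc hτ
  have hfn : {x | f x < c * τ} ∈ 𝓝 r := (isOpen_lt hf continuous_const).mem_nhds (by
    show f r < c * τ
    rw [hr]
    exact hcτ)
  obtain ⟨ρ₁, hρ₁, hρ₁f⟩ := Metric.mem_nhds_iff.1 hfn
  have hτe : 0 < -(τ * ⟪e, v⟫) := by nlinarith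
  obtain ⟨ρ, hρ, a1, a2, a3, a4⟩ : ∃ ρ : ℝ, 0 < ρ ∧ ρ < ρ₀ / 2 ∧ ρ < d ∧ ρ ≤ ρ₁ ∧
      ρ < -(τ * ⟪e, v⟫) := by
    refine ⟨min (ρ₀ / 4) (min (d / 2) (min ρ₁ (-(τ * ⟪e, v⟫) / 2))), by positivity, ?_, ?_, ?_, ?_⟩
    · exact (min_le_left _ _).trans_lt (by linarith)
    · exact ((min_le_right _ _).trans (min_le_left _ _)).trans_lt (by linarith)
    · exact (min_le_right _ _).trans ((min_le_right _ _).trans (min_le_left _ _))
    · exact ((min_le_right _ _).trans ((min_le_right _ _).trans (min_le_right _ _))).trans_lt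
        (by linarith)
  have hin : ∀ x : V, ‖x - r‖ < ρ → |⟪e, x⟫ - ⟪e, r⟫| < ρ := by
    intro x hx
    have h1 := abs_real_inner_le_norm e (x - r)
    rw [he, one_mul, inner_sub_right] at h1
    exact h1.trans_lt hx
  have hR : ∀ x : V, ‖x - r‖ < ρ → x + τ • v ∈ U ∩ ({x | f x ≤ 0} ∩ {x | ⟪e, x⟫ < ⟪e, r⟫}) := by
    intro x hx
    refine ⟨hρU ?_, ?_, ?_⟩
    · rw [mem_ball_iff_norm]
      calc ‖x + τ • v - r‖ = ‖(x - r) + τ • v‖ := by congr 1; abel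
        _ ≤ ‖x - r‖ + ‖τ • v‖ := norm_add_le _ _
        _ = ‖x - r‖ + τ * ‖v‖ := by rw [norm_smul, Real.norm_of_nonneg hτ.le]
        _ < ρ₀ := by linarith
    · have h1 := hdrop x (hx.trans a2) v (by simpa using hd) τ hτ hτd
      have h2 : f x < c * τ := hρ₁f (by
        rw [mem_ball_iff_norm]
        exact hx.trans_le a3)
      show f (x + τ • v) ≤ 0
      linarith
    · show ⟪e, x + τ • v⟫ < ⟪e, r⟫
      rw [inner_add_right, inner_smul_right]
      have := (abs_lt.1 (hin x hx)).2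
      linarith
  refine ⟨Metric.ball r ρ, Metric.ball_mem_nhds r hρ, (fun x => x + τ • v) '' Metric.ball r ρ,
    (convex_ball r ρ).isPreconnected.image _ (by fun_prop), ?_, ?_⟩
  · rintro y ⟨x, hx, rfl⟩
    exact hR x (by rwa [mem_ball_iff_norm] at hx)
  · rintro x ⟨h1, h2, h3⟩
    have h1' : ‖x - r‖ < ρ := by rwa [mem_ball_iff_norm] at h1
    refine ⟨fun s => x + (s * τ) • v, by fun_prop, by simp, fun s hs => ?_,
      ⟨x, h1, by simp⟩⟩
    have hs0 : 0 < s * τ := mul_pos hs.1 hτ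
    have hs1 : s * τ ≤ τ := by nlinarith [hs.2]
    refine ⟨hρU ?_, ?_, ?_⟩
    · rw [mem_ball_iff_norm]
      have h5 : s * τ * ‖v‖ ≤ τ * ‖v‖ := mul_le_mul_of_nonneg_right hs1 (norm_nonneg _)
      calc ‖x + (s * τ) • v - r‖ = ‖(x - r) + (s * τ) • v‖ := by congr 1; abel
        _ ≤ ‖x - r‖ + ‖(s * τ) • v‖ := norm_add_le _ _
        _ = ‖x - r‖ + s * τ * ‖v‖ := by rw [norm_smul, Real.norm_of_nonneg hs0.le]
        _ < ρ₀ := by linarith
    · have h4 := hdrop x (h1'.trans a2) v (by simpa using hd) (s * τ) hs0 (hs1.trans_lt hτd)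
      have h5 : f x ≤ 0 := h2
      have h6 : 0 < c * (s * τ) := mul_pos hc hs0
      show f (x + (s * τ) • v) ≤ 0
      linarith
    · show ⟪e, x + (s * τ) • v⟫ < ⟪e, r⟫
      rw [inner_add_right, inner_smul_right]
      have h6 : s * τ * ⟪e, v⟫ < 0 := mul_neg_of_pos_of_neg hs0 hev
      have : ⟪e, x⟫ ≤ ⟪e, r⟫ := h3
      linarith

end Pool.Schoen
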