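import Pool.Agent.H.MP_6c077c_gt.Wn.Local

/-! The local property from below at the inward points: births, zeros with a plane of negative
curvature. -/

set_option autoImplicit false

namespace Pool.Schoen

open Filter Set
open scoped Topology RealInnerProductSpace ContDiff

variable {V : Type*} [NormedAddCommGroup V] [InnerProductSpace ℝ V] [FiniteDimensional ℝ V]

/-- Births: inward points with positive second derivative. -/
theorem locUp_birth {f : V → ℝ} {e : V} (he : ‖e‖ = 1) {r : V} (hsm : ContDiffAt ℝ 2 f r)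
    (hr : f r = 0) {μ : ℝ} (hμ : 0 < μ) (hgr : ∀ v, fderiv ℝ f r v = -(μ * ⟪e, v⟫))
    (hpos : ∀ w, ⟪e, w⟫ = 0 → w ≠ 0 → 0 < fderiv ℝ (fderiv ℝ f) r w w) :
    ∃ N ∈ 𝓝 r, N ∩ ({x | f x ≤ 0} ∩ {x | ⟪e, x⟫ ≤ ⟪e, r⟫}) ⊆ {r} := by
  obtain ⟨β, hβ, hβD⟩ := pos_form_orth _ hpos
  have hsym : ∀ w w' : V, fderiv ℝ (fderiv ℝ f) r w w' = fderiv ℝ (fderiv ℝ f) r w' w :=
    hsm.isSymmSndFDerivAt (by simp)
  obtain ⟨ρ₀, hρ₀, htay⟩ := taylor_two hsm (κ := β / 4) (by positivity)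
  obtain ⟨C, hC⟩ : ∃ C : ℝ, C = ‖fderiv ℝ (fderiv ℝ f) r‖ := ⟨_, rfl⟩
  have hC0 : 0 ≤ C := by
    rw [hC]
    exact norm_nonneg (fderiv ℝ (fderiv ℝ f) r)
  have hee : ⟪e, e⟫ = (1 : ℝ) := by rw [real_inner_self_eq_norm_sq, he, one_pow]
  obtain ⟨ρ, hρ, hρρ₀, hρC⟩ : ∃ ρ : ℝ, 0 < ρ ∧ ρ ≤ ρ₀ ∧ ρ * (2 * C + β / 4) < μ := by
    refine ⟨min ρ₀ (μ / (2 * (2 * C + β / 4))), by positivity, min_le_left _ _, ?_⟩
    have h1 : 0 < 2 * C + β / 4 := by positivity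
    calc min ρ₀ (μ / (2 * (2 * C + β / 4))) * (2 * C + β / 4)
        ≤ μ / (2 * (2 * C + β / 4)) * (2 * C + β / 4) :=
          mul_le_mul_of_nonneg_right (min_le_right _ _) h1.le
      _ = μ / 2 := by field_simp
      _ < μ := by linarith
  refine ⟨Metric.ball r ρ, Metric.ball_mem_nhds r hρ, ?_⟩
  rintro x ⟨h1, h2, h3⟩
  have hx : ‖x - r‖ < ρ := by rwa [mem_ball_iff_norm] at h1
  have h2' : f x ≤ 0 := h2
  have h3' : ⟪e, x⟫ ≤ ⟪e, r⟫ := h3
  obtain ⟨-, -, h4⟩ := htay x (hx.trans_le hρρ₀)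
  obtain ⟨t, ht⟩ : ∃ t : ℝ, t = ⟪e, r⟫ - ⟪e, x⟫ := ⟨_, rfl⟩
  have ht0 : 0 ≤ t := by rw [ht]; linarith
  obtain ⟨w, hw⟩ : ∃ w : V, w = (x - r) + t • e := ⟨_, rfl⟩
  have hxr : x - r = w - t • e := by rw [hw]; abel
  have hew : ⟪e, w⟫ = 0 := by
    rw [hw, inner_add_right, inner_sub_right, inner_smul_right, hee, ht]
    ring
  have hnorm : ‖x - r‖ ^ 2 = ‖w‖ ^ 2 + t ^ 2 := by
    have hwe : ⟪w, e⟫ = 0 := by rw [real_inner_comm]; exact hew
    rw [hxr, norm_sub_sq_real, inner_smul_right, hwe, norm_smul, he]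
    simp
  have hwρ : ‖w‖ < ρ := by
    have h5 : ‖w‖ ^ 2 ≤ ‖x - r‖ ^ 2 := by rw [hnorm]; nlinarith
    exact (abs_le_of_sq_le_sq' h5 (norm_nonneg _)).2.trans_lt hx
  have htρ : t < ρ := by
    have h5 : t ^ 2 ≤ ‖x - r‖ ^ 2 := by rw [hnorm]; nlinarith [norm_nonneg w]
    exact (abs_le_of_sq_le_sq' h5 (norm_nonneg _)).2.trans_lt hx
  -- the second derivative
  set D := fderiv ℝ (fderiv ℝ f) r with hD
  have hDb : ∀ a b : V, |D a b| ≤ C * (‖a‖ * ‖b‖) := by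
    intro a b
    have h5 := D.le_opNorm₂ a b
    rw [Real.norm_eq_abs, ← hC] at h5
    linarith [mul_assoc C ‖a‖ ‖b‖]
  have hexp : D (x - r) (x - r) = D w w - 2 * (t * D w e) + t ^ 2 * D e e := by
    rw [hxr]
    simp only [map_sub, map_smul, _root_.sub_apply, _root_.smul_apply, smul_eq_mul]
    rw [hsym e w]
    ring
  have h5 := hβD w hew
  have h6 : |D w e| ≤ C * ρ := by
    have h7 := hDb w e
    rw [he, mul_one] at h7
    exact h7.trans (mul_le_mul_of_nonneg_left hwρ.le hC0)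
  have h7 : |D e e| ≤ C := by
    have h8 := hDb e e
    rwa [he, mul_one, mul_one] at h8
  have h8 : fderiv ℝ f r (x - r) = μ * t := by
    rw [hgr, inner_sub_right, ht]
    ring
  have h9 := (abs_le.1 h4).1
  rw [hr, h8, hexp, hnorm] at h9
  -- conclusion
  have h10 : t * D w e ≤ t * (C * ρ) := mul_le_mul_of_nonneg_left ((abs_le.1 h6).2) ht0
  have h11 : -(t * (ρ * C)) ≤ t ^ 2 * D e e := by
    have h12 : -C ≤ D e e := (abs_le.1 h7).1
    have h13 : t ^ 2 * -C ≤ t ^ 2 * D e e := mul_le_mul_of_nonneg_left h12 (sq_nonneg t)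
    have h14 : t * t * C ≤ t * ρ * C :=
      mul_le_mul_of_nonneg_right (mul_le_mul_of_nonneg_left htρ.le ht0) hC0
    nlinarith
  have h12 : t * t * (β / 4) ≤ t * ρ * (β / 4) :=
    mul_le_mul_of_nonneg_right (mul_le_mul_of_nonneg_left htρ.le ht0) (by positivity)
  have h13a : 0 ≤ t * (ρ * C) := by positivity
  have h13 : t * (μ - ρ * (2 * C + β / 4)) + β / 4 * ‖w‖ ^ 2 ≤ 0 := by
    have e1 : t * (μ - ρ * (2 * C + β / 4)) = μ * t - 2 * (t * (ρ * C)) - t * ρ * (β / 4) := by ring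
    have e2 : t * (C * ρ) = t * (ρ * C) := by ring
    have e3 : t * t * (β / 4) = β / 4 * t ^ 2 := by ring
    rw [e2] at h10
    rw [e3] at h12
    rw [e1]
    linarith
  have h14 : 0 ≤ t * (μ - ρ * (2 * C + β / 4)) := mul_nonneg ht0 (by linarith)
  have h15 : 0 ≤ β / 4 * ‖w‖ ^ 2 := by positivity
  have h16 : t * (μ - ρ * (2 * C + β / 4)) = 0 := by linarith
  have h17 : β / 4 * ‖w‖ ^ 2 = 0 := by linarith
  have ht1 : t = 0 := by
    rcases mul_eq_zero.1 h16 with h18 | h18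
    · exact h18
    · linarith
  have hw1 : ‖w‖ ^ 2 = 0 := by
    rcases mul_eq_zero.1 h17 with h18 | h18
    · linarith
    · exact h18
  have h18 : ‖x - r‖ ^ 2 = 0 := by rw [hnorm, hw1, ht1]; ring
  have h19 : x - r = 0 := by
    rw [← norm_eq_zero]
    exact pow_eq_zero_iff (two_ne_zero) |>.1 h18
  exact sub_eq_zero.1 h19

omit [FiniteDimensional ℝ V] in
/-- The main estimate: the derivative along the path `s ↦ x + s ρ u - s ^ 2 κ₀ ρ ^ 2 e`. -/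
theorem plane_est {D : V →L[ℝ] V →L[ℝ] ℝ} {L Lx : V →L[ℝ] ℝ} {e u : V} {β C μ κ₀ ρ s : ℝ}
    (he : ‖e‖ = 1) (hu : ‖u‖ = 1) (hβ : 0 < β) (hC : ‖D‖ ≤ C) (hμ : 0 < μ)
    (hκ₀ : 0 < κ₀) (hκμ : 4 * κ₀ * μ ≤ β / 4) (hρ : 0 < ρ) (h1 : κ₀ * ρ ≤ 1)
    (h2 : 3 * C * κ₀ * ρ ≤ β / 8) (hs : 0 < s) (hs1 : s ≤ 1) (hDu : D u u ≤ -β)
    (hLu : Lx u ≤ 0) (hLe : |Lx e| ≤ 2 * μ)
    (hL : ‖L - Lx - D ((s * ρ) • u - (s ^ 2 * (κ₀ * ρ ^ 2)) • e)‖ ≤
      β / 48 * ‖(s * ρ) • u - (s ^ 2 * (κ₀ * ρ ^ 2)) • e‖) :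
    L (ρ • u - (2 * s * (κ₀ * ρ ^ 2)) • e) < 0 := by
  have hC0 : 0 ≤ C := (norm_nonneg D).trans hC
  have hDb : ∀ a b : V, |D a b| ≤ C * (‖a‖ * ‖b‖) := by
    intro a b
    have h5 := D.le_opNorm₂ a b
    rw [Real.norm_eq_abs] at h5
    have h6 : ‖D‖ * ‖a‖ * ‖b‖ ≤ C * ‖a‖ * ‖b‖ :=
      mul_le_mul_of_nonneg_right (mul_le_mul_of_nonneg_right hC (norm_nonneg _)) (norm_nonneg _)
    linarith [mul_assoc C ‖a‖ ‖b‖]
  have hue : |D u e| ≤ C := by
    have := hDb u e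
    rwa [he, hu, mul_one, mul_one] at this
  have heu : |D e u| ≤ C := by
    have := hDb e u
    rwa [he, hu, mul_one, mul_one] at this
  have hee : |D e e| ≤ C := by
    have := hDb e e
    rwa [he, mul_one, mul_one] at this
  obtain ⟨κ, hκ⟩ : ∃ κ : ℝ, κ = κ₀ * ρ ^ 2 := ⟨_, rfl⟩
  have hκ0 : 0 < κ := by rw [hκ]; positivity
  have hκρ : κ ≤ ρ := by
    rw [hκ]
    nlinarith
  rw [← hκ] at hL ⊢
  obtain ⟨a, ha⟩ : ∃ a : V, a = (s * ρ) • u - (s ^ 2 * κ) • e := ⟨_, rfl⟩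
  obtain ⟨b, hb⟩ : ∃ b : V, b = ρ • u - (2 * s * κ) • e := ⟨_, rfl⟩
  rw [← ha] at hL
  rw [← hb]
  have hna : ‖a‖ ≤ 2 * (s * ρ) := by
    rw [ha]
    refine (norm_sub_le _ _).trans ?_
    rw [norm_smul, norm_smul, he, hu, mul_one, mul_one, Real.norm_of_nonneg (by positivity),
      Real.norm_of_nonneg (by positivity)]
    have h3 : s ^ 2 * κ ≤ s * ρ := by
      have h4 : s ^ 2 ≤ s := by nlinarith
      calc s ^ 2 * κ ≤ s * κ := mul_le_mul_of_nonneg_right h4 hκ0.le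
        _ ≤ s * ρ := mul_le_mul_of_nonneg_left hκρ hs.le
    linarith
  have hnb : ‖b‖ ≤ 3 * ρ := by
    rw [hb]
    refine (norm_sub_le _ _).trans ?_
    rw [norm_smul, norm_smul, he, hu, mul_one, mul_one, Real.norm_of_nonneg hρ.le,
      Real.norm_of_nonneg (by positivity)]
    have h3 : 2 * s * κ ≤ 2 * ρ := by
      calc 2 * s * κ ≤ 2 * 1 * κ := by
            refine mul_le_mul_of_nonneg_right ?_ hκ0.le
            linarith
        _ ≤ 2 * ρ := by linarith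
    linarith
  have h3 : L b = Lx b + D a b + (L - Lx - D a) b := by
    simp only [_root_.sub_apply]
    ring
  have h4 : |(L - Lx - D a) b| ≤ β / 8 * (s * ρ ^ 2) := by
    have h5 := (L - Lx - D a).le_opNorm b
    rw [Real.norm_eq_abs] at h5
    refine h5.trans ?_
    calc ‖L - Lx - D a‖ * ‖b‖ ≤ (β / 48 * (2 * (s * ρ))) * (3 * ρ) := by
          refine mul_le_mul (hL.trans ?_) hnb (norm_nonneg _) (by positivity)
          exact mul_le_mul_of_nonneg_left hna (by positivity)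
      _ = β / 8 * (s * ρ ^ 2) := by ring
  have h5 : Lx b ≤ β / 4 * (s * ρ ^ 2) := by
    have h6 : Lx b = ρ * Lx u - 2 * s * κ * Lx e := by
      rw [hb]
      simp only [map_sub, map_smul, smul_eq_mul]
    have h7 : ρ * Lx u ≤ 0 := mul_nonpos_of_nonneg_of_nonpos hρ.le hLu
    have h8 : -(2 * s * κ * Lx e) ≤ 2 * s * κ * (2 * μ) := by
      have h9 : -Lx e ≤ 2 * μ := by linarith [(abs_le.1 hLe).1]
      have h10 : 0 ≤ 2 * s * κ := by positivity
      nlinarith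
    have h9 : 2 * s * κ * (2 * μ) ≤ β / 4 * (s * ρ ^ 2) := by
      have h10 : 2 * s * κ * (2 * μ) = 4 * κ₀ * μ * (s * ρ ^ 2) := by rw [hκ]; ring
      rw [h10]
      exact mul_le_mul_of_nonneg_right hκμ (by positivity)
    linarith
  have h6 : D a b ≤ -(β * (s * ρ ^ 2)) + β / 8 * (s * ρ ^ 2) + β / 8 * (s * ρ ^ 2) := by
    have h7 : D a b = s * ρ ^ 2 * D u u - 2 * s ^ 2 * ρ * κ * D u e - s ^ 2 * κ * ρ * D e u +
        2 * s ^ 3 * κ ^ 2 * D e e := by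
      rw [ha, hb]
      simp only [map_sub, map_smul, _root_.sub_apply, _root_.smul_apply, smul_eq_mul]
      ring
    have h8 : s * ρ ^ 2 * D u u ≤ s * ρ ^ 2 * -β := mul_le_mul_of_nonneg_left hDu (by positivity)
    have hss : s ^ 2 ≤ s := by nlinarith
    have hsss : s ^ 3 ≤ s := by nlinarith [mul_pos hs hs]
    have h9 : -(2 * s ^ 2 * ρ * κ * D u e) ≤ 2 * s * ρ * κ * C := by
      have h10 : -(D u e) ≤ C := by linarith [(abs_le.1 hue).1]
      calc -(2 * s ^ 2 * ρ * κ * D u e) = 2 * s ^ 2 * ρ * κ * -(D u e) := by ring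
        _ ≤ 2 * s ^ 2 * ρ * κ * C := mul_le_mul_of_nonneg_left h10 (by positivity)
        _ = s ^ 2 * (2 * ρ * κ * C) := by ring
        _ ≤ s * (2 * ρ * κ * C) := mul_le_mul_of_nonneg_right hss (by positivity)
        _ = 2 * s * ρ * κ * C := by ring
    have h10 : -(s ^ 2 * κ * ρ * D e u) ≤ s * ρ * κ * C := by
      have h11 : -(D e u) ≤ C := by linarith [(abs_le.1 heu).1]
      calc -(s ^ 2 * κ * ρ * D e u) = s ^ 2 * κ * ρ * -(D e u) := by ring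
        _ ≤ s ^ 2 * κ * ρ * C := mul_le_mul_of_nonneg_left h11 (by positivity)
        _ = s ^ 2 * (ρ * κ * C) := by ring
        _ ≤ s * (ρ * κ * C) := mul_le_mul_of_nonneg_right hss (by positivity)
        _ = s * ρ * κ * C := by ring
    have h11 : 2 * s ^ 3 * κ ^ 2 * D e e ≤ 3 * s * ρ * κ * C := by
      calc 2 * s ^ 3 * κ ^ 2 * D e e ≤ 2 * s ^ 3 * κ ^ 2 * C :=
            mul_le_mul_of_nonneg_left (abs_le.1 hee).2 (by positivity)
        _ = s ^ 3 * (2 * κ ^ 2 * C) := by ring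
        _ ≤ s * (2 * κ ^ 2 * C) := mul_le_mul_of_nonneg_right hsss (by positivity)
        _ = (2 * s * κ * C) * κ := by ring
        _ ≤ (2 * s * κ * C) * ρ := mul_le_mul_of_nonneg_left hκρ (by positivity)
        _ ≤ 3 * s * ρ * κ * C := by
            have h12 : 0 ≤ s * ρ * κ * C := by positivity
            have e1 : (2 * s * κ * C) * ρ = 2 * (s * ρ * κ * C) := by ring
            have e2 : 3 * s * ρ * κ * C = 3 * (s * ρ * κ * C) := by ring
            rw [e1, e2]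
            linarith
    have h12 : 3 * s * ρ * κ * C ≤ β / 8 * (s * ρ ^ 2) := by
      have h13 : 3 * s * ρ * κ * C = 3 * C * κ₀ * ρ * (s * ρ ^ 2) := by rw [hκ]; ring
      rw [h13]
      exact mul_le_mul_of_nonneg_right h2 (by positivity)
    linarith
  have h7 := (abs_le.1 h4).2
  have h8 : 0 < β * (s * ρ ^ 2) := by positivity
  rw [h3]
  linarith

/-- Zeros with a plane of negative curvature. -/
theorem locUp_plane {f : V → ℝ} (hf : Continuous f) {e : V} (he : ‖e‖ = 1) {r : V}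
    (hsm : ContDiffAt ℝ 2 f r) (hr : f r = 0) {μ : ℝ} (hμ : 0 < μ)
    (hgr : ∀ v, fderiv ℝ f r v = -(μ * ⟪e, v⟫)) (htn : TwoNeg f r) :
    LocUp {x | f x ≤ 0} (fun x => ⟪e, x⟫) r := by
  obtain ⟨P, hP2, hP⟩ := htn
  have : ProperSpace V := FiniteDimensional.proper ℝ V
  -- the circle
  obtain ⟨S, hS⟩ : ∃ S : Set V, S = {u | u ∈ P ∧ ‖u‖ = 1} := ⟨_, rfl⟩
  have hSne0 : ∀ u ∈ S, u ≠ 0 := by
    intro u hu h0
    rw [hS] at hu
    rw [h0] at hu
    simpa using hu.2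
  have hScl : IsClosed S := by
    rw [hS]
    exact (Submodule.closed_of_finiteDimensional P).inter (isClosed_eq continuous_norm
      continuous_const)
  have hSc : IsCompact S := by
    refine Metric.isCompact_of_isClosed_isBounded hScl ?_
    refine (Metric.isBounded_closedBall (x := (0 : V)) (r := 1)).subset fun u hu => ?_
    rw [hS] at hu
    rw [mem_closedBall_zero_iff]
    exact hu.2.le
  have hSconn : IsConnected S := by
    have h1 : 1 < Module.rank ℝ P := by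
      rw [← Module.finrank_eq_rank, hP2]
      norm_num
    have h2 := isConnected_sphere h1 (0 : P) (zero_le_one' ℝ)
    have h3 : S = Subtype.val '' Metric.sphere (0 : P) 1 := by
      rw [hS]
      ext u
      constructor
      · rintro ⟨h4, h5⟩
        refine ⟨⟨u, h4⟩, ?_, rfl⟩
        rw [mem_sphere_zero_iff_norm]
        exact h5
      · rintro ⟨⟨w, hw⟩, h4, rfl⟩
        rw [mem_sphere_zero_iff_norm] at h4
        exact ⟨hw, h4⟩
    rw [h3]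
    exact h2.image _ continuous_subtype_val.continuousOn
  obtain ⟨D, hD⟩ : ∃ D : V →L[ℝ] V →L[ℝ] ℝ, D = fderiv ℝ (fderiv ℝ f) r := ⟨_, rfl⟩
  obtain ⟨β, hβ, hβD⟩ : ∃ β : ℝ, 0 < β ∧ ∀ u ∈ S, D u u ≤ -β := by
    have hcD : Continuous fun u : V => -(D u u) :=
      (D.continuous.clm_apply continuous_id).neg
    obtain ⟨u₀, hu₀, hmin⟩ := hSc.exists_isMinOn hSconn.nonempty hcD.continuousOn
    have h1 := (hP u₀ (by rw [hS] at hu₀; exact hu₀.1) (hSne0 u₀ hu₀)).2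
    rw [← hD] at h1
    refine ⟨-(D u₀ u₀), by linarith, fun u hu => ?_⟩
    have h2 : -(D u₀ u₀) ≤ -(D u u) := hmin hu
    linarith
  obtain ⟨C, hC⟩ : ∃ C : ℝ, C = ‖D‖ := ⟨_, rfl⟩
  have hC0 : 0 ≤ C := by
    rw [hC]
    exact norm_nonneg D
  have heu : ∀ u ∈ S, ⟪e, u⟫ = 0 := by
    intro u hu
    have h1 := (hP u (by rw [hS] at hu; exact hu.1) (hSne0 u hu)).1
    rw [hgr] at h1
    have h2 : μ * ⟪e, u⟫ = 0 := by linarith
    rcases mul_eq_zero.1 h2 with h3 | h3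
    · exact absurd h3 hμ.ne'
    · exact h3
  have hee : ⟪e, e⟫ = (1 : ℝ) := by rw [real_inner_self_eq_norm_sq, he, one_pow]
  -- strict differentiability of the derivative
  have hLs : HasStrictFDerivAt (fderiv ℝ f) D r := by
    rw [hD]
    exact (hsm.fderiv_right (m := 1) (by norm_num)).hasStrictFDerivAt (by simp)
  have hLo := hLs.isLittleO.def (show 0 < β / 48 by positivity)
  rw [Metric.eventually_nhds_iff] at hLo
  obtain ⟨d₁, hd₁, hL⟩ := hLo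
  have hsmE : ∀ᶠ x in 𝓝 r, ContDiffAt ℝ 2 f x ∧ |fderiv ℝ f x e| ≤ 2 * μ := by
    have h1 : ∀ᶠ x in 𝓝 r, ContDiffAt ℝ 2 f x := hsm.eventually (by simp)
    have h2 : ContinuousAt (fun x => fderiv ℝ f x e) r :=
      hLs.continuousAt.clm_apply continuousAt_const
    have h3 : |fderiv ℝ f r e| < 2 * μ := by
      rw [hgr, hee, mul_one, abs_neg, abs_of_pos hμ]
      linarith
    filter_upwards [h1, h2.abs.eventually_lt_const h3] with x h4 h5
    exact ⟨h4, le_of_lt h5⟩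
  obtain ⟨d₂, hd₂, hsmd⟩ := Metric.eventually_nhds_iff.1 hsmE
  apply locUp_of_fan
  intro U hU
  obtain ⟨d₃, hd₃, hd₃U⟩ := Metric.mem_nhds_iff.1 hU
  obtain ⟨κ₀, hκ₀⟩ : ∃ κ₀ : ℝ, κ₀ = β / (16 * μ) := ⟨_, rfl⟩
  have hκ₀0 : 0 < κ₀ := by rw [hκ₀]; positivity
  have hκμ : 4 * κ₀ * μ ≤ β / 4 := by
    rw [hκ₀]
    apply le_of_eq
    field_simp
    ring
  obtain ⟨ρ, hρ, hρ1, hρ2, hρd₁, hρd₂, hρd₃⟩ : ∃ ρ : ℝ, 0 < ρ ∧ κ₀ * ρ ≤ 1 ∧
      3 * C * κ₀ * ρ ≤ β / 8 ∧ 3 * ρ < d₁ ∧ 3 * ρ < d₂ ∧ 3 * ρ < d₃ := by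
    have hcont : Continuous fun ρ : ℝ => κ₀ * ρ := by fun_prop
    have hcont2 : Continuous fun ρ : ℝ => 3 * C * κ₀ * ρ := by fun_prop
    have hcont3 : Continuous fun ρ : ℝ => 3 * ρ := by fun_prop
    have e1 : ∀ᶠ ρ : ℝ in 𝓝 0, κ₀ * ρ < 1 :=
      hcont.continuousAt.eventually_lt_const (by
        show κ₀ * 0 < 1
        rw [mul_zero]
        exact one_pos)
    have e2 : ∀ᶠ ρ : ℝ in 𝓝 0, 3 * C * κ₀ * ρ < β / 8 :=
      hcont2.continuousAt.eventually_lt_const (by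
        show 3 * C * κ₀ * 0 < β / 8
        rw [mul_zero]
        positivity)
    have e3 : ∀ᶠ ρ : ℝ in 𝓝 0, 3 * ρ < min d₁ (min d₂ d₃) :=
      hcont3.continuousAt.eventually_lt_const (by
        show (3 : ℝ) * 0 < min d₁ (min d₂ d₃)
        rw [mul_zero]
        exact lt_min hd₁ (lt_min hd₂ hd₃))
    have e4 : ∀ᶠ ρ : ℝ in 𝓝[>] 0, 0 < ρ := self_mem_nhdsWithin
    obtain ⟨ρ, ⟨⟨h1, h2⟩, h3⟩, h4⟩ :=
      (((e1.and e2).and e3).filter_mono nhdsWithin_le_nhds |>.and e4).exists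
    exact ⟨ρ, h4, h1.le, h2.le, h3.trans_le (min_le_left _ _),
      h3.trans_le ((min_le_right _ _).trans (min_le_left _ _)),
      h3.trans_le ((min_le_right _ _).trans (min_le_right _ _))⟩
  obtain ⟨κ, hκ⟩ : ∃ κ : ℝ, κ = κ₀ * ρ ^ 2 := ⟨_, rfl⟩
  have hκ0 : 0 < κ := by rw [hκ]; positivity
  have hκρ : κ ≤ ρ := by
    rw [hκ]
    nlinarith
  -- the paths
  have hnear : ∀ x u : V, ‖x - r‖ < ρ → ‖u‖ = 1 → ∀ s : ℝ, 0 ≤ s → s ≤ 1 →
      ‖x + ((s * ρ) • u - (s ^ 2 * κ) • e) - r‖ < 3 * ρ := by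
    intro x u hx hu s hs0 hs1
    have h1 : s * ρ ≤ ρ := by nlinarith
    have h2 : s ^ 2 * κ ≤ ρ := by
      have : s ^ 2 ≤ 1 := by nlinarith
      calc s ^ 2 * κ ≤ 1 * κ := mul_le_mul_of_nonneg_right this hκ0.le
        _ ≤ ρ := by linarith
    calc ‖x + ((s * ρ) • u - (s ^ 2 * κ) • e) - r‖
        = ‖(x - r) + ((s * ρ) • u - (s ^ 2 * κ) • e)‖ := by congr 1; abel
      _ ≤ ‖x - r‖ + ‖(s * ρ) • u - (s ^ 2 * κ) • e‖ := norm_add_le _ _
      _ ≤ ‖x - r‖ + (‖(s * ρ) • u‖ + ‖(s ^ 2 * κ) • e‖) := by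
          gcongr
          exact norm_sub_le _ _
      _ = ‖x - r‖ + (s * ρ + s ^ 2 * κ) := by
          rw [norm_smul, norm_smul, he, hu, mul_one, mul_one,
            Real.norm_of_nonneg (by positivity), Real.norm_of_nonneg (by positivity)]
      _ < 3 * ρ := by linarith
  have hpath : ∀ x u : V, ‖x - r‖ < ρ → u ∈ S → fderiv ℝ f x u ≤ 0 → ∀ s ∈ Ioc (0 : ℝ) 1,
      f (x + ((s * ρ) • u - (s ^ 2 * κ) • e)) < f x := by
    intro x u hx hu hxu s hs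
    have hu1 : ‖u‖ = 1 := by rw [hS] at hu; exact hu.2
    have hγ : ∀ s : ℝ, HasDerivAt (fun s : ℝ => x + ((s * ρ) • u - (s ^ 2 * κ) • e))
        (ρ • u - (2 * s * κ) • e) s := by
      intro s
      have h1 : HasDerivAt (fun s : ℝ => s * ρ) ρ s := by
        simpa using (hasDerivAt_id s).mul_const ρ
      have h2 : HasDerivAt (fun s : ℝ => s ^ 2 * κ) (2 * s * κ) s := by
        simpa using (hasDerivAt_pow 2 s).mul_const κ
      exact ((h1.smul_const u).sub (h2.smul_const e)).const_add x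
    have hgd : ∀ s : ℝ, 0 ≤ s → s ≤ 1 →
        HasDerivAt (fun s : ℝ => f (x + ((s * ρ) • u - (s ^ 2 * κ) • e)))
          (fderiv ℝ f (x + ((s * ρ) • u - (s ^ 2 * κ) • e)) (ρ • u - (2 * s * κ) • e)) s := by
      intro s hs0 hs1
      have h1 := (hsmd (y := x + ((s * ρ) • u - (s ^ 2 * κ) • e))
        (by rw [dist_eq_norm]; exact (hnear x u hx hu1 s hs0 hs1).trans hρd₂)).1
      exact ((h1.differentiableAt (by simp)).hasFDerivAt).comp_hasDerivAt s (hγ s)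
    have hanti : StrictAntiOn (fun s : ℝ => f (x + ((s * ρ) • u - (s ^ 2 * κ) • e)))
        (Icc 0 1) := by
      refine strictAntiOn_of_deriv_neg (convex_Icc 0 1)
        (fun s hs => (hgd s hs.1 hs.2).continuousAt.continuousWithinAt) fun s hs => ?_
      rw [interior_Icc] at hs
      rw [(hgd s hs.1.le hs.2.le).deriv]
      have h1 := hL (y := (x + ((s * ρ) • u - (s ^ 2 * κ) • e), x)) (by
        rw [Prod.dist_eq, max_lt_iff]
        refine ⟨?_, ?_⟩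
        · show dist (x + ((s * ρ) • u - (s ^ 2 * κ) • e)) r < d₁
          rw [dist_eq_norm]
          exact (hnear x u hx hu1 s hs.1.le hs.2.le).trans hρd₁
        · show dist x r < d₁
          rw [dist_eq_norm]
          linarith)
      simp only [add_sub_cancel_left] at h1
      have h2 := (hsmd (y := x) (by rw [dist_eq_norm]; linarith)).2
      rw [hκ] at h1 ⊢
      exact plane_est he hu1 hβ hC.ge hμ hκ₀0 hκμ hρ hρ1 hρ2 hs.1 hs.2.le (hβD u hu) hxu h2 h1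
    have h3 := hanti (show (0 : ℝ) ∈ Icc 0 1 from ⟨le_rfl, zero_le_one⟩)
      (show s ∈ Icc (0 : ℝ) 1 from ⟨hs.1.le, hs.2⟩) hs.1
    simpa using h3
  have hheight : ∀ x u : V, u ∈ S → ∀ s : ℝ,
      ⟪e, x + ((s * ρ) • u - (s ^ 2 * κ) • e)⟫ = ⟪e, x⟫ - s ^ 2 * κ := by
    intro x u hu s
    rw [inner_add_right, inner_sub_right, inner_smul_right, inner_smul_right, heu u hu, hee]
    ring
  -- the connected set
  obtain ⟨T, hT⟩ : ∃ T : Set V, T = (fun u => r + (((1 : ℝ) * ρ) • u - ((1 : ℝ) ^ 2 * κ) • e)) '' S :=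
    ⟨_, rfl⟩
  have hTc : IsCompact T := by
    rw [hT]
    exact hSc.image (by fun_prop)
  obtain ⟨O, hO⟩ : ∃ O : Set V, O = Metric.ball r d₃ ∩ ({x | f x < 0} ∩ {x | ⟪e, x⟫ < ⟪e, r⟫}) :=
    ⟨_, rfl⟩
  have hOo : IsOpen O := by
    rw [hO]
    refine Metric.isOpen_ball.inter ((isOpen_lt hf continuous_const).inter
      (isOpen_lt ?_ continuous_const))
    fun_prop
  have hTO : T ⊆ O := by
    rw [hT, hO]
    rintro y ⟨u, hu, rfl⟩
    have hu1 : ‖u‖ = 1 := by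
      have := hu
      rw [hS] at this
      exact this.2
    have hr0 : ‖r - r‖ < ρ := by simpa using hρ
    have hru : fderiv ℝ f r u ≤ 0 := by rw [hgr, heu u hu]; simp
    refine ⟨?_, ?_, ?_⟩
    · rw [mem_ball_iff_norm]
      exact (hnear r u hr0 hu1 1 zero_le_one le_rfl).trans hρd₃
    · have h1 := hpath r u hr0 hu hru 1 ⟨one_pos, le_rfl⟩
      rw [hr] at h1
      exact h1
    · show ⟪e, r + (((1 : ℝ) * ρ) • u - ((1 : ℝ) ^ 2 * κ) • e)⟫ < ⟪e, r⟫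
      rw [hheight r u hu 1]
      linarith
  obtain ⟨δ, hδ, hδO⟩ := hTc.exists_thickening_subset_open hOo hTO
  refine ⟨Metric.ball r (min ρ δ), Metric.ball_mem_nhds r (lt_min hρ hδ),
    (fun q : V × V => r + (((1 : ℝ) * ρ) • q.1 - ((1 : ℝ) ^ 2 * κ) • e) + q.2) ''
      (S ×ˢ Metric.ball (0 : V) δ), ?_, ?_, ?_⟩
  · refine (hSconn.isPreconnected.prod (convex_ball (0 : V) δ).isPreconnected).image _ ?_
    fun_prop
  · rintro y ⟨⟨u, w⟩, ⟨hu, hw⟩, rfl⟩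
    have h1 : r + (((1 : ℝ) * ρ) • u - ((1 : ℝ) ^ 2 * κ) • e) + w ∈ Metric.thickening δ T := by
      rw [Metric.mem_thickening_iff]
      refine ⟨r + (((1 : ℝ) * ρ) • u - ((1 : ℝ) ^ 2 * κ) • e), by rw [hT]; exact ⟨u, hu, rfl⟩, ?_⟩
      rw [dist_eq_norm, add_sub_cancel_left]
      rwa [mem_ball_zero_iff] at hw
    have h2 := hδO h1
    rw [hO] at h2
    exact ⟨hd₃U h2.1, (show f _ < 0 from h2.2.1).le, h2.2.2⟩
  · rintro x ⟨h1, h2, h3⟩
    have hx : ‖x - r‖ < min ρ δ := by rwa [mem_ball_iff_norm] at h1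
    have hxρ : ‖x - r‖ < ρ := hx.trans_le (min_le_left _ _)
    have hxδ : ‖x - r‖ < δ := hx.trans_le (min_le_right _ _)
    obtain ⟨u, hu, hxu⟩ : ∃ u ∈ S, fderiv ℝ f x u ≤ 0 := by
      obtain ⟨u₁, hu₁⟩ := hSconn.nonempty
      rcases le_total (fderiv ℝ f x u₁) 0 with h4 | h4
      · exact ⟨u₁, hu₁, h4⟩
      · refine ⟨-u₁, ?_, by rw [map_neg]; linarith⟩
        rw [hS] at hu₁ ⊢
        exact ⟨P.neg_mem hu₁.1, by rw [norm_neg]; exact hu₁.2⟩
    have hu1 : ‖u‖ = 1 := by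
      have := hu
      rw [hS] at this
      exact this.2
    refine ⟨fun s => x + ((s * ρ) • u - (s ^ 2 * κ) • e), by fun_prop, by simp, fun s hs => ?_, ?_⟩
    · refine ⟨hd₃U ?_, ?_, ?_⟩
      · rw [mem_ball_iff_norm]
        exact (hnear x u hxρ hu1 s hs.1.le hs.2).trans hρd₃
      · have h5 : f x ≤ 0 := h2
        exact ((hpath x u hxρ hu hxu s hs).trans_le h5).le
      · show ⟪e, x + ((s * ρ) • u - (s ^ 2 * κ) • e)⟫ < ⟪e, r⟫
        rw [hheight x u hu s]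
        have h5 : ⟪e, x⟫ ≤ ⟪e, r⟫ := h3
        have h6 : 0 < s ^ 2 * κ := by
          have := hs.1
          positivity
        linarith
    · refine ⟨(u, x - r), ⟨hu, by rwa [mem_ball_zero_iff]⟩, ?_⟩
      show r + (((1 : ℝ) * ρ) • u - ((1 : ℝ) ^ 2 * κ) • e) + (x - r) =
        x + (((1 : ℝ) * ρ) • u - ((1 : ℝ) ^ 2 * κ) • e)
      abel

end Pool.Schoen
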