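import Pool.Agent.H.MP_6c077c_gt.Wn.Cls
import Pool.Agent.H.MP_6c077c_gt.Wn.GModel
import Pool.Agent.H.MP_6c077c_gt.Ph.PStep

/-! The cutting step in the class relative to `F`. -/

set_option autoImplicit false

namespace Pool.Schoen

open Filter Set
open scoped Topology RealInnerProductSpace ContDiff

variable {V : Type*} [NormedAddCommGroup V] [InnerProductSpace ℝ V]

theorem fderiv_height {φ : V → ℝ} {e x : V} (h : φ =ᶠ[𝓝 x] fun y => ⟪e, y⟫) (v : V) :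
    fderiv ℝ φ x v = ⟪e, v⟫ := by
  rw [h.fderiv_eq]
  have h1 : HasFDerivAt (fun y : V => (⟪e, y⟫ : ℝ)) (innerSL ℝ e) x := (innerSL ℝ e).hasFDerivAt
  rw [h1.fderiv]
  rfl

theorem freeP_of_near {f φ : V → ℝ} {e x : V} (h : φ =ᶠ[𝓝 x] fun y => ⟪e, y⟫) :
    FreeP f φ x ↔ FreeAt f e x := by
  constructor
  · rintro ⟨v, hv, hv'⟩
    exact ⟨v, hv, by rwa [fderiv_height h] at hv'⟩
  · rintro ⟨v, hv, hv'⟩
    exact ⟨v, hv, by rwa [fderiv_height h]⟩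

theorem plin_of_near {φ : V → ℝ} {e p : V} (he : ‖e‖ = 1) (h : φ =ᶠ[𝓝 p] fun y => ⟪e, y⟫) :
    ∃ r : ℝ, PLin φ e p 1 r := by
  obtain ⟨r, hr, h1⟩ := Metric.eventually_nhds_iff.1 h
  refine ⟨r, he, one_pos, hr, fun x hx => ?_⟩
  have h2 := h1 (y := x) (by rwa [dist_eq_norm])
  rw [h2, h.self_of_nhds, one_mul, inner_sub_right]

variable [FiniteDimensional ℝ V]

/-- The window function: the height near `E₁`, much lower than the height near `E₂`. -/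
theorem window_fun {e : V} {E₁ E₂ : Set V} (h1 : IsCompact E₁) (h2 : IsCompact E₂)
    (hd : Disjoint E₁ E₂) (T : ℝ) (hT : 0 ≤ T) :
    ∃ φ : V → ℝ, ContDiff ℝ ∞ φ ∧ (∀ x, φ x ≤ ⟪e, x⟫) ∧ (∀ x ∈ E₂, φ x = ⟪e, x⟫ - T) ∧
      ∀ x ∈ E₁, φ =ᶠ[𝓝 x] fun y => ⟪e, y⟫ := by
  obtain ⟨U, W, hU, hW, hEU, hEW, hUW⟩ := SeparatedNhds.of_isCompact_isCompact h1 h2 hd
  have hWU : E₂ ⊆ interior Uᶜ := by
    refine hEW.trans (interior_maximal ?_ hW)
    exact fun x hx hxU => Set.disjoint_left.1 hUW hxU hx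
  obtain ⟨χ, hχ, h3, h4, h5⟩ : ∃ χ : V → ℝ, ContDiff ℝ ∞ χ ∧ (∀ᶠ x in 𝓝ˢ E₂, χ x = 1) ∧
      (∀ x ∉ Uᶜ, χ x = 0) ∧ ∀ x, χ x ∈ Icc (0 : ℝ) 1 := by
    obtain ⟨χ, h1, h2, h3⟩ :=
      exists_contMDiffMap_one_nhds_of_subset_interior (modelWithCornersSelf ℝ V) (n := (⊤ : ℕ∞))
        h2.isClosed (t := Uᶜ) hWU
    exact ⟨χ, χ.contMDiff.contDiff, h1, h2, h3⟩
  have hin : ContDiff ℝ ∞ fun x : V => (⟪e, x⟫ : ℝ) := contDiff_const.inner ℝ contDiff_id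
  refine ⟨fun x => ⟪e, x⟫ - T * χ x, hin.sub (contDiff_const.mul hχ), fun x => ?_, fun x hx => ?_,
    fun x hx => ?_⟩
  · have := mul_nonneg hT (h5 x).1
    show ⟪e, x⟫ - T * χ x ≤ ⟪e, x⟫
    linarith
  · have h6 : χ x = 1 := (h3.filter_mono (nhds_le_nhdsSet hx)).self_of_nhds
    show ⟪e, x⟫ - T * χ x = ⟪e, x⟫ - T
    rw [h6, mul_one]
  · filter_upwards [hU.mem_nhds (hEU hx)] with y hy
    show ⟪e, y⟫ - T * χ y = ⟪e, y⟫
    rw [h4 y (fun h7 => h7 hy), mul_zero, sub_zero]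

/-- **The cutting step.** -/
theorem ZCls.step (hdim : 3 ≤ Module.finrank ℝ V) {F f : V → ℝ} {e : V} {Z : Set V}
    (hF : ContDiff ℝ ∞ F) (he : ‖e‖ = 1) (hnd : ∀ x, Inward F e x → ∃ k, Idx F e x k)
    (hfin : {x | Inward F e x}.Finite) (hZ : ∀ x, F x = 0 → Z ∈ 𝓝 x)
    (hsep : ZSep F e Z) (h : ZCls F e Z f) (hs : PSides f) {p : V} (hp : Inward F e p)
    (hpf : f =ᶠ[𝓝 p] F) (hp1 : Idx F e p 1)
    (htop : ∀ x, Inward F e x → f =ᶠ[𝓝 x] F → Idx F e x 1 → ⟪e, x⟫ ≤ ⟪e, p⟫) :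
    ∃ (A C : V → ℝ) (u q : V) (ℓ : ℝ), ‖u‖ = 1 ∧ ZCls F e Z A ∧ ZCls F e Z C ∧
      PSides A ∧ PSides C ∧ (∀ x, A x ≤ 0 → 0 < C x) ∧ 0 < ℓ ∧
      (∀ᶠ x in 𝓝 q, A x = ⟪u, x - q⟫) ∧
      (∀ᶠ x in 𝓝 (q + ℓ • u), C x = -⟪u, x - (q + ℓ • u)⟫) ∧
      (∀ s ∈ Ioo (0 : ℝ) ℓ, 0 < A (q + s • u) ∧ 0 < C (q + s • u)) ∧
      (∀ᶠ ρ in 𝓝[>] (0 : ℝ), Hom f (fun x => min (min (A x) (C x)) (tau q u ℓ ρ x))) ∧
      (∀ x, Inward F e x → A =ᶠ[𝓝 x] F → f =ᶠ[𝓝 x] F ∧ x ≠ p) ∧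
      (∀ x, Inward F e x → C =ᶠ[𝓝 x] F → f =ᶠ[𝓝 x] F ∧ x ≠ p) := by
  classical
  have hprop : ProperSpace V := FiniteDimensional.proper ℝ V
  have hhc : Continuous fun x : V => (⟪e, x⟫ : ℝ) := by fun_prop
  obtain ⟨c, hcp, E₁, E₂, hE, hpE, hE1⟩ := h.window hF he hnd hfin hsep hp hpf hp1 htop
  have hK : IsCompact {x | f x ≤ 0} := Metric.isCompact_of_isClosed_isBounded
    (isClosed_le h.good.cont continuous_const) h.bdd
  have hE1K : E₁ ⊆ {x | f x ≤ 0} ∩ {x | c ≤ ⟪e, x⟫} := hE.cov ▸ subset_union_left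
  have hE2K : E₂ ⊆ {x | f x ≤ 0} ∩ {x | c ≤ ⟪e, x⟫} := hE.cov ▸ subset_union_right
  have hE1c : IsCompact E₁ := hK.of_isClosed_subset hE.clA fun x hx => (hE1K hx).1
  have hE2c : IsCompact E₂ := hK.of_isClosed_subset hE.clB fun x hx => (hE2K hx).1
  have hin : Inw f e p :=
    (inw_of_idx F hF e p hp 1 le_rfl hp1).congr hpf.symm
  -- the radius
  have hpE2 : p ∉ E₂ := fun h1 => Set.disjoint_left.1 hE.dis hpE h1
  obtain ⟨r₁, hr₁, ha1, ha2, ha3, ha4⟩ : ∃ r₁ : ℝ, 0 < r₁ ∧ (∀ x, ‖x - p‖ ≤ r₁ → x ∈ Z) ∧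
      (∀ x, ‖x - p‖ ≤ r₁ → x ∉ E₂) ∧ (∀ x, ‖x - p‖ ≤ r₁ → c < ⟪e, x⟫) ∧
      ∀ x, Inward F e x → x ≠ p → r₁ ≤ ‖x - p‖ := by
    have e1 : ∀ᶠ x in 𝓝 p, x ∈ Z := hZ p hp.1
    have e2 : ∀ᶠ x in 𝓝 p, x ∉ E₂ := hE.clB.isOpen_compl.mem_nhds hpE2
    have e3 : ∀ᶠ x in 𝓝 p, c < ⟪e, x⟫ := hhc.continuousAt.eventually_const_lt hcp
    have e4 : ∀ᶠ x in 𝓝 p, Inward F e x → x = p := by
      have h1 : ({x | Inward F e x} \ {p}).Finite := hfin.subset sdiff_subset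
      filter_upwards [h1.isClosed.isOpen_compl.mem_nhds (fun h2 => h2.2 rfl)] with x hx hxI
      by_contra hcon
      exact hx ⟨hxI, hcon⟩
    obtain ⟨d, hd, h1⟩ := Metric.eventually_nhds_iff.1 (((e1.and e2).and e3).and e4)
    have hd2 : ∀ x, ‖x - p‖ ≤ d / 2 → dist x p < d := by
      intro x hx
      rw [dist_eq_norm]
      linarith
    refine ⟨d / 2, by linarith, fun x hx => (h1 (hd2 x hx)).1.1.1, fun x hx =>
      (h1 (hd2 x hx)).1.1.2, fun x hx => (h1 (hd2 x hx)).1.2, fun x hxI hxp => ?_⟩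
    by_contra hcon
    push Not at hcon
    exact hxp ((h1 (hd2 x hcon.le)).2 hxI)
  obtain ⟨g, μ, R, r, hR, hRr₁, hrR, hfg, hgin, hgsub, hgout, hgfree, hmod⟩ :=
    model_loc he h.good h.bdd hin hr₁
  obtain ⟨u, B, a, hm⟩ : ∃ (u : V) (B : V →L[ℝ] V →L[ℝ] ℝ) (a : ℝ), Mod1 g e u p B μ a r := by
    rcases hmod with hm | hm
    · exfalso
      obtain ⟨N, P, hS, hN⟩ := hp1
      have hne : N ≠ ⊥ := by
        rintro rfl
        rw [finrank_bot] at hN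
        exact zero_ne_one hN
      obtain ⟨b, hb, hb0⟩ := N.exists_mem_ne_zero_of_ne_bot hne
      have h1 := hm.hB b (by rw [real_inner_comm]; exact hS.hN b hb) hb0
      have h2 := hS.neg b hb hb0
      have h3 : fderiv ℝ (fderiv ℝ f) p = fderiv ℝ (fderiv ℝ F) p := hpf.fderiv.fderiv_eq
      rw [h3] at h1
      linarith
    · exact hm
  have hr0 : 0 < r := hm.hr
  -- the window function
  obtain ⟨M, hM⟩ : ∃ M : ℝ, ∀ x, f x ≤ 0 → ⟪e, x⟫ ≤ M := by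
    obtain ⟨M, hM⟩ := (hK.image hhc).bddAbove
    exact ⟨M, fun x hx => hM ⟨x, hx, rfl⟩⟩
  obtain ⟨φ, hφ, hφle, hφ2, hφ1⟩ := window_fun (e := e)
    (hE1c.union (isCompact_closedBall p r₁)) hE2c (by
      rw [Set.disjoint_union_left]
      refine ⟨hE.dis, Set.disjoint_left.2 fun x hx hx2 => ?_⟩
      exact ha2 x (by rwa [mem_closedBall_iff_norm] at hx) hx2) (|M - c| + 1) (by positivity)
  have hball : ∀ x, ‖x - p‖ ≤ r₁ → φ =ᶠ[𝓝 x] fun y => ⟪e, y⟫ := fun x hx =>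
    hφ1 x (Or.inr (by rwa [mem_closedBall_iff_norm]))
  have hφx : ∀ x, ‖x - p‖ ≤ r₁ → φ x = ⟪e, x⟫ := fun x hx => (hball x hx).self_of_nhds
  have hf1 : ∀ x, f x ≤ 0 → c ≤ φ x → x ∈ E₁ := by
    intro x hx hxc
    have h1 : x ∈ E₁ ∪ E₂ := hE.cov ▸ ⟨hx, hxc.trans (hφle x)⟩
    rcases h1 with h1 | h1
    · exact h1
    · exfalso
      rw [hφ2 x h1] at hxc
      have := hM x hx
      have := le_abs_self (M - c)
      linarith
  have hg1 : ∀ x, g x ≤ 0 → c ≤ φ x → φ =ᶠ[𝓝 x] fun y => ⟪e, y⟫ := by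
    intro x hx hxc
    rcases hgsub x hx with h1 | h1
    · exact hφ1 x (Or.inl (hf1 x h1 hxc))
    · exact hball x (by linarith)
  have hpp : ‖p - p‖ ≤ r₁ := by
    rw [sub_self, norm_zero]
    exact hr₁.le
  have hφp : φ p = ⟪e, p⟫ := hφx p hpp
  have hgood : Good g := hfg.good_right
  have hgb : Bornology.IsBounded {x | g x ≤ 0} := by
    refine (h.bdd.union (Metric.isBounded_ball (x := p) (r := R))).subset fun x hx => ?_
    rcases hgsub x hx with h1 | h1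
    · exact Or.inl h1
    · exact Or.inr (by rwa [mem_ball_iff_norm])
  -- the points of index one in the window
  obtain ⟨P, hP⟩ : ∃ P : Finset V, ∀ x, x ∈ P ↔ (x = p ∨ (Inward F e x ∧ x ≠ p ∧ f =ᶠ[𝓝 x] F ∧
      Idx F e x 1 ∧ ⟪e, x⟫ = ⟪e, p⟫ ∧ x ∈ E₁)) := by
    refine ⟨insert p (hfin.toFinset.filter fun x => x ≠ p ∧ f =ᶠ[𝓝 x] F ∧ Idx F e x 1 ∧
      ⟪e, x⟫ = ⟪e, p⟫ ∧ x ∈ E₁), fun x => ?_⟩
    rw [Finset.mem_insert, Finset.mem_filter, Set.Finite.mem_toFinset]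
    exact Iff.rfl
  have hPnear : ∀ x ∈ P, φ =ᶠ[𝓝 x] fun y => ⟪e, y⟫ := by
    intro x hx
    rcases (hP x).1 hx with h1 | h1
    · rw [h1]
      exact hball p hpp
    · exact hφ1 x (Or.inl h1.2.2.2.2.2)
  have hcls : PClass g φ c P := by
    refine ⟨hφ, hgb, hgood, ?_, ?_, ?_, ?_⟩
    · intro x hx
      have hI : Inw g e x := by
        rcases (hP x).1 hx with h1 | ⟨h1, h2, h3, h4, h5, h6⟩
        · rw [h1]
          exact hgin
        · exact ((inw_of_idx F hF e x h1 1 le_rfl h4).congr h3.symm).congr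
            (hgout x (hRr₁.trans (ha4 x h1 h2)))
      obtain ⟨r', hl⟩ := plin_of_near he (hPnear x hx)
      exact hl.inwP hI
    · intro x hx
      have h0 : φ x = ⟪e, x⟫ := (hPnear x hx).self_of_nhds
      rw [h0]
      rcases (hP x).1 hx with h1 | h1
      · rw [h1]
        exact hcp
      · rw [h1.2.2.2.2.1]
        exact hcp
    · intro x hx hxc hxP
      have hn := hg1 x hx.le hxc
      rw [freeP_of_near hn]
      by_cases hxR : ‖x - p‖ < R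
      · exact hgfree x hx (fun h1 => hxP ((hP x).2 (Or.inl h1))) hxR
      · have h1 := hgout x (not_lt.1 hxR)
        have hfx : f x = 0 := by rw [h1.self_of_nhds]; exact hx
        rcases hE1 x (hf1 x hfx.le hxc) hfx with h2 | ⟨h2, h3, h4, h5⟩
        · exact h2.congr h1
        · exfalso
          refine hxP ((hP x).2 ?_)
          by_cases h6 : x = p
          · exact Or.inl h6
          · exact Or.inr ⟨h2, h6, h3, h4, h5, hf1 x hfx.le hxc⟩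
    · intro x hx hxc h0
      have h1 := fderiv_height (hg1 x hx hxc) e
      rw [h0, real_inner_self_eq_norm_sq, he] at h1
      simp at h1
  -- truncation
  have hpP : p ∈ P := (hP p).2 (Or.inl rfl)
  have hPh : ∀ x ∈ P, φ x = ⟪e, p⟫ := by
    intro x hx
    rw [(hPnear x hx).self_of_nhds]
    rcases (hP x).1 hx with h1 | h1
    · rw [h1]
    · exact h1.2.2.2.2.1
  have hlin : PLin φ e p 1 r := by
    refine ⟨he, one_pos, hr0, fun x hx => ?_⟩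
    rw [hφx x (by linarith), hφp, one_mul, inner_sub_right]
  obtain ⟨ε, hε, hεr, hsm⟩ := (gslab_small (f := g) hm).exists
  have hs1 : ∀ p' ∈ P, φ p' < φ p + ε / 1 := fun p' hp' => by
    rw [hPh p' hp', hφp]
    linarith
  have hcs : c < φ p + ε / 1 := by
    rw [hφp]
    linarith
  have hT : Hom g (pfs g φ 1 p ε) := ptrunc_hom hcls one_pos hcs.le hs1
  have hg' : PClass (pfs g φ 1 p ε) φ c P := ptrunc_class hcls one_pos hcs.le hs1
  have hlow : PLow (pfs g φ 1 p ε) φ g φ c := ptrunc_low hgood.cont hφ one_pos hcs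
  have hgs : GSlab (pfs g φ 1 p ε) e u p B μ a r ε ε :=
    GSlab.of_mod hm hg'.good hg'.bdd (fun x hx => pfs_lin hlin ε hx) hε hεr hsm
  obtain ⟨A, C, q, ℓ, hA, hC, hAb, hCb, hAs, hCs, hdisj, hℓ, hfA, hfC, hpos, hρ, hAg, hCg, hzA,
    hzC⟩ := gcut_out hdim hgs ((hs.hom hdim hfg).hom hdim hT)
  have hle : ∀ x, pfs g φ 1 p ε x ≤ 0 → g x ≤ 0 := fun x hx => (le_max_left _ _).trans hx
  -- the zeros of the truncated function
  have hzero : ∀ x, pfs g φ 1 p ε x = 0 → x ≠ p → FreeAt (pfs g φ 1 p ε) e x ∨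
      (Inward F e x ∧ pfs g φ 1 p ε =ᶠ[𝓝 x] F ∧ f =ᶠ[𝓝 x] F) := by
    intro x hx hxp
    rcases lt_or_ge (φ x) c with h1 | h1
    · have h2 : pfs g φ 1 p ε =ᶠ[𝓝 x] g := (hlow.2 x h1.le).2.2 hx
      have h3 : R ≤ ‖x - p‖ := by
        by_contra hcon
        push Not at hcon
        have h4 : ‖x - p‖ ≤ r₁ := by linarith
        have := ha3 x h4
        rw [hφx x h4] at h1
        linarith
      have h4 : f =ᶠ[𝓝 x] g := hgout x h3
      have h5 : f x = 0 := by rw [h4.self_of_nhds, ← h2.self_of_nhds]; exact hx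
      rcases h.zero x h5 with h6 | ⟨h6, h7⟩
      · exact Or.inl (h6.congr (h4.trans h2.symm))
      · exact Or.inr ⟨h6, (h2.trans h4.symm).trans h7, h7⟩
    · have hn := hg1 x (hle x hx.le) h1
      by_cases hxP : x ∈ P
      · rcases (hP x).1 hxP with h2 | ⟨h2, h3, h4, h5, h6, h7⟩
        · exact absurd h2 hxp
        · right
          refine ⟨h2, ?_, h4⟩
          have h8 : f =ᶠ[𝓝 x] g := hgout x (hRr₁.trans (ha4 x h2 h3))
          have h9 : g x = 0 := by rw [← h8.self_of_nhds, h4.self_of_nhds]; exact h2.1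
          have h10 : pfs g φ 1 p ε =ᶠ[𝓝 x] g := by
            have h11 : φ x < φ p + ε / 1 := hs1 x hxP
            have h12 : 1 * (φ x - (φ p + ε / 1)) < g x := by
              rw [h9, one_mul]
              linarith
            filter_upwards [(phi_cont hφ 1 (φ p + ε / 1)).continuousAt.eventually_lt
              hgood.cont.continuousAt h12] with y hy
            exact max_eq_left hy.le
          exact (h10.trans h8.symm).trans h4
      · left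
        rw [← freeP_of_near hn]
        exact hg'.free x hx h1 hxP
  have hpiece : ∀ D : V → ℝ, Good D → Bornology.IsBounded {x | D x ≤ 0} →
      (∀ x, D x ≤ 0 → pfs g φ 1 p ε x ≤ 0) →
      (∀ x, D x = 0 → (pfs g φ 1 p ε x = 0 ∧ x ≠ p ∧ D =ᶠ[𝓝 x] pfs g φ 1 p ε) ∨
        (‖x - p‖ < r / 2 ∧ ∃ v, Desc1 D x v ∧ ⟪e, v⟫ < 0)) →
      ZCls F e Z D ∧ ∀ x, Inward F e x → D =ᶠ[𝓝 x] F → f =ᶠ[𝓝 x] F ∧ x ≠ p := by
    intro D hD hDb hDg hDz
    refine ⟨⟨hD, hDb, fun x hx => ?_, fun x hx => ?_⟩, fun x hxI hxD => ?_⟩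
    · rcases hgsub x (hle x (hDg x hx)) with h1 | h1
      · exact h.sub x h1
      · exact ha1 x (by linarith)
    · rcases hDz x hx with ⟨h1, h2, h3⟩ | ⟨h1, v, hv, hv'⟩
      · rcases hzero x h1 h2 with h4 | ⟨h4, h5, h6⟩
        · exact Or.inl (h4.congr h3.symm)
        · exact Or.inr ⟨h4, h3.trans h5⟩
      · exact Or.inl ⟨v, hv, hv'⟩
    · have hx0 : D x = 0 := by rw [hxD.self_of_nhds]; exact hxI.1
      have hnf : ¬ FreeAt D e x := not_free_of_inward hF hxI hxD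
      rcases hDz x hx0 with ⟨h1, h2, h3⟩ | ⟨h1, v, hv, hv'⟩
      · rcases hzero x h1 h2 with h4 | ⟨h4, h5, h6⟩
        · exact absurd (h4.congr h3.symm) hnf
        · exact ⟨h6, h2⟩
      · exact absurd ⟨v, hv, hv'⟩ hnf
  obtain ⟨hZA, hIA⟩ := hpiece A hA hAb hAg hzA
  obtain ⟨hZC, hIC⟩ := hpiece C hC hCb hCg hzC
  refine ⟨A, C, u, q, ℓ, hm.hu, hZA, hZC, hAs, hCs, hdisj, hℓ, hfA, hfC, hpos, ?_, hIA, hIC⟩
  filter_upwards [hρ] with ρ h1
  exact (hfg.trans hT).trans h1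

end Pool.Schoen
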