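import Pool.Agent.H.MP_6c077c_gt.PP.BaseG
import Pool.Agent.H.MP_6c077c_gt.PP.T3S
import Pool.Agent.H.MP_6c077c_gt.Wn.Step

/-! Relative smoothing at the free zeros, and the induction. -/

set_option autoImplicit false

namespace Pool.Schoen

open Filter Set
open scoped Topology RealInnerProductSpace ContDiff

variable {V : Type*} [NormedAddCommGroup V] [InnerProductSpace ℝ V] [FiniteDimensional ℝ V]

/-- **Relative smoothing.** A good function which has the germ of a smooth function `F` at its zeros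
in a closed set `D` and is free at its other zeros is homotopic to a smooth function `G`; at every
point with normal `-e` of `G` all three functions have the same germ, and `g` is not free there. -/
theorem smooth_rel {F g : V → ℝ} {e : V} {D₀ : Set V} (hF : ContDiff ℝ ∞ F) (hg : Good g)
    (hD₀ : IsClosed D₀) (hlow : ∀ x, g x = 0 → x ∈ D₀ → g =ᶠ[𝓝 x] F)
    (hfree : ∀ x, g x = 0 → x ∉ D₀ → FreeAt g e x) :
    ∃ G : V → ℝ, ContDiff ℝ ∞ G ∧ Hom g G ∧
      ∀ x, Inward G e x → g x = 0 ∧ G =ᶠ[𝓝 x] F ∧ g =ᶠ[𝓝 x] F ∧ ¬ FreeAt g e x := by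
  classical
  have hprop : ProperSpace V := FiniteDimensional.proper ℝ V
  have hgc := hg.cont
  obtain ⟨R0, hR0⟩ := hg.bdd.exists_norm_le
  obtain ⟨R, hR⟩ : ∃ R : ℝ, R = |R0| + 2 := ⟨_, rfl⟩
  have hfar : ∀ y, R - 1 < ‖y‖ → g y ≠ 0 := by
    intro y hy h0
    have h1 := hR0 y h0
    have h2 := le_abs_self R0
    linarith
  -- the zeros below the level
  obtain ⟨Zc, hZc⟩ : ∃ Zc : Set V, Zc = {x | g x = 0 ∧ x ∈ D₀} := ⟨_, rfl⟩
  have hZcc : IsCompact Zc := by
    rw [hZc]
    refine Metric.isCompact_of_isClosed_isBounded ?_ (hg.bdd.subset fun x hx => hx.1)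
    exact (isClosed_eq hgc continuous_const).inter hD₀
  obtain ⟨U, hU⟩ : ∃ U : Set V, U = interior {x | g x = F x} := ⟨_, rfl⟩
  have hUo : IsOpen U := by rw [hU]; exact isOpen_interior
  have hUg : ∀ x ∈ U, g =ᶠ[𝓝 x] F := by
    intro x hx
    rw [hU] at hx
    exact mem_interior_iff_mem_nhds.1 hx
  have hZU : Zc ⊆ U := by
    intro x hx
    rw [hZc] at hx
    rw [hU]
    exact mem_interior_iff_mem_nhds.2 (hlow x hx.1 hx.2)
  obtain ⟨L, hLc, hZL, hLU⟩ := exists_compact_between hZcc hUo hZU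
  obtain ⟨χ, hχ, h1, h2, h3⟩ : ∃ χ : V → ℝ, ContDiff ℝ ∞ χ ∧ (∀ᶠ x in 𝓝ˢ Zc, χ x = 1) ∧
      (∀ x ∉ L, χ x = 0) ∧ ∀ x, χ x ∈ Icc (0 : ℝ) 1 := by
    obtain ⟨χ, h1, h2, h3⟩ :=
      exists_contMDiffMap_one_nhds_of_subset_interior (modelWithCornersSelf ℝ V) (n := (⊤ : ℕ∞))
        hZcc.isClosed (t := L) hZL
    exact ⟨χ, χ.contMDiff.contDiff, h1, h2, h3⟩
  obtain ⟨W1, hW1⟩ : ∃ W1 : Set V, W1 = interior {x | χ x = 1} := ⟨_, rfl⟩
  have hW1o : IsOpen W1 := by rw [hW1]; exact isOpen_interior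
  have hZW : Zc ⊆ W1 := by
    intro x hx
    rw [hW1]
    exact mem_interior_iff_mem_nhds.2 (h1.filter_mono (nhds_le_nhdsSet hx))
  have hW1χ : ∀ x ∈ W1, ∀ᶠ y in 𝓝 x, χ y = 1 := by
    intro x hx
    rw [hW1] at hx
    exact mem_interior_iff_mem_nhds.1 hx
  have hW1L : ∀ x ∈ W1, x ∈ L := by
    intro x hx
    by_contra hxL
    have h4 := (hW1χ x hx).self_of_nhds
    rw [h2 x hxL] at h4
    exact zero_ne_one h4
  have hLcl : IsClosed L := hLc.isClosed
  have hsupp : ∀ x, x ∉ L → ∀ᶠ y in 𝓝 x, χ y = 0 := by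
    intro x hx
    filter_upwards [hLcl.isOpen_compl.mem_nhds hx] with y hy
    exact h2 y hy
  -- derivative bound of the cutoff
  obtain ⟨D, hD⟩ : ∃ D : ℝ, ∀ x ∈ Metric.closedBall (0 : V) R, ‖fderiv ℝ χ x‖ ≤ D :=
    (isCompact_closedBall _ _).exists_bound_of_continuousOn
      (hχ.continuous_fderiv (by simp)).continuousOn
  -- descent directions
  obtain ⟨e0, c0, B0, he0, hc0, hB0, hcov0⟩ := cover_dir hgc
    (isCompact_closedBall (0 : V) R) (fun _ => True) (fun x _ hx => by
      obtain ⟨v, hv⟩ := hg.desc x hx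
      exact ⟨v, trivial, hv⟩)
  obtain ⟨e1, c1, B1, he1, hc1, hB1, hcov1⟩ := cover_dir hgc
    ((isCompact_closedBall (0 : V) R).inter_right hW1o.isClosed_compl) (fun v => ⟪e, v⟫ < 0)
    (fun x hx hx0 => by
      have h4 : x ∉ D₀ := by
        intro h5
        refine hx.2 (hZW ?_)
        rw [hZc]
        exact ⟨hx0, h5⟩
      obtain ⟨v, hv, hv'⟩ := hfree x hx0 h4
      exact ⟨v, hv', hv⟩)
  -- the mollification
  obtain ⟨η, hη, hη0, hη1, hη2⟩ : ∃ η : ℝ, 0 < η ∧ η ≤ e0 ∧ η ≤ e1 ∧
      (|D| + 1) * (B1 + 1) * η < c1 := by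
    refine ⟨min e0 (min e1 (c1 / (2 * ((|D| + 1) * (B1 + 1))))), by positivity,
      min_le_left _ _, (min_le_right _ _).trans (min_le_left _ _), ?_⟩
    have h4 : min e0 (min e1 (c1 / (2 * ((|D| + 1) * (B1 + 1))))) ≤
        c1 / (2 * ((|D| + 1) * (B1 + 1))) := (min_le_right _ _).trans (min_le_right _ _)
    have h5 : 0 < (|D| + 1) * (B1 + 1) := by positivity
    calc (|D| + 1) * (B1 + 1) * min e0 (min e1 (c1 / (2 * ((|D| + 1) * (B1 + 1)))))
        ≤ (|D| + 1) * (B1 + 1) * (c1 / (2 * ((|D| + 1) * (B1 + 1)))) :=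
          mul_le_mul_of_nonneg_left h4 h5.le
      _ = c1 / 2 := by field_simp
      _ < c1 := by linarith
  obtain ⟨ε2, hε2, hclose⟩ := moll_close hgc R hη
  obtain ⟨ε, hε, hεa, hεb, hεc⟩ : ∃ ε : ℝ, 0 < ε ∧ ε ≤ ε2 ∧ ε ≤ e1 ∧ ε ≤ 1 / 2 :=
    ⟨min ε2 (min e1 (1 / 2)), by positivity, min_le_left _ _,
      (min_le_right _ _).trans (min_le_left _ _), (min_le_right _ _).trans (min_le_right _ _)⟩
  obtain ⟨M, hM⟩ := moll_exists g hgc ε hε
  have hMg : ∀ x, ‖x‖ ≤ R → |M x - g x| ≤ η := hclose M ε hεa hM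
  have hMs : ∀ x, R ≤ ‖x‖ → 0 < M x * g x := by
    intro x hx
    refine moll_sign hgc hM hεc x fun y hy => hfar y ?_
    have h4 : ‖x‖ ≤ ‖x - y‖ + ‖y‖ := by
      calc ‖x‖ = ‖(x - y) + y‖ := by congr 1; abel
        _ ≤ ‖x - y‖ + ‖y‖ := norm_add_le _ _
    rw [norm_sub_rev] at h4
    linarith
  -- the function
  obtain ⟨G, hG⟩ : ∃ G : V → ℝ, G = fun x => χ x * F x + (1 - χ x) * M x := ⟨_, rfl⟩
  have hGs : ContDiff ℝ ∞ G := by
    rw [hG]
    exact (hχ.mul hF).add ((contDiff_const.sub hχ).mul hM.smooth)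
  have hGx : ∀ x, G x = χ x * g x + (1 - χ x) * M x := by
    intro x
    rw [hG]
    by_cases hx : x ∈ L
    · have := (hUg x (hLU hx)).self_of_nhds
      show χ x * F x + (1 - χ x) * M x = _
      rw [this]
    · show χ x * F x + (1 - χ x) * M x = _
      rw [h2 x hx, zero_mul, zero_mul]
  have hGW : ∀ x ∈ W1, G =ᶠ[𝓝 x] F := by
    intro x hx
    filter_upwards [hW1χ x hx] with y hy
    rw [hG]
    show χ y * F y + (1 - χ y) * M y = F y
    rw [hy]
    ring
  have hGg : ∀ x, ‖x‖ ≤ R → |G x - g x| ≤ η := by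
    intro x hx
    have h4 : G x - g x = (1 - χ x) * (M x - g x) := by
      rw [hGx]
      ring
    rw [h4, abs_mul, abs_of_nonneg (by linarith [(h3 x).2])]
    have h5 := hMg x hx
    have h6 := (h3 x).1
    have h7 := (h3 x).2
    have h8 : (1 - χ x) * |M x - g x| ≤ 1 * |M x - g x| :=
      mul_le_mul_of_nonneg_right (by linarith) (abs_nonneg _)
    linarith
  have hGsgn : ∀ x, R ≤ ‖x‖ → 0 < G x * g x := by
    intro x hx
    have h4 := hMs x hx
    have h5 : 0 < g x * g x := by
      exact mul_self_pos.2 (hfar x (by linarith))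
    have h6 : G x * g x = χ x * (g x * g x) + (1 - χ x) * (M x * g x) := by
      rw [hGx]
      ring
    rw [h6]
    have h7 := (h3 x).1
    have h8 := (h3 x).2
    rcases h7.lt_or_eq with h9 | h9
    · have := mul_pos h9 h5
      have := mul_nonneg (sub_nonneg.2 h8) h4.le
      linarith
    · rw [← h9]
      linarith
  -- descent of `G` outside of `W1`
  have hGdir : ∀ x, ‖x‖ ≤ R → x ∉ W1 → |g x| ≤ η → ∃ v, ⟪e, v⟫ < 0 ∧ Desc1 g x v ∧
      fderiv ℝ G x v < 0 := by
    intro x hx hxW hgx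
    obtain ⟨v, hv, hvB, hvd, hdrop⟩ := hcov1 x ⟨by simpa using hx, hxW⟩ (hgx.trans hη1)
    refine ⟨v, hv, hvd, ?_⟩
    have hMd : fderiv ℝ M x v ≤ -c1 := by
      refine fderiv_le_of_drop (hM.smooth.differentiable (by simp) x) he1 fun s hs hse => ?_
      exact hM.drop x _ _ fun y hy => hdrop y (hy.trans_le hεb) s hs hse
    have hGd : fderiv ℝ G x v = χ x * fderiv ℝ F x v + (1 - χ x) * fderiv ℝ M x v +
        fderiv ℝ χ x v * (F x - M x) := by
      have a1 : HasFDerivAt χ (fderiv ℝ χ x) x := (hχ.differentiable (by simp) x).hasFDerivAt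
      have a2 : HasFDerivAt F (fderiv ℝ F x) x := (hF.differentiable (by simp) x).hasFDerivAt
      have a3 : HasFDerivAt M (fderiv ℝ M x) x :=
        (hM.smooth.differentiable (by simp) x).hasFDerivAt
      have a4 := (a1.mul a2).add (((hasFDerivAt_const (1 : ℝ) x).sub a1).mul a3)
      have a5 : G = (χ * F + ((fun _ => (1 : ℝ)) - χ) * M) := by
        rw [hG]
        rfl
      rw [← a5] at a4
      rw [a4.fderiv]
      simp
      ring
    rw [hGd]
    by_cases hxL : x ∈ L
    · have hFx := (hUg x (hLU hxL))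
      have hFd : fderiv ℝ F x v ≤ -c1 := by
        have h4 : ∀ᶠ s in 𝓝 (0 : ℝ), g (x + s • v) = F (x + s • v) := by
          have h5 : Tendsto (fun s : ℝ => x + s • v) (𝓝 0) (𝓝 x) := by
            have : Continuous fun s : ℝ => x + s • v := by fun_prop
            simpa using this.tendsto 0
          exact h5.eventually hFx
        obtain ⟨d, hd, h5⟩ := Metric.eventually_nhds_iff.1 h4
        refine fderiv_le_of_drop (hF.differentiable (by simp) x) (lt_min he1 hd)
          fun s hs hse => ?_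
        have h6 := hdrop x (by simpa using he1) s hs (hse.trans_le (min_le_left _ _))
        have h7 := h5 (y := s) (by
          rw [dist_zero_right, Real.norm_eq_abs, abs_of_pos hs]
          exact hse.trans_le (min_le_right _ _))
        rw [← h7, ← hFx.self_of_nhds]
        exact h6
      have h4 : |fderiv ℝ χ x v * (F x - M x)| ≤ (|D| + 1) * (B1 + 1) * η := by
        rw [abs_mul]
        have h5 : |fderiv ℝ χ x v| ≤ (|D| + 1) * (B1 + 1) := by
          have h6 := (fderiv ℝ χ x).le_opNorm v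
          rw [Real.norm_eq_abs] at h6
          have h7 : ‖fderiv ℝ χ x‖ ≤ |D| + 1 :=
            (hD x (by simpa using hx)).trans ((le_abs_self D).trans (by linarith))
          calc |fderiv ℝ χ x v| ≤ ‖fderiv ℝ χ x‖ * ‖v‖ := h6
            _ ≤ (|D| + 1) * (B1 + 1) :=
              mul_le_mul h7 (by linarith) (norm_nonneg _) (by positivity)
        have h8 : |F x - M x| ≤ η := by
          rw [← hFx.self_of_nhds, abs_sub_comm]
          exact hMg x hx
        exact mul_le_mul h5 h8 (abs_nonneg _) (by positivity)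
      have h5 := (abs_le.1 h4).2
      have h6 := (h3 x).1
      have h7 := (h3 x).2
      have h8 : χ x * fderiv ℝ F x v ≤ χ x * -c1 := mul_le_mul_of_nonneg_left hFd h6
      have h9 : (1 - χ x) * fderiv ℝ M x v ≤ (1 - χ x) * -c1 :=
        mul_le_mul_of_nonneg_left hMd (by linarith)
      linarith
    · have h4 : fderiv ℝ χ x = 0 := by
        have h5 : (fun y => χ y) =ᶠ[𝓝 x] fun _ => (0 : ℝ) := hsupp x hxL
        have h6 := h5.fderiv_eq (𝕜 := ℝ)
        rw [fderiv_fun_const] at h6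
        simpa using h6
      rw [h4, h2 x hxL]
      simp only [zero_mul, sub_zero, one_mul, zero_add, zero_apply, add_zero]
      linarith
  refine ⟨G, hGs, ?_, ?_⟩
  · refine Hom.lerp hgc hGs.continuous ⟨R, fun t ht x hx => ?_⟩ fun t ht x hx => ?_
    · by_contra hcon
      push Not at hcon
      have h4 := hGsgn x hcon.le
      have h5 : 0 < g x * g x := by
        exact mul_self_pos.2 (hfar x (by linarith))
      have h6 : ((1 - t) * g x + t * G x) * g x = (1 - t) * (g x * g x) + t * (G x * g x) := by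
        ring
      rw [hx, zero_mul] at h6
      rcases ht.1.lt_or_eq with h7 | h7
      · have := mul_pos h7 h4
        have := mul_nonneg (sub_nonneg.2 ht.2) h5.le
        linarith
      · rw [← h7] at h6
        linarith
    · have hxR : ‖x‖ ≤ R := by
        by_contra hcon
        push Not at hcon
        have h4 := hGsgn x hcon.le
        have h5 : 0 < g x * g x := by
          exact mul_self_pos.2 (hfar x (by linarith))
        have h6 : ((1 - t) * g x + t * G x) * g x = (1 - t) * (g x * g x) + t * (G x * g x) := by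
          ring
        rw [hx, zero_mul] at h6
        rcases ht.1.lt_or_eq with h7 | h7
        · have := mul_pos h7 h4
          have := mul_nonneg (sub_nonneg.2 ht.2) h5.le
          linarith
        · rw [← h7] at h6
          linarith
      have hgx : |g x| ≤ η := by
        have h4 : g x = -(t * (G x - g x)) := by linarith
        rw [h4, abs_neg, abs_mul, abs_of_nonneg ht.1]
        have h5 := hGg x hxR
        have h6 : t * |G x - g x| ≤ 1 * |G x - g x| :=
          mul_le_mul_of_nonneg_right ht.2 (abs_nonneg _)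
        linarith
      by_cases hxW : x ∈ W1
      · obtain ⟨v, -, -, hvd, -⟩ := hcov0 x (by simpa using hxR) (hgx.trans hη0)
        refine ⟨v, hvd, hvd.congr ?_⟩
        filter_upwards [hGW x hxW, hUg x (hLU (hW1L x hxW))] with y hy hy'
        rw [hy, hy']
      · obtain ⟨v, -, hvd, hvG⟩ := hGdir x hxR hxW hgx
        exact ⟨v, hvd, desc1_smooth (hGs.contDiffAt.of_le (by simp)) hvG⟩
  · intro x hx
    have hx0 : G x = 0 := hx.1
    have hxR : ‖x‖ ≤ R := by
      by_contra hcon
      push Not at hcon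
      have h4 := hGsgn x hcon.le
      rw [hx0, zero_mul] at h4
      exact lt_irrefl _ h4
    have hinw : ∀ v, ⟪e, v⟫ < 0 → fderiv ℝ G x v < 0 → False := by
      intro v hv hGv
      obtain ⟨-, l, hl, hgr⟩ := hx
      rw [cgLocal_grad hgr, real_inner_comm] at hGv
      nlinarith
    by_cases hxW : x ∈ W1
    · have hgF := hUg x (hLU (hW1L x hxW))
      have hgG : g =ᶠ[𝓝 x] G := by
        filter_upwards [hGW x hxW, hgF] with y hy hy'
        rw [hy, hy']
      have hgx : g x = 0 := by rw [hgG.self_of_nhds, hx0]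
      refine ⟨hgx, hGW x hxW, hgF, ?_⟩
      rintro ⟨v, hv, hv'⟩
      exact hinw v hv' (fderiv_neg_of_desc1 (hGs.differentiable (by simp) x) (hv.congr hgG))
    · exfalso
      have hgx : |g x| ≤ η := by
        have h4 := hGg x hxR
        rwa [hx0, zero_sub, abs_neg] at h4
      obtain ⟨v, hv, -, hvG⟩ := hGdir x hxR hxW hgx
      exact hinw v hv hvG

/-- **The induction.** To show that a body of the class is a ball it is enough to consider bodies
without inward points of index one. -/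
theorem zind (hdim : 3 ≤ Module.finrank ℝ V) {F : V → ℝ} {e : V} {Z : Set V}
    (hF : ContDiff ℝ ∞ F) (he : ‖e‖ = 1) (hnd : ∀ x, Inward F e x → ∃ k, Idx F e x k)
    (hfin : {x | Inward F e x}.Finite) (hZ : ∀ x, F x = 0 → Z ∈ 𝓝 x) (hsep : ZSep F e Z)
    (hbase : ∀ g : V → ℝ, ZCls F e Z g → PSides g →
      (∀ x, Inward F e x → g =ᶠ[𝓝 x] F → ¬ Idx F e x 1) → IsBall g)
    {f : V → ℝ} (hf : ZCls F e Z f) (hs : PSides f) : IsBall f := by
  classical
  have key : ∀ (n : ℕ) (f : V → ℝ), ZCls F e Z f → PSides f → ∀ P : Finset V, P.card = n →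
      (∀ x, Inward F e x → f =ᶠ[𝓝 x] F → Idx F e x 1 → x ∈ P) → IsBall f := by
    intro n
    induction n using Nat.strong_induction_on with
    | _ n ih =>
      intro f hf hs P hn hP
      obtain ⟨P', hP'⟩ : ∃ P' : Finset V, ∀ x, x ∈ P' ↔ (x ∈ P ∧ Inward F e x ∧ f =ᶠ[𝓝 x] F ∧
          Idx F e x 1) :=
        ⟨P.filter fun x => Inward F e x ∧ f =ᶠ[𝓝 x] F ∧ Idx F e x 1, fun x => by
          rw [Finset.mem_filter]⟩
      rcases P'.eq_empty_or_nonempty with hE | hne
      · refine hbase f hf hs fun x hx hxf hx1 => ?_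
        have h1 := (hP' x).2 ⟨hP x hx hxf hx1, hx, hxf, hx1⟩
        rw [hE] at h1
        exact absurd h1 (Finset.notMem_empty _)
      · obtain ⟨p, hpP, htop⟩ := Finset.exists_max_image P' (fun x => ⟪e, x⟫) hne
        obtain ⟨hp0, hp, hpf, hp1⟩ := (hP' p).1 hpP
        obtain ⟨A, C, u, q, ℓ, hu, hA, hC, hAs, hCs, hdisj, hℓ, hflatA, hflatC, hpos, hρ, hIA,
          hIC⟩ := hf.step hdim hF he hnd hfin hZ hsep hs hp hpf hp1 (fun x hx hxf hx1 =>
            htop x ((hP' x).2 ⟨hP x hx hxf hx1, hx, hxf, hx1⟩))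
        have hcard : (P.erase p).card < n := by
          rw [← hn]
          exact Finset.card_erase_lt_of_mem hp0
        have hAb : IsBall A := ih _ hcard A hA hAs (P.erase p) rfl fun x hx hxA hx1 => by
          obtain ⟨h1, h2⟩ := hIA x hx hxA
          exact Finset.mem_erase.2 ⟨h2, hP x hx h1 hx1⟩
        have hCb : IsBall C := ih _ hcard C hC hCs (P.erase p) rfl fun x hx hxC hx1 => by
          obtain ⟨h1, h2⟩ := hIC x hx hxC
          exact Finset.mem_erase.2 ⟨h2, hP x hx h1 hx1⟩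
        have hρ' := glue hAb hC.good hdisj hu hℓ hflatA hflatC hpos
        obtain ⟨ρ, h1, h2⟩ := (hρ.and hρ').exists
        exact (h1.trans h2).trans hCb
  exact key _ f hf hs hfin.toFinset rfl fun x hx _ _ => hfin.mem_toFinset.2 hx

end Pool.Schoen
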