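import Mathlib

/-! Extending a separation of a part of a compact set upwards. -/

set_option autoImplicit false

namespace Pool.Schoen

open Filter Set
open scoped Topology

variable {X : Type*} [TopologicalSpace X]

/-- The local property from below at `r`: either `r` is isolated in the part of `K` of height at most
`h r`, or `K` is locally connected from below at `r`. -/
def LocUp (K : Set X) (h : X → ℝ) (r : X) : Prop :=
  (∃ N ∈ 𝓝 r, N ∩ (K ∩ {x | h x ≤ h r}) ⊆ {r}) ∨
    ∀ U ∈ 𝓝 r, ∃ N ∈ 𝓝 r, ∃ C : Set X, IsPreconnected C ∧ C ⊆ U ∩ (K ∩ {x | h x < h r}) ∧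
      N ∩ (K ∩ {x | h x ≤ h r}) ⊆ closure C

/-- The part of `K` between the heights `s` and `t`. -/
def kbt (K : Set X) (h : X → ℝ) (s t : ℝ) : Set X := K ∩ {x | s ≤ h x ∧ h x ≤ t}

/-- A separation of the part between `s` and `t`. -/
structure Sep (K : Set X) (h : X → ℝ) (s t : ℝ) (A B : Set X) : Prop where
  clA : IsClosed A
  clB : IsClosed B
  dis : Disjoint A B
  cov : A ∪ B = kbt K h s t

theorem kbt_closed {K : Set X} (hK : IsClosed K) {h : X → ℝ} (hc : Continuous h) (s t : ℝ) :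
    IsClosed (kbt K h s t) :=
  hK.inter ((isClosed_le continuous_const hc).inter (isClosed_le hc continuous_const))

/-- Comparable separations: the smaller one is the restriction of the larger one. -/
theorem Sep.restrict {K : Set X} {h : X → ℝ} {s t t' : ℝ} {A B A' B' : Set X}
    (hS : Sep K h s t A B) (hS' : Sep K h s t' A' B') (hA : A ⊆ A') (hB : B ⊆ B') {x : X}
    (hx : h x ≤ t) : (x ∈ A' → x ∈ A) ∧ (x ∈ B' → x ∈ B) := by
  constructor
  · intro h1
    have h2 : x ∈ kbt K h s t' := hS'.cov ▸ Or.inl h1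
    have h3 : x ∈ A ∪ B := hS.cov ▸ ⟨h2.1, h2.2.1, hx⟩
    rcases h3 with h3 | h3
    · exact h3
    · exact (Set.disjoint_left.1 hS'.dis h1 (hB h3)).elim
  · intro h1
    have h2 : x ∈ kbt K h s t' := hS'.cov ▸ Or.inr h1
    have h3 : x ∈ A ∪ B := hS.cov ▸ ⟨h2.1, h2.2.1, hx⟩
    rcases h3 with h3 | h3
    · exact (Set.disjoint_left.1 hS'.dis (hA h3) h1).elim
    · exact h3

/-- **Passing to the limit.** Separated sets which cover the part of `K` from `s` to strictly below
`t` give a separation of the part from `s` to `t`. -/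
theorem sep_limit {K : Set X} (hK : IsClosed K) {h : X → ℝ} (hc : Continuous h) {s t : ℝ}
    (hst : s < t) (hloc : ∀ r ∈ K, h r = t → LocUp K h r) {A B : Set X}
    (hcov : A ∪ B = K ∩ {x | s ≤ h x ∧ h x < t}) (hd : Disjoint A B)
    (hA : ∀ x ∈ closure A, h x < t → x ∈ A) (hB : ∀ x ∈ closure B, h x < t → x ∈ B) :
    ∃ A' B' : Set X, Sep K h s t A' B' ∧ A ⊆ A' ∧ B ⊆ B' := by
  have hAK : A ⊆ K ∩ {x | s ≤ h x ∧ h x < t} := hcov ▸ subset_union_left
  have hBK : B ⊆ K ∩ {x | s ≤ h x ∧ h x < t} := hcov ▸ subset_union_right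
  have hKc : IsClosed (kbt K h s t) := kbt_closed hK hc s t
  have hAc : closure A ⊆ kbt K h s t :=
    closure_minimal (fun x hx => ⟨(hAK hx).1, (hAK hx).2.1, (hAK hx).2.2.le⟩) hKc
  have hBc : closure B ⊆ kbt K h s t :=
    closure_minimal (fun x hx => ⟨(hBK hx).1, (hBK hx).2.1, (hBK hx).2.2.le⟩) hKc
  -- the births
  obtain ⟨Bi, hBi⟩ : ∃ Bi : Set X, Bi = {r | r ∈ K ∧ h r = t ∧
      ∃ N ∈ 𝓝 r, N ∩ (K ∩ {x | h x ≤ t}) ⊆ {r}} := ⟨_, rfl⟩
  have hsU : ∀ r, h r = t → {x | s < h x} ∈ 𝓝 r := fun r hr =>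
    (isOpen_lt continuous_const hc).mem_nhds (by rw [← hr] at hst; exact hst)
  -- at the other points of height `t`
  have hother : ∀ r ∈ K, h r = t → r ∉ Bi → ∃ N ∈ 𝓝 r, ∃ C : Set X, IsPreconnected C ∧
      C ⊆ A ∪ B ∧ N ∩ (K ∩ {x | h x ≤ t}) ⊆ closure C := by
    intro r hr hrt hrB
    rcases hloc r hr hrt with h1 | h1
    · exact absurd (by rw [hBi]; exact ⟨hr, hrt, by rw [← hrt]; exact h1⟩) hrB
    · obtain ⟨N, hN, C, hC, hCU, hNC⟩ := h1 _ (hsU r hrt)
      refine ⟨N, hN, C, hC, fun x hx => ?_, by rw [← hrt]; exact hNC⟩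
      have h2 := hCU hx
      rw [hcov]
      exact ⟨h2.2.1, (show s < h x from h2.1).le, by
        have h3 : h x < h r := h2.2.2
        rw [hrt] at h3
        exact h3⟩
  have hnb : ∀ r ∈ Bi, r ∉ closure (A ∪ B) := by
    intro r hr h1
    rw [hBi] at hr
    obtain ⟨hrK, hrt, N, hN, hNs⟩ := hr
    obtain ⟨x, hx, hxAB⟩ := mem_closure_iff_nhds.1 h1 N hN
    rw [hcov] at hxAB
    have h2 : x ∈ ({r} : Set X) := hNs ⟨hx, hxAB.1, (show h x < t from hxAB.2.2).le⟩
    rw [mem_singleton_iff] at h2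
    have h3 : h x < t := hxAB.2.2
    rw [h2, hrt] at h3
    exact lt_irrefl _ h3
  have hdis : Disjoint (closure A) (closure B) := by
    rw [Set.disjoint_left]
    intro x hxA hxB
    rcases (hAc hxA).2.2.lt_or_eq with h1 | h1
    · exact Set.disjoint_left.1 hd (hA x hxA h1) (hB x hxB h1)
    · by_cases hxBi : x ∈ Bi
      · exact hnb x hxBi (closure_mono subset_union_left hxA)
      · obtain ⟨N, hN, C, hC, hCAB, hNC⟩ := hother x (hAc hxA).1 h1 hxBi
        obtain ⟨a, haN, haA⟩ := mem_closure_iff_nhds.1 hxA N hN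
        obtain ⟨b, hbN, hbB⟩ := mem_closure_iff_nhds.1 hxB N hN
        have ha : a ∈ closure C := hNC ⟨haN, (hAK haA).1, (show h a < t from (hAK haA).2.2).le⟩
        have hb : b ∈ closure C := hNC ⟨hbN, (hBK hbB).1, (show h b < t from (hBK hbB).2.2).le⟩
        have hC' : IsPreconnected (C ∪ {a, b}) := by
          refine hC.subset_closure subset_union_left ?_
          refine union_subset subset_closure ?_
          rintro y (rfl | rfl)
          · exact ha
          · exact hb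
        have hsub : C ∪ {a, b} ⊆ closure A ∪ closure B := by
          refine union_subset (hCAB.trans (union_subset_union subset_closure subset_closure)) ?_
          rintro y (rfl | rfl)
          · exact Or.inl (subset_closure haA)
          · exact Or.inr (subset_closure hbB)
        obtain ⟨y, hy, hyA, hyB⟩ := isPreconnected_closed_iff.1 hC' _ _ isClosed_closure
          isClosed_closure hsub ⟨a, Or.inr (by simp), subset_closure haA⟩
          ⟨b, Or.inr (by simp), subset_closure hbB⟩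
        have hyt : h y < t := by
          rcases hy with hy | hy | hy
          · have := hCAB hy
            rw [hcov] at this
            exact this.2.2
          · rw [hy]
            exact (hAK haA).2.2
          · rw [hy]
            exact (hBK hbB).2.2
        exact Set.disjoint_left.1 hd (hA y hyA hyt) (hB y hyB hyt)
  have hBicl : IsClosed Bi := by
    refine isClosed_of_closure_subset fun r hr => ?_
    have hrK : r ∈ K ∩ {x | h x = t} := by
      have h1 : Bi ⊆ K ∩ {x | h x = t} := by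
        rw [hBi]
        exact fun x hx => ⟨hx.1, hx.2.1⟩
      exact closure_minimal h1 (hK.inter (isClosed_eq hc continuous_const)) hr
    by_contra hcon
    obtain ⟨N, hN, C, hC, hCAB, hNC⟩ := hother r hrK.1 hrK.2 hcon
    obtain ⟨b, hbN, hbB⟩ := mem_closure_iff_nhds.1 hr N hN
    have hb2 := hbB
    rw [hBi] at hb2
    exact hnb b hbB (closure_mono hCAB (hNC ⟨hbN, hb2.1, (le_of_eq hb2.2.1 : h b ≤ t)⟩))
  refine ⟨closure A ∪ Bi, closure B, ⟨isClosed_closure.union hBicl, isClosed_closure, ?_, ?_⟩,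
    subset_closure.trans subset_union_left, subset_closure⟩
  · rw [Set.disjoint_union_left]
    refine ⟨hdis, Set.disjoint_left.2 fun x hx hxB => ?_⟩
    exact hnb x hx (closure_mono subset_union_right hxB)
  · apply Subset.antisymm
    · refine union_subset (union_subset hAc ?_) hBc
      rw [hBi]
      exact fun x hx => ⟨hx.1, by rw [hx.2.1]; exact hst.le, le_of_eq hx.2.1⟩
    · intro x hx
      rcases hx.2.2.lt_or_eq with h1 | h1
      · have h2 : x ∈ A ∪ B := by
          rw [hcov]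
          exact ⟨hx.1, hx.2.1, h1⟩
        rcases h2 with h2 | h2
        · exact Or.inl (Or.inl (subset_closure h2))
        · exact Or.inr (subset_closure h2)
      · by_cases hxBi : x ∈ Bi
        · exact Or.inl (Or.inr hxBi)
        · obtain ⟨N, hN, C, hC, hCAB, hNC⟩ := hother x hx.1 h1 hxBi
          have h3 : x ∈ closure (A ∪ B) :=
            closure_mono hCAB (hNC ⟨mem_of_mem_nhds hN, hx.1, h1.le⟩)
          rw [closure_union] at h3
          rcases h3 with h3 | h3
          · exact Or.inl (Or.inl h3)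
          · exact Or.inr h3

/-- **Extension upwards.** A separation of the part of `K` between `s` and `t₀` extends to the part
above `s`, if at every point higher than `t₀` the local property holds. -/
theorem sep_up [T2Space X] {K : Set X} (hK : IsCompact K) {h : X → ℝ} (hc : Continuous h)
    {s t₀ : ℝ} (hst : s ≤ t₀) (hloc : ∀ r ∈ K, t₀ < h r → LocUp K h r) {A B : Set X}
    (hS : Sep K h s t₀ A B) :
    ∃ A' B' : Set X, IsClosed A' ∧ IsClosed B' ∧ Disjoint A' B' ∧ A' ∪ B' = K ∩ {x | s ≤ h x} ∧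
      A ⊆ A' ∧ B ⊆ B' := by
  classical
  obtain ⟨M, hM⟩ : ∃ M : ℝ, ∀ x ∈ K, h x ≤ M := by
    obtain ⟨M, hM⟩ := (hK.image hc).bddAbove
    exact ⟨M, fun x hx => hM ⟨x, hx, rfl⟩⟩
  obtain ⟨S, hSdef⟩ : ∃ S : Set (Set X × Set X), S = {z | ∃ t, t₀ ≤ t ∧ t ≤ max t₀ M ∧
      Sep K h s t z.1 z.2} := ⟨_, rfl⟩
  have h0 : (A, B) ∈ S := by
    rw [hSdef]
    exact ⟨t₀, le_rfl, le_max_left _ _, hS⟩
  obtain ⟨m, hm1, hm2⟩ := zorn_le_nonempty₀ S (by
    intro c hcS hch y hy
    obtain ⟨T, hT⟩ : ∃ T : Set ℝ, T = {t | t₀ ≤ t ∧ t ≤ max t₀ M ∧ ∃ z ∈ c, Sep K h s t z.1 z.2} :=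
      ⟨_, rfl⟩
    have hlev : ∀ z ∈ c, ∃ t ∈ T, Sep K h s t z.1 z.2 := by
      intro z hz
      have h1 := hcS hz
      rw [hSdef] at h1
      obtain ⟨t, h2, h3, h4⟩ := h1
      exact ⟨t, by rw [hT]; exact ⟨h2, h3, z, hz, h4⟩, h4⟩
    have hTb : BddAbove T := ⟨max t₀ M, by
      rw [hT]
      exact fun t ht => ht.2.1⟩
    obtain ⟨ty, hty, hSy⟩ := hlev y hy
    have hTne : T.Nonempty := ⟨ty, hty⟩
    have hle : ∀ t ∈ T, t ≤ sSup T := fun t ht => le_csSup hTb ht
    have ht₀ : ∀ t ∈ T, t₀ ≤ t := by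
      rw [hT]
      exact fun t ht => ht.1
    have hsup1 : t₀ ≤ sSup T := (ht₀ ty hty).trans (hle ty hty)
    have hsup2 : sSup T ≤ max t₀ M := csSup_le hTne (by
      rw [hT]
      exact fun t ht => ht.2.1)
    by_cases hmem : sSup T ∈ T
    · have h1 := hmem
      rw [hT] at h1
      obtain ⟨-, -, z, hz, hSz⟩ := h1
      rw [← hT] at hSz
      refine ⟨z, hcS hz, fun w hw => ?_⟩
      rcases hch.total hw hz with h2 | h2
      · exact h2
      · obtain ⟨t, ht, hSw⟩ := hlev w hw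
        constructor
        · intro x hx
          have h3 : x ∈ kbt K h s t := hSw.cov ▸ Or.inl hx
          exact (hSz.restrict hSw h2.1 h2.2 (h3.2.2.trans (hle t ht))).1 hx
        · intro x hx
          have h3 : x ∈ kbt K h s t := hSw.cov ▸ Or.inr hx
          exact (hSz.restrict hSw h2.1 h2.2 (h3.2.2.trans (hle t ht))).2 hx
    · have hlt : ∀ t ∈ T, t < sSup T := fun t ht =>
        lt_of_le_of_ne (hle t ht) fun h1 => hmem (h1 ▸ ht)
      have hst' : s < sSup T := (hst.trans (ht₀ ty hty)).trans_lt (hlt ty hty)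
      have hex : ∀ a : ℝ, a < sSup T → ∃ t ∈ T, a < t ∧ ∃ z ∈ c, Sep K h s t z.1 z.2 := by
        intro a ha
        obtain ⟨t, ht, hat⟩ := exists_lt_of_lt_csSup hTne ha
        have h1 := ht
        rw [hT] at h1
        exact ⟨t, ht, hat, h1.2.2⟩
      obtain ⟨A1, hA1⟩ : ∃ A1 : Set X, A1 = ⋃ z ∈ c, z.1 := ⟨_, rfl⟩
      obtain ⟨B1, hB1⟩ : ∃ B1 : Set X, B1 = ⋃ z ∈ c, z.2 := ⟨_, rfl⟩
      have hmA : ∀ x, x ∈ A1 ↔ ∃ z ∈ c, x ∈ z.1 := by
        intro x
        rw [hA1]
        simp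
      have hmB : ∀ x, x ∈ B1 ↔ ∃ z ∈ c, x ∈ z.2 := by
        intro x
        rw [hB1]
        simp
      have hcov : A1 ∪ B1 = K ∩ {x | s ≤ h x ∧ h x < sSup T} := by
        ext x
        constructor
        · rintro (hx | hx)
          · obtain ⟨z, hz, hxz⟩ := (hmA x).1 hx
            obtain ⟨t, ht, hSz⟩ := hlev z hz
            have h3 : x ∈ kbt K h s t := hSz.cov ▸ Or.inl hxz
            exact ⟨h3.1, h3.2.1, h3.2.2.trans_lt (hlt t ht)⟩
          · obtain ⟨z, hz, hxz⟩ := (hmB x).1 hx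
            obtain ⟨t, ht, hSz⟩ := hlev z hz
            have h3 : x ∈ kbt K h s t := hSz.cov ▸ Or.inr hxz
            exact ⟨h3.1, h3.2.1, h3.2.2.trans_lt (hlt t ht)⟩
        · rintro ⟨hxK, hxs, hxt⟩
          obtain ⟨t, ht, hat, z, hz, hSz⟩ := hex (h x) hxt
          have h3 : x ∈ z.1 ∪ z.2 := hSz.cov ▸ ⟨hxK, hxs, hat.le⟩
          rcases h3 with h3 | h3
          · exact Or.inl ((hmA x).2 ⟨z, hz, h3⟩)
          · exact Or.inr ((hmB x).2 ⟨z, hz, h3⟩)
      have hdis : Disjoint A1 B1 := by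
        rw [Set.disjoint_left]
        intro x hxA hxB
        obtain ⟨z, hz, hxz⟩ := (hmA x).1 hxA
        obtain ⟨w, hw, hxw⟩ := (hmB x).1 hxB
        rcases hch.total hz hw with h2 | h2
        · obtain ⟨t, ht, hSw⟩ := hlev w hw
          exact Set.disjoint_left.1 hSw.dis (h2.1 hxz) hxw
        · obtain ⟨t, ht, hSz⟩ := hlev z hz
          exact Set.disjoint_left.1 hSz.dis hxz (h2.2 hxw)
      have hclA : ∀ x ∈ closure A1, h x < sSup T → x ∈ A1 := by
        intro x hx hxt
        obtain ⟨t, ht, hat, z, hz, hSz⟩ := hex (h x) hxt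
        have h1 : x ∈ closure ({y | h y < t} ∩ A1) :=
          (isOpen_lt hc continuous_const).inter_closure ⟨hat, hx⟩
        have h2 : {y | h y < t} ∩ A1 ⊆ z.1 := by
          rintro a ⟨hat, haA⟩
          obtain ⟨w, hw, haw⟩ := (hmA a).1 haA
          obtain ⟨t', ht', hSw⟩ := hlev w hw
          rcases hch.total hw hz with h3 | h3
          · exact h3.1 haw
          · exact (hSz.restrict hSw h3.1 h3.2 (show h a < t from hat).le).1 haw
        exact (hmA x).2 ⟨z, hz, closure_minimal h2 hSz.clA h1⟩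
      have hclB : ∀ x ∈ closure B1, h x < sSup T → x ∈ B1 := by
        intro x hx hxt
        obtain ⟨t, ht, hat, z, hz, hSz⟩ := hex (h x) hxt
        have h1 : x ∈ closure ({y | h y < t} ∩ B1) :=
          (isOpen_lt hc continuous_const).inter_closure ⟨hat, hx⟩
        have h2 : {y | h y < t} ∩ B1 ⊆ z.2 := by
          rintro a ⟨hat, haA⟩
          obtain ⟨w, hw, haw⟩ := (hmB a).1 haA
          obtain ⟨t', ht', hSw⟩ := hlev w hw
          rcases hch.total hw hz with h3 | h3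
          · exact h3.2 haw
          · exact (hSz.restrict hSw h3.1 h3.2 (show h a < t from hat).le).2 haw
        exact (hmB x).2 ⟨z, hz, closure_minimal h2 hSz.clB h1⟩
      obtain ⟨A', B', hS', hAA, hBB⟩ := sep_limit hK.isClosed hc hst'
        (fun r hr hrt => hloc r hr (by rw [hrt]; exact (ht₀ ty hty).trans_lt (hlt ty hty)))
        hcov hdis hclA hclB
      refine ⟨(A', B'), ?_, fun z hz => ⟨fun x hx => hAA ((hmA x).2 ⟨z, hz, hx⟩),
        fun x hx => hBB ((hmB x).2 ⟨z, hz, hx⟩)⟩⟩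
      rw [hSdef]
      exact ⟨sSup T, hsup1, hsup2, hS'⟩) (A, B) h0
  have hmS := hm2.prop
  rw [hSdef] at hmS
  obtain ⟨t, ht₀, htM, hSm⟩ := hmS
  have hAm : IsCompact m.1 := hK.of_isClosed_subset hSm.clA fun x hx => by
    have h3 : x ∈ kbt K h s t := hSm.cov ▸ Or.inl hx
    exact h3.1
  have hBm : IsCompact m.2 := hK.of_isClosed_subset hSm.clB fun x hx => by
    have h3 : x ∈ kbt K h s t := hSm.cov ▸ Or.inr hx
    exact h3.1
  obtain ⟨U, W, hU, hW, hAU, hBW, hUW⟩ := SeparatedNhds.of_isCompact_isCompact hAm hBm hSm.dis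
  by_cases hR : ∀ x ∈ K, s ≤ h x → x ∈ U ∪ W
  · have hcl : IsClosed (K ∩ {x | s ≤ h x}) :=
      hK.isClosed.inter (isClosed_le continuous_const hc)
    refine ⟨(K ∩ {x | s ≤ h x}) \ W, (K ∩ {x | s ≤ h x}) \ U, hcl.sdiff hW,
      hcl.sdiff hU, ?_, ?_, ?_, ?_⟩
    · rw [Set.disjoint_left]
      rintro x ⟨h1, h2⟩ ⟨-, h3⟩
      rcases hR x h1.1 h1.2 with h4 | h4
      · exact h3 h4
      · exact h2 h4
    · ext x
      constructor
      · rintro (h1 | h1)
        · exact h1.1
        · exact h1.1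
      · intro h1
        rcases hR x h1.1 h1.2 with h4 | h4
        · exact Or.inl ⟨h1, fun h5 => Set.disjoint_left.1 hUW h4 h5⟩
        · exact Or.inr ⟨h1, fun h5 => Set.disjoint_left.1 hUW h5 h4⟩
    · intro x hx
      have hx' := hm1.1 hx
      have h3 : x ∈ kbt K h s t := hSm.cov ▸ Or.inl hx'
      exact ⟨⟨h3.1, h3.2.1⟩, fun h5 => Set.disjoint_left.1 hUW (hAU hx') h5⟩
    · intro x hx
      have hx' := hm1.2 hx
      have h3 : x ∈ kbt K h s t := hSm.cov ▸ Or.inr hx'
      exact ⟨⟨h3.1, h3.2.1⟩, fun h5 => Set.disjoint_left.1 hUW h5 (hBW hx')⟩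
  · exfalso
    push Not at hR
    obtain ⟨x₀, hx₀K, hx₀s, hx₀⟩ := hR
    obtain ⟨R, hRdef⟩ : ∃ R : Set X, R = (K ∩ {x | s ≤ h x}) \ (U ∪ W) := ⟨_, rfl⟩
    have hRc : IsCompact R := by
      rw [hRdef]
      exact (hK.inter_right (isClosed_le continuous_const hc)).diff (hU.union hW)
    have hRne : R.Nonempty := ⟨x₀, by rw [hRdef]; exact ⟨⟨hx₀K, hx₀s⟩, hx₀⟩⟩
    obtain ⟨r, hrR, hrmin⟩ := hRc.exists_isMinOn hRne hc.continuousOn
    have hr := hrR
    rw [hRdef] at hr
    have hcovUW : ∀ x ∈ K, s ≤ h x → h x < h r → x ∈ U ∪ W := by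
      intro x hxK hxs hxr
      by_contra hcon
      have h1 : x ∈ R := by
        rw [hRdef]
        exact ⟨⟨hxK, hxs⟩, hcon⟩
      exact absurd (hrmin h1) (not_le.2 hxr)
    have htr : t < h r := by
      by_contra hcon
      push Not at hcon
      have h1 : r ∈ m.1 ∪ m.2 := hSm.cov ▸ ⟨hr.1.1, hr.1.2, hcon⟩
      rcases h1 with h1 | h1
      · exact hr.2 (Or.inl (hAU h1))
      · exact hr.2 (Or.inr (hBW h1))
    have hmax : ∀ z ∈ S, m ≤ z → z ≤ m := fun z hz hmz => hm2.2 hz hmz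
    have hgap : ∀ x ∈ K, s ≤ h x → h x < h r → h x ≤ t := by
      intro x hxK hxs hxr
      by_contra hcon
      push Not at hcon
      have hk := kbt_closed hK.isClosed hc s (h x)
      have hz : (kbt K h s (h x) \ W, kbt K h s (h x) \ U) ∈ S := by
        rw [hSdef]
        refine ⟨h x, ht₀.trans hcon.le, (hM x hxK).trans (le_max_right _ _), hk.sdiff hW,
          hk.sdiff hU, ?_, ?_⟩
        · rw [Set.disjoint_left]
          rintro y ⟨h1, h2⟩ ⟨-, h3⟩
          rcases hcovUW y h1.1 h1.2.1 (h1.2.2.trans_lt hxr) with h4 | h4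
          · exact h3 h4
          · exact h2 h4
        · ext y
          constructor
          · rintro (h1 | h1)
            · exact h1.1
            · exact h1.1
          · intro h1
            rcases hcovUW y h1.1 h1.2.1 (h1.2.2.trans_lt hxr) with h4 | h4
            · exact Or.inl ⟨h1, fun h5 => Set.disjoint_left.1 hUW h4 h5⟩
            · exact Or.inr ⟨h1, fun h5 => Set.disjoint_left.1 hUW h5 h4⟩
      have hle : m ≤ (kbt K h s (h x) \ W, kbt K h s (h x) \ U) := by
        constructor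
        · intro y hy
          have h3 : y ∈ kbt K h s t := hSm.cov ▸ Or.inl hy
          exact ⟨⟨h3.1, h3.2.1, h3.2.2.trans hcon.le⟩,
            fun h5 => Set.disjoint_left.1 hUW (hAU hy) h5⟩
        · intro y hy
          have h3 : y ∈ kbt K h s t := hSm.cov ▸ Or.inr hy
          exact ⟨⟨h3.1, h3.2.1, h3.2.2.trans hcon.le⟩,
            fun h5 => Set.disjoint_left.1 hUW h5 (hBW hy)⟩
      have h1 := hmax _ hz hle
      have h2 : x ∈ m.1 ∪ m.2 := by
        rcases hcovUW x hxK hxs hxr with h4 | h4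
        · exact Or.inl (h1.1 ⟨⟨hxK, hxs, le_rfl⟩, fun h5 => Set.disjoint_left.1 hUW h4 h5⟩)
        · exact Or.inr (h1.2 ⟨⟨hxK, hxs, le_rfl⟩, fun h5 => Set.disjoint_left.1 hUW h5 h4⟩)
      rw [hSm.cov] at h2
      exact absurd h2.2.2 (not_le.2 hcon)
    have hcov : m.1 ∪ m.2 = K ∩ {x | s ≤ h x ∧ h x < h r} := by
      rw [hSm.cov]
      ext x
      constructor
      · rintro ⟨h1, h2, h3⟩
        exact ⟨h1, h2, h3.trans_lt htr⟩
      · rintro ⟨h1, h2, h3⟩
        exact ⟨h1, h2, hgap x h1 h2 h3⟩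
    obtain ⟨A', B', hS', hAA, hBB⟩ := sep_limit hK.isClosed hc (hst.trans_lt (ht₀.trans_lt htr))
      (fun y hy hyt => hloc y hy (by rw [hyt]; exact ht₀.trans_lt htr)) hcov hSm.dis
      (fun x hx _ => by rwa [hSm.clA.closure_eq] at hx)
      (fun x hx _ => by rwa [hSm.clB.closure_eq] at hx)
    have hz : ((A', B') : Set X × Set X) ∈ S := by
      rw [hSdef]
      exact ⟨h r, ht₀.trans htr.le, (hM r hr.1.1).trans (le_max_right _ _), hS'⟩
    have h1 := hmax _ hz ⟨hAA, hBB⟩
    have h2 : r ∈ A' ∪ B' := hS'.cov ▸ ⟨hr.1.1, hr.1.2, le_rfl⟩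
    have h3 : r ∈ m.1 ∪ m.2 := by
      rcases h2 with h2 | h2
      · exact Or.inl (h1.1 h2)
      · exact Or.inr (h1.2 h2)
    rw [hSm.cov] at h3
    exact absurd h3.2.2 (not_le.2 htr)

end Pool.Schoen
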